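import Pool.Agent.MP_3466b8_an.Dirichlet

/-!
The `L²` boundary function of a function in the Dirichlet space.
-/

set_option autoImplicit false

open Complex MeasureTheory intervalIntegral Filter Topology
open scoped Real ComplexConjugate ENNReal

namespace Pool.Agent.MP_3466b8_an

theorem int_mu {E : Type} [NormedAddCommGroup E] [NormedSpace ℝ E] (g : ℝ → E) :
    ∫ θ in (0 : ℝ)..(2 * π), g θ = ∫ θ, g θ ∂mu := by
  rw [intervalIntegral.integral_of_le (by positivity)]
  rfl

theorem parsevalL {g : ℝ → ℂ} (hg : MemLp g 2 mu) :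
    HasSum (fun k : ℤ => ‖fc g k‖ ^ 2) ((2 * π)⁻¹ * ∫ θ, ‖g θ‖ ^ 2 ∂mu) := by
  have := hasSum_sq_fourierCoeffOn (show (0 : ℝ) < 2 * π by positivity) hg
  simp only [sub_zero, smul_eq_mul] at this
  rw [← int_mu]
  refine hs_congr this fun k => ?_
  rw [fc_eq]

theorem memLp_cont {g : ℝ → ℂ} (hg : Continuous g) (p : ℝ≥0∞) : MemLp g p mu := by
  have hc : ContinuousOn g (Set.Icc 0 (2 * π)) := hg.continuousOn
  obtain ⟨C, hC⟩ := isCompact_Icc.exists_bound_of_continuousOn hc
  refine MemLp.of_bound hg.aestronglyMeasurable C ?_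
  unfold mu
  rw [ae_restrict_iff' measurableSet_Ioc]
  exact Filter.Eventually.of_forall fun x hx => hC x (Set.Ioc_subset_Icc_self hx)

theorem eLp_eq {g : ℝ → ℂ} (hg : MemLp g 2 mu) :
    eLpNorm g 2 mu = ENNReal.ofReal (Real.sqrt (∫ θ, ‖g θ‖ ^ 2 ∂mu)) := by
  rw [MemLp.eLpNorm_eq_integral_rpow_norm (by norm_num) (by norm_num) hg, Real.sqrt_eq_rpow]
  congr 1
  simp

/-- partial sums -/
noncomputable def sn (c : ℕ → ℂ) (n : ℕ) (θ : ℝ) : ℂ :=
  ∑ i ∈ Finset.range n, c i * ch ((i : ℤ) + 1) θ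

@[fun_prop] theorem continuous_sn (c : ℕ → ℂ) (n : ℕ) : Continuous (sn c n) := by
  unfold sn
  fun_prop

theorem sn_eq_tp (c : ℕ → ℂ) (n : ℕ) (θ : ℝ) :
    sn c n θ = tp (fun i : Fin n => c i) θ := by
  unfold sn tp
  rw [Finset.sum_range]

theorem fc_finite {ι : Type} (s : Finset ι) (κ : ι → ℤ) (b : ι → ℂ) (k : ℤ) :
    fc (fun θ => ∑ i ∈ s, b i * ch (κ i) θ) k = ∑ i ∈ s, if κ i = k then b i else 0 := by
  unfold fc
  have h1 : (fun θ => (∑ i ∈ s, b i * ch (κ i) θ) * ch (-k) θ)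
      = fun θ => ∑ i ∈ s, b i * ch (κ i + -k) θ := by
    ext θ
    rw [Finset.sum_mul]
    apply Finset.sum_congr rfl
    intro i _
    rw [ch_add]
    ring
  rw [h1, A_sum s _ (fun i _ => by fun_prop)]
  apply Finset.sum_congr rfl
  intro i _
  rw [A_const_mul, A_ch]
  split_ifs with h5 h6 h7
  · ring
  · omega
  · omega
  · ring

/-- the extended sequence of Fourier coefficients -/
noncomputable def cz (c : ℕ → ℂ) (k : ℤ) : ℂ := if 1 ≤ k then c (k - 1).toNat else 0

theorem cz_succ (c : ℕ → ℂ) (i : ℕ) : cz c ((i : ℤ) + 1) = c i := by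
  unfold cz
  rw [if_pos (by omega)]
  simp

theorem cz_of_nonpos (c : ℕ → ℂ) {k : ℤ} (hk : k ≤ 0) : cz c k = 0 := by
  unfold cz
  rw [if_neg (by omega)]

theorem fc_sn (c : ℕ → ℂ) (n : ℕ) (k : ℤ) :
    fc (sn c n) k = if k ≤ n then cz c k else 0 := by
  unfold sn
  rw [fc_finite (Finset.range n) (fun i : ℕ => (i : ℤ) + 1) c k]
  by_cases hk : 1 ≤ k ∧ k ≤ n
  · rw [if_pos hk.2, Finset.sum_eq_single (k - 1).toNat]
    · rw [if_pos (by omega)]
      unfold cz
      rw [if_pos hk.1]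
    · intro i _ hi
      rw [if_neg (by omega)]
    · intro h
      exact absurd (Finset.mem_range.mpr (by omega)) h
  · rw [Finset.sum_eq_zero]
    · split_ifs with h
      · rw [cz_of_nonpos c (by omega)]
      · rfl
    · intro i hi
      have := Finset.mem_range.mp hi
      rw [if_neg (by omega)]

theorem l2_finite (b : ℕ → ℂ) (s : Finset ℕ) :
    ∫ θ, ‖∑ i ∈ s, b i * ch ((i : ℤ) + 1) θ‖ ^ 2 ∂mu = 2 * π * ∑ i ∈ s, ‖b i‖ ^ 2 := by
  have hc : Continuous fun θ => ∑ i ∈ s, b i * ch ((i : ℤ) + 1) θ := by fun_prop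
  have h1 := parsevalL (memLp_cont hc 2)
  have hinj : Function.Injective (fun i : ℕ => (i : ℤ) + 1) := by
    intro i j h
    simp only at h
    omega
  have h2 : HasSum (fun k : ℤ => ‖fc (fun θ => ∑ i ∈ s, b i * ch ((i : ℤ) + 1) θ) k‖ ^ 2)
      (∑ i ∈ s, ‖b i‖ ^ 2) := by
    have h3 : HasSum (fun k : ℤ => ‖fc (fun θ => ∑ i ∈ s, b i * ch ((i : ℤ) + 1) θ) k‖ ^ 2)
        (∑ k ∈ s.map ⟨fun i : ℕ => (i : ℤ) + 1, hinj⟩,
          ‖fc (fun θ => ∑ i ∈ s, b i * ch ((i : ℤ) + 1) θ) k‖ ^ 2) :=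
      hasSum_sum_of_ne_finset_zero (by
        intro k hk
        rw [fc_finite s (fun i : ℕ => (i : ℤ) + 1) b k, Finset.sum_eq_zero]
        · simp
        · intro i hi
          rw [if_neg]
          intro h
          apply hk
          rw [Finset.mem_map]
          exact ⟨i, hi, h⟩)
    rw [Finset.sum_map] at h3
    convert h3 using 1
    apply Finset.sum_congr rfl
    intro i hi
    simp only [Function.Embedding.coeFn_mk]
    rw [fc_finite s (fun i : ℕ => (i : ℤ) + 1) b, Finset.sum_eq_single i]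
    · simp
    · intro j _ hj
      rw [if_neg (by omega)]
    · intro h
      exact absurd hi h
  have h3 := h1.unique h2
  rw [← h3]
  have : (2 * π : ℝ) ≠ 0 := by positivity
  field_simp

/-- Existence of the `L²` boundary function. -/
theorem exists_bdry {c : ℕ → ℂ} (hc : Summable fun i => ‖c i‖ ^ 2) :
    ∃ F : ℝ → ℂ, MemLp F 2 mu ∧
      Tendsto (fun n => eLpNorm (sn c n - F) 2 mu) atTop (𝓝 0) := by
  set S : ℕ → Lp ℂ 2 mu := fun n => (memLp_cont (continuous_sn c n) 2).toLp (sn c n) with hS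
  have hdist : ∀ n m : ℕ, m ≤ n →
      dist (S n) (S m) = Real.sqrt (2 * π * ∑ i ∈ Finset.Ico m n, ‖c i‖ ^ 2) := by
    intro n m hmn
    rw [dist_eq_norm, hS]
    simp only
    rw [← MemLp.toLp_sub, Lp.norm_toLp,
      eLp_eq ((memLp_cont (continuous_sn c n) 2).sub (memLp_cont (continuous_sn c m) 2)),
      ENNReal.toReal_ofReal (Real.sqrt_nonneg _)]
    congr 1
    rw [← l2_finite]
    congr 1
    ext θ
    congr 2
    simp only [Pi.sub_apply]
    unfold sn
    rw [Finset.sum_Ico_eq_sub _ hmn]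
  have hcau : CauchySeq S := by
    apply cauchySeq_of_le_tendsto_0 (fun N => Real.sqrt (2 * π * ∑' i, ‖c (i + N)‖ ^ 2))
    · have key : ∀ n m N : ℕ, N ≤ m → m ≤ n →
          dist (S n) (S m) ≤ Real.sqrt (2 * π * ∑' i, ‖c (i + N)‖ ^ 2) := by
        intro n m N hN hmn
        rw [hdist n m hmn]
        apply Real.sqrt_le_sqrt
        apply mul_le_mul_of_nonneg_left _ (by positivity)
        have hs : Summable fun i => ‖c (i + N)‖ ^ 2 := (summable_nat_add_iff N).mpr hc
        calc ∑ i ∈ Finset.Ico m n, ‖c i‖ ^ 2 ≤ ∑ i ∈ Finset.Ico N n, ‖c i‖ ^ 2 := by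
              apply Finset.sum_le_sum_of_subset_of_nonneg
              · exact Finset.Ico_subset_Ico_left hN
              · intro _ _ _
                positivity
          _ = ∑ i ∈ Finset.range (n - N), ‖c (i + N)‖ ^ 2 := by
              rw [Finset.sum_Ico_eq_sum_range]
              apply Finset.sum_congr rfl
              intro i _
              rw [add_comm]
          _ ≤ _ := hs.sum_le_tsum _ (fun _ _ => by positivity)
      intro n m N hn hm
      rcases le_total m n with h | h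
      · exact key n m N hm h
      · rw [dist_comm]
        exact key m n N hn h
    · have h1 := tendsto_sum_nat_add (fun i => ‖c i‖ ^ 2)
      have h2 : Tendsto (fun N : ℕ => Real.sqrt (2 * π * ∑' i, ‖c (i + N)‖ ^ 2)) atTop
          (𝓝 (Real.sqrt (2 * π * 0))) := (h1.const_mul _).sqrt
      simpa using h2
  obtain ⟨G, hG⟩ := cauchySeq_tendsto_of_complete hcau
  refine ⟨G, Lp.memLp G, ?_⟩
  have h1 := (Lp.tendsto_Lp_iff_tendsto_eLpNorm' S G).mp hG
  refine h1.congr fun n => ?_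
  apply eLpNorm_congr_ae
  filter_upwards [(memLp_cont (continuous_sn c n) 2).coeFn_toLp] with θ hθ
  simp only [Pi.sub_apply, hS]
  rw [hθ]

end Pool.Agent.MP_3466b8_an
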