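import Mathlib

/-!
The functions and functionals of the Chang-Marshall inequality.
-/

set_option autoImplicit false

open Complex MeasureTheory Filter Topology
open scoped Real ENNReal

namespace Pool.Agent.MP_3466b8_an

/-- The Stolz (nontangential approach) region of the unit disc with vertex `ζ` and
aperture `M`. -/
def stolz (M : ℝ) (ζ : ℂ) : Set ℂ := {z | ‖z‖ < 1 ∧ ‖z - ζ‖ < M * (1 - ‖z‖)}

/-- `w` is the nontangential limit of `f` at the point `ζ` of the unit circle. -/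
def HasNTLimit (f : ℂ → ℂ) (ζ w : ℂ) : Prop :=
  ∀ M : ℝ, 1 < M → Tendsto f (𝓝[stolz M ζ] ζ) (𝓝 w)

open Classical in
/-- The nontangential boundary value of `f` at `e^{iθ}`; the value is `0` at the points where
`f` has no nontangential limit. -/
noncomputable def bdry (f : ℂ → ℂ) (θ : ℝ) : ℂ :=
  if h : ∃ w, HasNTLimit f (Complex.exp (θ * I)) w then h.choose else 0

/-- The normalised Dirichlet integral `(∬_𝔻 |f'|² dx dy / π)^{1/2}`. -/
noncomputable def dirJ (f : ℂ → ℂ) : ℝ≥0∞ :=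
  ((∫⁻ z in Metric.ball (0 : ℂ) 1, ‖deriv f z‖ₑ ^ 2) / ENNReal.ofReal π) ^ (1 / 2 : ℝ)

/-- The class `𝓕`: functions analytic on the unit disc with `f(0) = 0` and normalised
Dirichlet integral at most `1`. -/
def classF : Set (ℂ → ℂ) :=
  {f | DifferentiableOn ℂ f (Metric.ball 0 1) ∧ f 0 = 0 ∧ dirJ f ≤ 1}

/-- The Chang-Marshall integral `∫_0^{2π} exp(|f(e^{iθ})|²) dθ`. -/
noncomputable def cmInt (f : ℂ → ℂ) : ℝ≥0∞ :=
  ∫⁻ θ in Set.Ioo (0 : ℝ) (2 * π), ENNReal.ofReal (Real.exp (‖bdry f θ‖ ^ 2))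

end Pool.Agent.MP_3466b8_an
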