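import Pool.Agent.MP_3466b8_an.Disc

/-!
The Dirichlet integral in polar coordinates.
-/

set_option autoImplicit false

open Complex MeasureTheory intervalIntegral Filter Topology
open scoped Real ComplexConjugate ENNReal

namespace Pool.Agent.MP_3466b8_an

/-- the circular mean of the derivative is bounded below -/
theorem lint_circle {f : ℂ → ℂ} (hf : DifferentiableOn ℂ f (Metric.ball 0 1)) {s : ℝ}
    (hs : 0 ≤ s) (hs1 : s < 1) (N : ℕ) :
    ENNReal.ofReal (2 * π * ∑ i ∈ Finset.range N, ((i : ℝ) + 1) ^ 2 * ‖tc f i‖ ^ 2 * s ^ (2 * i)) ≤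
      ∫⁻ θ in Set.Ioo (-π) π, ‖deriv f ((s : ℂ) * Complex.exp (θ * I))‖ₑ ^ 2 := by
  have hc : Continuous fun θ : ℝ => deriv f ((s : ℂ) * Complex.exp (θ * I)) :=
    continuous_of_hasSum (κ := fun i : ℕ => ((i : ℕ) : ℤ)) (summable_deriv hf hs hs1)
      (fun θ => deriv_circle hf hs hs1 θ)
  have h1 := bessel_circle hf hs hs1 N
  have hper : Function.Periodic
      (fun θ : ℝ => ‖deriv f ((s : ℂ) * Complex.exp (θ * I))‖ ^ 2) (2 * π) := by
    intro θ
    have : Complex.exp (((θ + 2 * π : ℝ) : ℂ) * I) = Complex.exp (θ * I) := by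
      have h := ch_add 1 0 θ
      have e : (((θ + 2 * π : ℝ) : ℂ) * I) = θ * I + 2 * π * I := by push_cast; ring
      rw [e, Complex.exp_add, Complex.exp_two_pi_mul_I, mul_one]
    simp only [this]
  have h2 := hper.intervalIntegral_add_eq 0 (-π)
  rw [zero_add] at h2
  have e1 : -π + 2 * π = π := by ring
  rw [e1] at h2
  rw [h2, inv_mul_eq_div, le_div_iff₀ (by positivity)] at h1
  have hint : Integrable (fun θ : ℝ => ‖deriv f ((s : ℂ) * Complex.exp (θ * I))‖ ^ 2)
      (volume.restrict (Set.Ioo (-π) π)) := by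
    have : Continuous fun θ : ℝ => ‖deriv f ((s : ℂ) * Complex.exp (θ * I))‖ ^ 2 := by fun_prop
    exact (this.integrableOn_Icc (a := -π) (b := π)).mono_set Set.Ioo_subset_Icc_self
  have h3 : ∫⁻ θ in Set.Ioo (-π) π, ‖deriv f ((s : ℂ) * Complex.exp (θ * I))‖ₑ ^ 2
      = ENNReal.ofReal (∫ θ in (-π)..π, ‖deriv f ((s : ℂ) * Complex.exp (θ * I))‖ ^ 2) := by
    rw [intervalIntegral.integral_of_le (by linarith [Real.pi_pos]),
      integral_Ioc_eq_integral_Ioo, ofReal_integral_eq_lintegral_ofReal hint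
      (Eventually.of_forall fun θ => by positivity)]
    apply lintegral_congr
    intro θ
    rw [ENNReal.ofReal_pow (norm_nonneg _), ofReal_norm]
  rw [h3]
  apply ENNReal.ofReal_le_ofReal
  linarith

theorem polar_point (p : ℝ × ℝ) :
    Complex.polarCoord.symm p = (p.1 : ℂ) * Complex.exp (p.2 * I) := by
  rw [Complex.polarCoord_symm_apply, Complex.exp_mul_I]
  push_cast
  rfl

theorem dirichlet_ge {f : ℂ → ℂ} (hf : DifferentiableOn ℂ f (Metric.ball 0 1)) (N : ℕ) :
    ENNReal.ofReal (π * ∑ i ∈ Finset.range N, ((i : ℝ) + 1) * ‖tc f i‖ ^ 2) ≤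
      ∫⁻ z in Metric.ball (0 : ℂ) 1, ‖deriv f z‖ₑ ^ 2 := by
  set G : ℂ → ℝ≥0∞ := (Metric.ball (0 : ℂ) 1).indicator fun z => ‖deriv f z‖ₑ ^ 2 with hG
  have hGm : Measurable G := by
    apply Measurable.indicator _ Metric.isOpen_ball.measurableSet
    exact (measurable_deriv f).enorm.pow_const 2
  have h1 : ∫⁻ z in Metric.ball (0 : ℂ) 1, ‖deriv f z‖ₑ ^ 2 = ∫⁻ z, G z := by
    rw [hG, lintegral_indicator Metric.isOpen_ball.measurableSet]
  have hpm : Measurable fun p : ℝ × ℝ =>
      ENNReal.ofReal p.1 • G ((p.1 : ℂ) * Complex.exp (p.2 * I)) := by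
    apply Measurable.mul
    · exact ENNReal.measurable_ofReal.comp measurable_fst
    · exact hGm.comp (by fun_prop)
  have h2 : ∫⁻ z, G z = ∫⁻ r in Set.Ioi (0 : ℝ), ∫⁻ θ in Set.Ioo (-π) π,
      ENNReal.ofReal r • G ((r : ℂ) * Complex.exp (θ * I)) := by
    rw [← Complex.lintegral_comp_polarCoord_symm]
    simp only [polar_point]
    rw [polarCoord_target, Measure.volume_eq_prod, ← Measure.prod_restrict,
      lintegral_prod _ hpm.aemeasurable]
  rw [h1, h2]
  have h3 : ENNReal.ofReal (π * ∑ i ∈ Finset.range N, ((i : ℝ) + 1) * ‖tc f i‖ ^ 2)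
      = ∫⁻ r in Set.Ioo (0 : ℝ) 1, ENNReal.ofReal (r * (2 * π *
        ∑ i ∈ Finset.range N, ((i : ℝ) + 1) ^ 2 * ‖tc f i‖ ^ 2 * r ^ (2 * i))) := by
    have hcont : Continuous fun r : ℝ => r * (2 * π *
        ∑ i ∈ Finset.range N, ((i : ℝ) + 1) ^ 2 * ‖tc f i‖ ^ 2 * r ^ (2 * i)) := by fun_prop
    rw [← ofReal_integral_eq_lintegral_ofReal]
    · rw [← integral_Ioc_eq_integral_Ioo, ← intervalIntegral.integral_of_le (by norm_num)]
      congr 1
      have e1 : (fun r : ℝ => r * (2 * π *
          ∑ i ∈ Finset.range N, ((i : ℝ) + 1) ^ 2 * ‖tc f i‖ ^ 2 * r ^ (2 * i)))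
          = fun r => ∑ i ∈ Finset.range N,
            (2 * π * (((i : ℝ) + 1) ^ 2 * ‖tc f i‖ ^ 2)) * r ^ (2 * i + 1) := by
        ext r
        rw [Finset.mul_sum, Finset.mul_sum]
        apply Finset.sum_congr rfl
        intro i _
        ring
      rw [e1, intervalIntegral.integral_finsetSum]
      · rw [Finset.mul_sum]
        apply Finset.sum_congr rfl
        intro i _
        rw [intervalIntegral.integral_const_mul, integral_pow]
        have : (i : ℝ) + 1 ≠ 0 := by positivity
        push_cast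
        simp only [one_pow, ne_eq, Nat.add_eq_zero_iff, mul_eq_zero, OfNat.ofNat_ne_zero, false_or,
          one_ne_zero, and_false, not_false_eq_true, zero_pow, sub_zero]
        have h4 : (2 * (i : ℝ) + 1 + 1) ≠ 0 := by positivity
        field_simp
        ring
      · intro i _
        apply Continuous.intervalIntegrable
        fun_prop
    · exact (hcont.integrableOn_Icc (a := 0) (b := 1)).mono_set Set.Ioo_subset_Icc_self
    · rw [EventuallyLE, ae_restrict_iff' measurableSet_Ioo]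
      refine Eventually.of_forall fun r hr => ?_
      have := hr.1
      simp only [Pi.zero_apply]
      positivity
  rw [h3]
  calc _ ≤ ∫⁻ r in Set.Ioo (0 : ℝ) 1, ∫⁻ θ in Set.Ioo (-π) π,
      ENNReal.ofReal r • G ((r : ℂ) * Complex.exp (θ * I)) := by
        apply setLIntegral_mono' measurableSet_Ioo
        intro r hr
        have e1 : ∀ θ : ℝ, ENNReal.ofReal r • G ((r : ℂ) * Complex.exp (θ * I))
            = ENNReal.ofReal r * ‖deriv f ((r : ℂ) * Complex.exp (θ * I))‖ₑ ^ 2 := by
          intro θ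
          rw [hG, Set.indicator_of_mem]
          · rfl
          · rw [mem_ball_zero_iff, norm_circle hr.1.le]
            exact hr.2
        simp only [e1]
        rw [lintegral_const_mul]
        · rw [ENNReal.ofReal_mul hr.1.le]
          exact mul_le_mul_right (lint_circle hf hr.1.le hr.2 N) _
        · have : Measurable fun z => ‖deriv f z‖ₑ ^ 2 := (measurable_deriv f).enorm.pow_const 2
          exact this.comp (by fun_prop)
    _ ≤ _ := lintegral_mono_set Set.Ioo_subset_Ioi_self

end Pool.Agent.MP_3466b8_an
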