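import Pool.Agent.MP_3466b8_an.Limit

/-!
Analytic functions on the disc: Taylor coefficients and the Dirichlet integral.
-/

set_option autoImplicit false

open Complex MeasureTheory intervalIntegral Filter Topology
open scoped Real ComplexConjugate ENNReal

namespace Pool.Agent.MP_3466b8_an

theorem hs_congr {ι α : Type} [AddCommMonoid α] [TopologicalSpace α] {f g : ι → α} {a : α}
    (h : HasSum f a) (e : ∀ i, f i = g i) : HasSum g a := by
  have : f = g := funext e
  rwa [this] at h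

/-- Taylor coefficients: `tc f i` is the coefficient of `z ^ (i + 1)` -/
noncomputable def tc (f : ℂ → ℂ) (i : ℕ) : ℂ :=
  ((i + 1).factorial : ℂ)⁻¹ * iteratedDeriv (i + 1) f 0

theorem hasSum_f {f : ℂ → ℂ} (hf : DifferentiableOn ℂ f (Metric.ball 0 1)) (h0 : f 0 = 0)
    {z : ℂ} (hz : ‖z‖ < 1) : HasSum (fun i : ℕ => tc f i * z ^ (i + 1)) (f z) := by
  have h1 := Complex.hasSum_taylorSeries_on_ball hf (z := z) (by simpa using hz)
  rw [← hasSum_nat_add_iff' 1] at h1
  simp only [Finset.range_one, Finset.sum_singleton, iteratedDeriv_zero, h0, smul_zero,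
    sub_zero] at h1
  refine hs_congr h1 fun i => ?_
  unfold tc
  simp only [smul_eq_mul]
  ring

theorem hasSum_deriv {f : ℂ → ℂ} (hf : DifferentiableOn ℂ f (Metric.ball 0 1))
    {z : ℂ} (hz : ‖z‖ < 1) :
    HasSum (fun i : ℕ => ((i : ℂ) + 1) * tc f i * z ^ i) (deriv f z) := by
  have hd : DifferentiableOn ℂ (deriv f) (Metric.ball 0 1) := hf.deriv Metric.isOpen_ball
  have h1 := Complex.hasSum_taylorSeries_on_ball hd (z := z) (by simpa using hz)
  refine hs_congr h1 fun i => ?_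
  unfold tc
  rw [iteratedDeriv_succ']
  simp only [smul_eq_mul, sub_zero, Nat.factorial_succ]
  have h2 : (i : ℂ) + 1 ≠ 0 := Nat.cast_add_one_ne_zero i
  have h3 : ((i.factorial : ℕ) : ℂ) ≠ 0 := by exact_mod_cast Nat.factorial_ne_zero i
  push_cast
  field_simp

theorem A_ch (k : ℤ) : A (ch k) = if k = 0 then 1 else 0 := by
  have hnat : ∀ m : ℕ, A (ch m) = if m = 0 then 1 else 0 := by
    intro m
    have h1 : ch (m : ℤ) = fun θ : ℝ => (fun z : ℂ => z ^ m) (Complex.exp (θ * I)) := by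
      ext θ
      rw [ch_nat]
    rw [h1, mean_value (G := fun z : ℂ => z ^ m) (by fun_prop)]
    split_ifs with h
    · simp [h]
    · simp [h]
  rcases Int.eq_nat_or_neg k with ⟨m, rfl | rfl⟩
  · rw [hnat]
    simp
  · have h2 : ch (-(m : ℤ)) = fun θ => conj (ch m θ) := by
      ext θ
      rw [conj_ch]
    rw [h2, A_conj, hnat]
    split_ifs with h3 h4 h5
    · simp
    · exact absurd (by simp [h3]) h4
    · exact absurd (by simpa using h5) h3
    · simp

/-- Fourier coefficients of an absolutely convergent series of nonnegative frequencies. -/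
theorem hasSum_fc {ι : Type} [Countable ι] (κ : ι → ℤ) {b : ι → ℂ}
    (hb : Summable fun i => ‖b i‖) {g : ℝ → ℂ}
    (hg : ∀ θ, HasSum (fun i => b i * ch (κ i) θ) (g θ)) (k : ℤ) :
    HasSum (fun i => if κ i = k then b i else 0) (fc g k) := by
  have h1 : HasSum (fun i => ∫ θ in (0 : ℝ)..(2 * π), b i * ch (κ i) θ * ch (-k) θ)
      (∫ θ in (0 : ℝ)..(2 * π), g θ * ch (-k) θ) := by
    apply intervalIntegral.hasSum_integral_of_dominated_convergence (fun i _ => ‖b i‖)
    · intro i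
      apply Continuous.aestronglyMeasurable
      fun_prop
    · intro i
      refine Eventually.of_forall fun θ _ => ?_
      rw [norm_mul, norm_mul, norm_ch, norm_ch, mul_one, mul_one]
    · exact Eventually.of_forall fun θ _ => hb
    · exact intervalIntegrable_const
    · exact Eventually.of_forall fun θ _ => (hg θ).mul_right _
  have h2 := h1.mul_left ((2 * π : ℂ)⁻¹)
  refine hs_congr (h2 : HasSum _ (fc g k)) fun i => ?_
  have h3 : (fun θ : ℝ => b i * ch (κ i) θ * ch (-k) θ) = fun θ => b i * ch (κ i + -k) θ := by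
    ext θ
    rw [ch_add]
    ring
  have h4 : (2 * π : ℂ)⁻¹ * ∫ θ in (0 : ℝ)..(2 * π), b i * ch (κ i) θ * ch (-k) θ
      = A (fun θ => b i * ch (κ i + -k) θ) := by
    rw [h3]
    rfl
  rw [h4, A_const_mul, A_ch]
  split_ifs with h5 h6 h7
  · ring
  · omega
  · omega
  · ring

theorem fc_of_hasSum {κ : ℕ → ℤ} (hκ : Function.Injective κ) {b : ℕ → ℂ}
    (hb : Summable fun i => ‖b i‖) {g : ℝ → ℂ}
    (hg : ∀ θ, HasSum (fun i => b i * ch (κ i) θ) (g θ)) (i : ℕ) :
    fc g (κ i) = b i := by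
  have h1 := hasSum_fc κ hb hg (κ i)
  have h2 : HasSum (fun j => if κ j = κ i then b j else 0) (b i) := by
    have := hasSum_ite_eq i (b i)
    refine hs_congr this fun j => ?_
    by_cases h : j = i
    · simp [h]
    · rw [if_neg (fun h' => h (hκ h')), if_neg h]
  exact h1.unique h2

theorem fc_of_hasSum_zero {κ : ℕ → ℤ} {b : ℕ → ℂ}
    (hb : Summable fun i => ‖b i‖) {g : ℝ → ℂ}
    (hg : ∀ θ, HasSum (fun i => b i * ch (κ i) θ) (g θ)) {k : ℤ} (hk : ∀ i, κ i ≠ k) :
    fc g k = 0 := by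
  have h1 := hasSum_fc κ hb hg k
  have h2 : HasSum (fun j => if κ j = k then b j else 0) 0 := by
    refine hs_congr (hasSum_zero (α := ℂ) (β := ℕ)) fun j => ?_
    rw [if_neg (hk j)]
  exact h1.unique h2

theorem continuous_of_hasSum {κ : ℕ → ℤ} {b : ℕ → ℂ}
    (hb : Summable fun i => ‖b i‖) {g : ℝ → ℂ}
    (hg : ∀ θ, HasSum (fun i => b i * ch (κ i) θ) (g θ)) : Continuous g := by
  have h1 : g = fun θ => ∑' i, b i * ch (κ i) θ := by
    ext θ
    exact (hg θ).tsum_eq.symm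
  rw [h1]
  apply continuous_tsum (u := fun i => ‖b i‖)
  · intro i
    fun_prop
  · exact hb
  · intro i θ
    rw [norm_mul, norm_ch, mul_one]

theorem circle_pow (s : ℝ) (i : ℕ) (θ : ℝ) :
    ((s : ℂ) * Complex.exp (θ * I)) ^ i = (s : ℂ) ^ i * ch i θ := by
  rw [mul_pow, ch_nat]

theorem norm_circle {s : ℝ} (hs : 0 ≤ s) (θ : ℝ) : ‖(s : ℂ) * Complex.exp (θ * I)‖ = s := by
  rw [norm_mul, Complex.norm_exp_ofReal_mul_I, mul_one, Complex.norm_real, Real.norm_eq_abs,
    abs_of_nonneg hs]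

/-- the derivative on circles -/
theorem deriv_circle {f : ℂ → ℂ} (hf : DifferentiableOn ℂ f (Metric.ball 0 1)) {s : ℝ}
    (hs : 0 ≤ s) (hs1 : s < 1) (θ : ℝ) :
    HasSum (fun i : ℕ => (((i : ℂ) + 1) * tc f i * (s : ℂ) ^ i) * ch ((i : ℕ) : ℤ) θ)
      (deriv f ((s : ℂ) * Complex.exp (θ * I))) := by
  have h1 := hasSum_deriv hf (z := (s : ℂ) * Complex.exp (θ * I)) (by rw [norm_circle hs]; exact hs1)
  refine hs_congr h1 fun i => ?_
  rw [circle_pow]
  ring

theorem summable_deriv {f : ℂ → ℂ} (hf : DifferentiableOn ℂ f (Metric.ball 0 1)) {s : ℝ}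
    (hs : 0 ≤ s) (hs1 : s < 1) :
    Summable (fun i : ℕ => ‖((i : ℂ) + 1) * tc f i * (s : ℂ) ^ i‖) := by
  have h1 := hasSum_deriv hf (z := (s : ℂ)) (by
    rw [Complex.norm_real, Real.norm_eq_abs, abs_of_nonneg hs]; exact hs1)
  exact h1.summable.norm

/-- Bessel's inequality on circles -/
theorem bessel_circle {f : ℂ → ℂ} (hf : DifferentiableOn ℂ f (Metric.ball 0 1)) {s : ℝ}
    (hs : 0 ≤ s) (hs1 : s < 1) (N : ℕ) :
    ∑ i ∈ Finset.range N, ((i : ℝ) + 1) ^ 2 * ‖tc f i‖ ^ 2 * s ^ (2 * i) ≤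
      (2 * π)⁻¹ * ∫ θ in (0 : ℝ)..(2 * π), ‖deriv f ((s : ℂ) * Complex.exp (θ * I))‖ ^ 2 := by
  have hc : Continuous fun θ : ℝ => deriv f ((s : ℂ) * Complex.exp (θ * I)) :=
    continuous_of_hasSum (κ := fun i : ℕ => ((i : ℕ) : ℤ)) (summable_deriv hf hs hs1)
      (fun θ => deriv_circle hf hs hs1 θ)
  have h1 := parseval hc
  have h2 := sum_le_hasSum ((Finset.range N).map ⟨fun i : ℕ => (i : ℤ), Nat.cast_injective⟩)
    (fun _ _ => by positivity) h1
  refine le_trans (le_of_eq ?_) h2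
  rw [Finset.sum_map]
  apply Finset.sum_congr rfl
  intro i _
  simp only [Function.Embedding.coeFn_mk]
  rw [fc_of_hasSum (κ := fun i : ℕ => (i : ℤ)) Nat.cast_injective (summable_deriv hf hs hs1)
    (fun θ => deriv_circle hf hs hs1 θ) i]
  rw [norm_mul, norm_mul, norm_pow, Complex.norm_real, Real.norm_eq_abs, abs_of_nonneg hs]
  have h3 : ‖(i : ℂ) + 1‖ = (i : ℝ) + 1 := by
    have : (i : ℂ) + 1 = (((i : ℝ) + 1 : ℝ) : ℂ) := by push_cast; rfl
    rw [this, Complex.norm_real, Real.norm_eq_abs, abs_of_pos (by positivity)]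
  rw [h3]
  ring

end Pool.Agent.MP_3466b8_an
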