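import Pool.Agent.MP_3466b8_an.LimitKey

/-!
The outer function for an absolutely convergent series.
-/

set_option autoImplicit false

open Complex MeasureTheory intervalIntegral Filter Topology
open scoped Real ComplexConjugate

namespace Pool.Agent.MP_3466b8_an

/-- dominated convergence for averages -/
theorem A_tendsto {G : ℕ → ℝ → ℂ} {g : ℝ → ℂ} (hG : ∀ n, Continuous (G n)) {C : ℝ}
    (hC : ∀ n θ, ‖G n θ‖ ≤ C) (hlim : ∀ θ, Tendsto (fun n => G n θ) atTop (𝓝 (g θ))) :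
    Tendsto (fun n => A (G n)) atTop (𝓝 (A g)) := by
  unfold A
  apply Tendsto.const_mul
  apply intervalIntegral.tendsto_integral_filter_of_dominated_convergence (fun _ => C)
  · exact Eventually.of_forall fun n => (hG n).aestronglyMeasurable
  · exact Eventually.of_forall fun n => Eventually.of_forall fun θ _ => hC n θ
  · exact intervalIntegrable_const
  · exact Eventually.of_forall fun θ _ => hlim θ

theorem fc_tendsto {G : ℕ → ℝ → ℂ} {g : ℝ → ℂ} (hG : ∀ n, Continuous (G n)) {C : ℝ}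
    (hC : ∀ n θ, ‖G n θ‖ ≤ C) (hlim : ∀ θ, Tendsto (fun n => G n θ) atTop (𝓝 (g θ))) (k : ℤ) :
    Tendsto (fun n => fc (G n) k) atTop (𝓝 (fc g k)) := by
  unfold fc
  apply A_tendsto (C := C)
  · intro n
    exact (hG n).mul (continuous_ch _)
  · intro n θ
    rw [norm_mul, norm_ch, mul_one]
    exact hC n θ
  · intro θ
    exact (hlim θ).mul_const _

theorem avg_tendsto {G : ℕ → ℝ → ℝ} {g : ℝ → ℝ} (hG : ∀ n, Continuous (G n)) {C : ℝ}
    (hC : ∀ n θ, ‖G n θ‖ ≤ C) (hlim : ∀ θ, Tendsto (fun n => G n θ) atTop (𝓝 (g θ))) :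
    Tendsto (fun n => (2 * π)⁻¹ * ∫ θ in (0 : ℝ)..(2 * π), G n θ) atTop
      (𝓝 ((2 * π)⁻¹ * ∫ θ in (0 : ℝ)..(2 * π), g θ)) := by
  apply Tendsto.const_mul
  apply intervalIntegral.tendsto_integral_filter_of_dominated_convergence (fun _ => C)
  · exact Eventually.of_forall fun n => (hG n).aestronglyMeasurable
  · exact Eventually.of_forall fun n => Eventually.of_forall fun θ _ => hC n θ
  · exact intervalIntegrable_const
  · exact Eventually.of_forall fun θ _ => hlim θ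

section
variable {c : ℕ → ℂ}

/-- the sum of the series -/
noncomputable def Fs (c : ℕ → ℂ) (θ : ℝ) : ℂ := ∑' i : ℕ, c i * ch ((i : ℤ) + 1) θ

theorem hasSum_Fs (hc : Summable fun i => ‖c i‖) (θ : ℝ) :
    HasSum (fun i : ℕ => c i * ch ((i : ℤ) + 1) θ) (Fs c θ) := by
  apply Summable.hasSum
  refine Summable.of_norm ?_
  refine hc.congr fun i => ?_
  rw [norm_mul, norm_ch, mul_one]

theorem continuous_Fs (hc : Summable fun i => ‖c i‖) : Continuous (Fs c) :=
  continuous_of_hasSum (κ := fun i : ℕ => (i : ℤ) + 1) hc (fun θ => hasSum_Fs hc θ)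

theorem periodic_Fs (c : ℕ → ℂ) : Function.Periodic (Fs c) (2 * π) := by
  intro θ
  unfold Fs
  congr 1
  ext i
  rw [ch_periodic]

theorem norm_Fs_le (hc : Summable fun i => ‖c i‖) (θ : ℝ) : ‖Fs c θ‖ ≤ ∑' i, ‖c i‖ := by
  have h1 : Summable fun i : ℕ => ‖c i * ch ((i : ℤ) + 1) θ‖ := by
    refine hc.congr fun i => ?_
    rw [norm_mul, norm_ch, mul_one]
  unfold Fs
  refine (norm_tsum_le_tsum_norm h1).trans (le_of_eq ?_)
  congr 1
  ext i
  rw [norm_mul, norm_ch, mul_one]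

/-- truncations -/
noncomputable def tr (c : ℕ → ℂ) (n : ℕ) : Fin n → ℂ := fun i => c i

theorem tp_tr (c : ℕ → ℂ) (n : ℕ) (θ : ℝ) :
    tp (tr c n) θ = ∑ i ∈ Finset.range n, c i * ch ((i : ℤ) + 1) θ := by
  unfold tp tr
  rw [Finset.sum_range]

theorem sum_tr_le (hc : Summable fun i => ‖c i‖) (n : ℕ) :
    ∑ i : Fin n, ‖tr c n i‖ ≤ ∑' i, ‖c i‖ := by
  unfold tr
  have := hc.sum_le_tsum (Finset.range n) (fun _ _ => norm_nonneg _)
  rw [Finset.sum_range] at this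
  exact this

theorem norm_tp_le (hc : Summable fun i => ‖c i‖) (n : ℕ) (θ : ℝ) :
    ‖tp (tr c n) θ‖ ≤ ∑' i, ‖c i‖ := by
  refine le_trans ?_ (sum_tr_le hc n)
  unfold tp
  refine (norm_sum_le _ _).trans (Finset.sum_le_sum fun i _ => ?_)
  rw [norm_mul, norm_ch, mul_one]

theorem tendsto_tp (hc : Summable fun i => ‖c i‖) (θ : ℝ) :
    Tendsto (fun n => tp (tr c n) θ) atTop (𝓝 (Fs c θ)) := by
  simp only [tp_tr]
  exact (hasSum_Fs hc θ).tendsto_sum_nat

/-- weights -/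
noncomputable def Wt (i j : ℕ) : ℂ := if j < i then 1 else if i = j then 1 / 2 else 0

theorem norm_Wt_le (i j : ℕ) : ‖Wt i j‖ ≤ 1 := by
  unfold Wt
  split_ifs <;> norm_num

/-- the terms of the analytic completion -/
noncomputable def wt (c : ℕ → ℂ) (p : ℕ × ℕ) (θ : ℝ) : ℂ :=
  Wt p.1 p.2 * (c p.1 * conj (c p.2)) * ch ((p.1 : ℤ) - p.2) θ

theorem norm_wt_le (c : ℕ → ℂ) (p : ℕ × ℕ) (θ : ℝ) : ‖wt c p θ‖ ≤ ‖c p.1‖ * ‖c p.2‖ := by
  unfold wt
  rw [norm_mul, norm_mul, norm_mul, norm_ch, mul_one, RCLike.norm_conj]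
  have h1 := norm_Wt_le p.1 p.2
  have h2 : 0 ≤ ‖c p.1‖ * ‖c p.2‖ := by positivity
  nlinarith

theorem summable_prod (hc : Summable fun i => ‖c i‖) :
    Summable fun p : ℕ × ℕ => ‖c p.1‖ * ‖c p.2‖ :=
  hc.mul_of_nonneg hc (fun _ => norm_nonneg _) (fun _ => norm_nonneg _)

/-- the analytic completion -/
noncomputable def Ps (c : ℕ → ℂ) (θ : ℝ) : ℂ := ∑' p : ℕ × ℕ, wt c p θ

theorem hasSum_Ps (hc : Summable fun i => ‖c i‖) (θ : ℝ) :
    HasSum (fun p : ℕ × ℕ => wt c p θ) (Ps c θ) := by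
  apply Summable.hasSum
  exact Summable.of_norm_bounded (summable_prod hc) (fun p => norm_wt_le c p θ)

theorem continuous_Ps (hc : Summable fun i => ‖c i‖) : Continuous (Ps c) := by
  unfold Ps
  apply continuous_tsum (u := fun p : ℕ × ℕ => ‖c p.1‖ * ‖c p.2‖)
  · intro p
    unfold wt
    fun_prop
  · exact summable_prod hc
  · intro p θ
    exact norm_wt_le c p θ

theorem periodic_Ps (c : ℕ → ℂ) : Function.Periodic (Ps c) (2 * π) := by
  intro θ
  unfold Ps wt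
  congr 1
  ext p
  rw [ch_periodic]

theorem psi_tr (c : ℕ → ℂ) (n : ℕ) (θ : ℝ) :
    psi (tr c n) (Complex.exp (θ * I)) = ∑ p ∈ Finset.range n ×ˢ Finset.range n, wt c p θ := by
  rw [psi_circle, Finset.sum_product, Finset.sum_range, Finset.mul_sum, ← Finset.sum_add_distrib]
  apply Finset.sum_congr rfl
  intro i _
  rw [Finset.sum_range]
  have h1 : (1 / 2 : ℂ) * (tr c n i * conj (tr c n i)) =
      ∑ j : Fin n, if i = j then (1 / 2 : ℂ) * (tr c n i * conj (tr c n j)) else 0 := by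
    rw [Finset.sum_ite_eq]
    simp
  rw [h1, ← Finset.sum_add_distrib]
  apply Finset.sum_congr rfl
  intro j _
  unfold wt Wt tr
  simp only [Fin.lt_def, Fin.ext_iff]
  rcases lt_trichotomy (i : ℕ) (j : ℕ) with h | h | h
  · rw [if_neg h.ne, if_neg (by omega), if_neg (by omega), if_neg h.ne]
    ring
  · rw [if_pos h, if_neg (by omega), if_neg (by omega), if_pos h, h]
    simp
  · rw [if_neg (by omega), if_pos h, if_pos h]
    ring

theorem tendsto_psi (hc : Summable fun i => ‖c i‖) (θ : ℝ) :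
    Tendsto (fun n => psi (tr c n) (Complex.exp (θ * I))) atTop (𝓝 (Ps c θ)) := by
  simp only [psi_tr]
  have h1 : Tendsto (fun n : ℕ => Finset.range n ×ˢ Finset.range n) atTop atTop := by
    apply tendsto_atTop_finset_of_monotone
    · intro m n hmn
      exact Finset.product_subset_product (Finset.range_mono hmn) (Finset.range_mono hmn)
    · intro p
      refine ⟨max p.1 p.2 + 1, ?_⟩
      rw [Finset.mem_product, Finset.mem_range, Finset.mem_range]
      omega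
  exact (hasSum_Ps hc θ).comp h1

theorem norm_psi_le (hc : Summable fun i => ‖c i‖) (n : ℕ) (θ : ℝ) :
    ‖psi (tr c n) (Complex.exp (θ * I))‖ ≤ (∑' i, ‖c i‖) ^ 2 := by
  rw [psi_tr]
  refine (norm_sum_le _ _).trans ?_
  refine (Finset.sum_le_sum fun p _ => norm_wt_le c p θ).trans ?_
  rw [Finset.sum_product]
  simp only
  rw [← Finset.sum_mul_sum, ← sq]
  have h1 := hc.sum_le_tsum (Finset.range n) (fun _ _ => norm_nonneg _)
  have h2 : 0 ≤ ∑ i ∈ Finset.range n, ‖c i‖ := Finset.sum_nonneg fun _ _ => norm_nonneg _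
  gcongr

/-- the outer function -/
noncomputable def hs (c : ℕ → ℂ) (θ : ℝ) : ℂ := Complex.exp (Ps c θ)

theorem tendsto_hh (hc : Summable fun i => ‖c i‖) (θ : ℝ) :
    Tendsto (fun n => hh (tr c n) θ) atTop (𝓝 (hs c θ)) :=
  (Complex.continuous_exp.tendsto _).comp (tendsto_psi hc θ)

theorem norm_hh_le (hc : Summable fun i => ‖c i‖) (n : ℕ) (θ : ℝ) :
    ‖hh (tr c n) θ‖ ≤ Real.exp ((∑' i, ‖c i‖) ^ 2) := by
  unfold hh Hz
  rw [Complex.norm_exp]
  apply Real.exp_le_exp.mpr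
  exact (Complex.re_le_norm _).trans (norm_psi_le hc n θ)

theorem rho_tr_le (hc : Summable fun i => ‖c i‖) (n : ℕ) (θ : ℝ) :
    rho (tr c n) θ ≤ Real.exp ((∑' i, ‖c i‖) ^ 2) := by
  unfold rho
  apply Real.exp_le_exp.mpr
  have := norm_tp_le hc n θ
  gcongr

theorem tendsto_rho (hc : Summable fun i => ‖c i‖) (θ : ℝ) :
    Tendsto (fun n => rho (tr c n) θ) atTop (𝓝 (Real.exp (‖Fs c θ‖ ^ 2))) := by
  unfold rho
  have hcont : Continuous fun z : ℂ => Real.exp (‖z‖ ^ 2) := by fun_prop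
  exact (hcont.tendsto _).comp (tendsto_tp hc θ)

/-- the conclusion: the outer function is constant -/
theorem outer_const (hc : Summable fun i => ‖c i‖) {lam : ℝ} (hlam : 0 < lam)
    (hEL : ∀ i : ℕ, fc (fun θ => ((Real.exp (‖Fs c θ‖ ^ 2) : ℝ) : ℂ) * Fs c θ) ((i : ℤ) + 1)
      = (lam : ℂ) * ((i : ℝ) + 1) * c i)
    (hmass : (2 * π)⁻¹ * ∫ θ in (0 : ℝ)..(2 * π), Real.exp (‖Fs c θ‖ ^ 2) * ‖Fs c θ‖ ^ 2 = lam)
    (m : ℕ) : fc (hs c) ((m : ℤ) + 1) = 0 := by
  have hB0 : 0 ≤ ∑' i, ‖c i‖ := tsum_nonneg fun _ => norm_nonneg _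
  set B := ∑' i, ‖c i‖ with hB
  have hcF := continuous_Fs hc
  have hch : Continuous (hs c) := by
    unfold hs
    exact (continuous_Ps hc).cexp
  have hfch : ∀ k : ℤ, Tendsto (fun n => fc (hh (tr c n)) k) atTop (𝓝 (fc (hs c) k)) := fun k =>
    fc_tendsto (fun n => continuous_hh _) (norm_hh_le hc) (tendsto_hh hc) k
  have hfchF : ∀ k : ℤ, Tendsto (fun n => fc (fun θ => hh (tr c n) θ * tp (tr c n) θ) k) atTop
      (𝓝 (fc (fun θ => hs c θ * Fs c θ) k)) := fun k => by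
    refine fc_tendsto (C := Real.exp (B ^ 2) * B) (fun n => ?_) (fun n θ => ?_) (fun θ => ?_) k
    · fun_prop
    · rw [norm_mul]
      exact mul_le_mul (norm_hh_le hc n θ) (norm_tp_le hc n θ) (norm_nonneg _) (Real.exp_pos _).le
    · exact (tendsto_hh hc θ).mul (tendsto_tp hc θ)
  have hrF : ∀ θ, Tendsto (fun n => (rho (tr c n) θ : ℂ) * tp (tr c n) θ) atTop
      (𝓝 (((Real.exp (‖Fs c θ‖ ^ 2) : ℝ) : ℂ) * Fs c θ)) := fun θ => by
    have h1 := (Complex.continuous_ofReal.tendsto _).comp (tendsto_rho hc θ)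
    exact h1.mul (tendsto_tp hc θ)
  have hrFb : ∀ n θ, ‖(rho (tr c n) θ : ℂ) * tp (tr c n) θ‖ ≤ Real.exp (B ^ 2) * B := by
    intro n θ
    rw [norm_mul, Complex.norm_real, Real.norm_eq_abs,
      abs_of_pos (show 0 < rho (tr c n) θ from Real.exp_pos _)]
    exact mul_le_mul (rho_tr_le hc n θ) (norm_tp_le hc n θ) (norm_nonneg _) (Real.exp_pos _).le
  have hfcu : ∀ k : ℤ, Tendsto (fun n => uc (tr c n) k) atTop
      (𝓝 (fc (fun θ => ((Real.exp (‖Fs c θ‖ ^ 2) : ℝ) : ℂ) * Fs c θ) k)) := fun k =>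
    fc_tendsto (C := Real.exp (B ^ 2) * B) (fun n => by fun_prop) hrFb hrF k
  -- the mean square of `rho F`
  have hE : Tendsto (fun n => (2 * π)⁻¹ * ∫ θ in (0 : ℝ)..(2 * π),
      ‖(rho (tr c n) θ : ℂ) * tp (tr c n) θ‖ ^ 2) atTop
      (𝓝 ((2 * π)⁻¹ * ∫ θ in (0 : ℝ)..(2 * π),
        ‖((Real.exp (‖Fs c θ‖ ^ 2) : ℝ) : ℂ) * Fs c θ‖ ^ 2)) := by
    refine avg_tendsto (C := (Real.exp (B ^ 2) * B) ^ 2) (fun n => ?_) (fun n θ => ?_) (fun θ => ?_)
    · fun_prop
    · rw [Real.norm_eq_abs, abs_of_nonneg (by positivity)]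
      have := hrFb n θ
      gcongr
    · exact ((hrF θ).norm).pow 2
  -- the defect
  set Dn : ℕ → ℝ := fun n => (2 * π)⁻¹ * ∫ θ in (0 : ℝ)..(2 * π),
      ‖((Real.exp (‖Fs c θ‖ ^ 2) : ℝ) : ℂ) * Fs c θ - (rho (tr c n) θ : ℂ) * tp (tr c n) θ‖ ^ 2
    with hDn
  have hbound : ∀ θ, ‖((Real.exp (‖Fs c θ‖ ^ 2) : ℝ) : ℂ) * Fs c θ‖ ≤ Real.exp (B ^ 2) * B := by
    intro θ
    have h1 := norm_Fs_le hc θ
    rw [norm_mul, Complex.norm_real, Real.norm_eq_abs, abs_of_pos (Real.exp_pos _)]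
    refine mul_le_mul ?_ h1 (norm_nonneg _) (Real.exp_pos _).le
    apply Real.exp_le_exp.mpr
    gcongr
  have hD : Tendsto Dn atTop (𝓝 0) := by
    have h1 : Tendsto Dn atTop (𝓝 ((2 * π)⁻¹ * ∫ θ in (0 : ℝ)..(2 * π), (0 : ℝ))) := by
      refine avg_tendsto (C := (Real.exp (B ^ 2) * B + Real.exp (B ^ 2) * B) ^ 2)
        (fun n => ?_) (fun n θ => ?_) (fun θ => ?_)
      · fun_prop
      · rw [Real.norm_eq_abs, abs_of_nonneg (by positivity)]
        have h2 := hrFb n θ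
        have h3 := hbound θ
        have h4 := norm_sub_le (((Real.exp (‖Fs c θ‖ ^ 2) : ℝ) : ℂ) * Fs c θ)
          ((rho (tr c n) θ : ℂ) * tp (tr c n) θ)
        have h5 := h4.trans (add_le_add h3 h2)
        exact pow_le_pow_left₀ (norm_nonneg _) h5 2
      · have h2 := (((hrF θ).const_sub (((Real.exp (‖Fs c θ‖ ^ 2) : ℝ) : ℂ) * Fs c θ)).norm).pow 2
        simpa using h2
    simpa using h1
  have hDle : ∀ n, ∑ i : Fin n, ‖(lam : ℂ) * ((i : ℝ) + 1) * tr c n i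
      - uc (tr c n) ((i : ℤ) + 1)‖ ^ 2 ≤ Dn n := by
    intro n
    have h1 := parseval (g := fun θ => ((Real.exp (‖Fs c θ‖ ^ 2) : ℝ) : ℂ) * Fs c θ -
      (rho (tr c n) θ : ℂ) * tp (tr c n) θ) (by fun_prop)
    have hinj : Function.Injective (fun i : Fin n => (i : ℤ) + 1) := by
      intro i j hij
      simp only at hij
      ext
      omega
    have h2 := sum_le_hasSum (Finset.univ.map ⟨fun i : Fin n => (i : ℤ) + 1, hinj⟩)
      (fun _ _ => by positivity) h1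
    rw [Finset.sum_map] at h2
    refine le_trans (le_of_eq ?_) h2
    apply Finset.sum_congr rfl
    intro i _
    simp only [Function.Embedding.coeFn_mk]
    have h3 := fc_sub' (g₁ := fun θ => ((Real.exp (‖Fs c θ‖ ^ 2) : ℝ) : ℂ) * Fs c θ)
      (g₂ := fun θ => (rho (tr c n) θ : ℂ) * tp (tr c n) θ) (by fun_prop) (by fun_prop)
      ((i : ℤ) + 1)
    rw [h3, hEL]
    rfl
  have hR : Tendsto (fun n => Rq (tr c n)) atTop (𝓝 ((2 * π)⁻¹ * ∫ θ in (0 : ℝ)..(2 * π),
      ‖((Real.exp (‖Fs c θ‖ ^ 2) : ℝ) : ℂ)‖ ^ 2)) := by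
    refine avg_tendsto (C := (Real.exp (B ^ 2)) ^ 2) (fun n => ?_) (fun n θ => ?_) (fun θ => ?_)
    · fun_prop
    · rw [Real.norm_eq_abs, abs_of_nonneg (by positivity), Complex.norm_real, Real.norm_eq_abs,
        abs_of_pos (show 0 < rho (tr c n) θ from Real.exp_pos _)]
      exact pow_le_pow_left₀ (Real.exp_pos _).le (rho_tr_le hc n θ) 2
    · exact (((Complex.continuous_ofReal.tendsto _).comp (tendsto_rho hc θ)).norm).pow 2
  have hS : Tendsto (fun n => ∑ i : Fin n, ‖tr c n i‖) atTop (𝓝 B) := by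
    have h1 := hc.hasSum.tendsto_sum_nat
    refine h1.congr fun n => ?_
    rw [Finset.sum_range]
    rfl
  have herr : Tendsto (fun n => Real.sqrt (Dn n) *
      Real.sqrt ((∑ i : Fin n, ‖tr c n i‖) ^ 2 * Rq (tr c n))) atTop (𝓝 0) := by
    have h1 := hD.sqrt.mul (((hS.pow 2).mul hR).sqrt)
    simpa using h1
  refine rigid hch hcF ?_ (periodic_Fs c) ?_ ?_ ?_ ?_ hlam hmass ?_ m
  · intro θ
    unfold hs
    rw [periodic_Ps]
  · -- nonvanishing at zero
    intro h0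
    have h1 : Tendsto (fun n => ‖fc (hh (tr c n)) 0‖) atTop (𝓝 ‖fc (hs c) 0‖) := (hfch 0).norm
    rw [h0, norm_zero] at h1
    have h2 : ∀ n, 1 ≤ ‖fc (hh (tr c n)) 0‖ := by
      intro n
      rw [fc_hh_zero, Complex.norm_exp]
      apply Real.one_le_exp
      have h3 : (1 / 2 : ℂ) * ∑ i : Fin n, (tr c n i * conj (tr c n i))
          = (((1 / 2) * ∑ i : Fin n, ‖tr c n i‖ ^ 2 : ℝ) : ℂ) := by
        push_cast
        congr 1
        apply Finset.sum_congr rfl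
        intro i _
        rw [Complex.mul_conj, Complex.normSq_eq_norm_sq]
        push_cast
        rfl
      rw [h3, Complex.ofReal_re]
      positivity
    have h3 := ge_of_tendsto' h1 h2
    norm_num at h3
  · intro k hk
    have h1 := hfch k
    have h2 : (fun n => fc (hh (tr c n)) k) = fun _ => 0 := by
      ext n
      exact fc_hh_neg _ hk
    rw [h2] at h1
    exact (tendsto_nhds_unique h1 tendsto_const_nhds)
  · intro θ
    have h1 := (tendsto_hh hc θ).mul ((Complex.continuous_conj.tendsto _).comp (tendsto_hh hc θ))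
    have h2 : (fun n => hh (tr c n) θ * (conj ∘ fun n => hh (tr c n) θ) n)
        = fun n => (rho (tr c n) θ : ℂ) := by
      ext n
      exact hh_mul_conj _ θ
    rw [h2] at h1
    exact tendsto_nhds_unique h1 ((Complex.continuous_ofReal.tendsto _).comp (tendsto_rho hc θ))
  · intro k hk
    have h1 := hfchF k
    have h2 : (fun n => fc (fun θ => hh (tr c n) θ * tp (tr c n) θ) k) = fun _ => 0 := by
      ext n
      exact fc_hf_nonpos _ hk
    rw [h2] at h1
    exact (tendsto_nhds_unique h1 tendsto_const_nhds)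
  · intro N
    have hcu : Continuous fun θ => ((Real.exp (‖Fs c θ‖ ^ 2) : ℝ) : ℂ) * Fs c θ := by fun_prop
    have hsplit := hasSum_split (parseval hcu)
    -- for each `L`
    have hL : ∀ L : ℕ, lam * ∑ m ∈ Finset.range N, (m : ℝ) * ‖fc (hs c) m‖ ^ 2 ≤
        (2 * π)⁻¹ * (∫ θ in (0 : ℝ)..(2 * π), ‖((Real.exp (‖Fs c θ‖ ^ 2) : ℝ) : ℂ) * Fs c θ‖ ^ 2)
        - ∑ i ∈ Finset.range L,
          ‖fc (fun θ => ((Real.exp (‖Fs c θ‖ ^ 2) : ℝ) : ℂ) * Fs c θ) ((i : ℤ) + 1)‖ ^ 2 := by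
      intro L
      have h1 : Tendsto (fun n => lam * ∑ m ∈ Finset.range N, (m : ℝ) * bq (tr c n) m) atTop
          (𝓝 (lam * ∑ m ∈ Finset.range N, (m : ℝ) * ‖fc (hs c) m‖ ^ 2)) := by
        apply Tendsto.const_mul
        apply tendsto_finsetSum
        intro m _
        exact ((hfch m).norm.pow 2).const_mul _
      have h2 : Tendsto (fun n => (2 * π)⁻¹ * (∫ θ in (0 : ℝ)..(2 * π),
          ‖(rho (tr c n) θ : ℂ) * tp (tr c n) θ‖ ^ 2)
          - ∑ i ∈ Finset.range L, ‖uc (tr c n) ((i : ℤ) + 1)‖ ^ 2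
          + Real.sqrt (Dn n) * Real.sqrt ((∑ i : Fin n, ‖tr c n i‖) ^ 2 * Rq (tr c n))) atTop
          (𝓝 ((2 * π)⁻¹ * (∫ θ in (0 : ℝ)..(2 * π),
            ‖((Real.exp (‖Fs c θ‖ ^ 2) : ℝ) : ℂ) * Fs c θ‖ ^ 2)
          - ∑ i ∈ Finset.range L,
            ‖fc (fun θ => ((Real.exp (‖Fs c θ‖ ^ 2) : ℝ) : ℂ) * Fs c θ) ((i : ℤ) + 1)‖ ^ 2
          + 0)) := by
        refine (hE.sub ?_).add herr
        apply tendsto_finsetSum
        intro i _
        exact (hfcu _).norm.pow 2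
      rw [add_zero] at h2
      refine le_of_tendsto_of_tendsto' h1 h2 fun n => ?_
      refine le_trans ?_ (Kq_le (tr c n) lam L (hDle n))
      apply mul_le_mul_of_nonneg_left _ hlam.le
      exact sum_le_hasSum _ (fun m _ => by unfold bq; positivity) (hasSum_K_nat (tr c n))
    have hinj : Function.Injective (fun k : ℕ => (k : ℤ) + 1) := by
      intro i j hij
      simp only at hij
      omega
    have h3 := ((parseval hcu).summable.comp_injective hinj).hasSum.tendsto_sum_nat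
    have h4 := h3.const_sub ((2 * π)⁻¹ * (∫ θ in (0 : ℝ)..(2 * π),
      ‖((Real.exp (‖Fs c θ‖ ^ 2) : ℝ) : ℂ) * Fs c θ‖ ^ 2))
    have h5 := ge_of_tendsto' h4 hL
    simp only [Function.comp_def] at h5
    linarith

end

end Pool.Agent.MP_3466b8_an
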