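import Pool.Agent.MP_3466b8_an.Main
import Pool.Agent.MP_3466b8_an.OuterLimit

/-!
Extremal functions.
-/

set_option autoImplicit false

open Complex MeasureTheory intervalIntegral Filter Topology
open scoped Real ComplexConjugate ENNReal

namespace Pool.Agent.MP_3466b8_an

/-- `G` is the `L²` boundary function of the series with coefficients `d`. -/
structure IsB (d : ℕ → ℂ) (G : ℝ → ℂ) : Prop where
  sm : Summable fun i : ℕ => ((i : ℝ) + 1) * ‖d i‖ ^ 2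
  mem : MemLp G 2 mu
  lim : Tendsto (fun n => eLpNorm (sn d n - G) 2 mu) atTop (𝓝 0)

/-- the Dirichlet norm squared -/
noncomputable def sg (d : ℕ → ℂ) : ℝ := ∑' i : ℕ, ((i : ℝ) + 1) * ‖d i‖ ^ 2

theorem IsB.smul {d : ℕ → ℂ} {G : ℝ → ℂ} (h : IsB d G) (s : ℂ) :
    IsB (fun i => s * d i) (fun θ => s * G θ) := by
  refine ⟨?_, ?_, ?_⟩
  · have := h.sm.mul_left (‖s‖ ^ 2)
    refine this.congr fun i => ?_
    rw [norm_mul]
    ring
  · exact h.mem.const_mul s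
  · have h1 : ∀ n, eLpNorm (sn (fun i => s * d i) n - fun θ => s * G θ) 2 mu
        = ‖s‖ₑ * eLpNorm (sn d n - G) 2 mu := by
      intro n
      rw [← eLpNorm_const_smul]
      congr 1
      ext θ
      simp only [Pi.sub_apply, Pi.smul_apply, smul_eq_mul]
      unfold sn
      rw [mul_sub, Finset.mul_sum]
      congr 1
      apply Finset.sum_congr rfl
      intro i _
      ring
    simp only [h1]
    have h2 := ENNReal.Tendsto.const_mul (a := ‖s‖ₑ) h.lim (Or.inr (by simp))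
    simpa using h2

theorem sg_smul (d : ℕ → ℂ) (s : ℂ) : sg (fun i => s * d i) = ‖s‖ ^ 2 * sg d := by
  unfold sg
  rw [← tsum_mul_left]
  congr 1
  ext i
  rw [norm_mul]
  ring

theorem IsB.lint {d : ℕ → ℂ} {G : ℝ → ℂ} (h : IsB d G) (h1 : sg d ≤ 1) :
    ∫⁻ θ, ENNReal.ofReal (Real.exp (‖G θ‖ ^ 2)) ∂mu ≤ ENNReal.ofReal (2 * π * Real.exp (sg d)) :=
  lint_bdry h.sm h1 h.mem h.lim

/-- adding a finite sum -/
theorem IsB.add_single {d : ℕ → ℂ} {G : ℝ → ℂ} (h : IsB d G) (j : ℕ) (t : ℂ) :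
    IsB (fun i => d i + if i = j then t else 0) (fun θ => G θ + t * ch ((j : ℤ) + 1) θ) := by
  refine ⟨?_, ?_, ?_⟩
  · have h2 : Summable (fun i : ℕ => ((i : ℝ) + 1) * ‖(if i = j then t else 0 : ℂ)‖ ^ 2) := by
      apply summable_of_ne_finset_zero (s := {j})
      intro i hi
      rw [if_neg (by simpa using hi)]
      simp
    refine Summable.of_nonneg_of_le (fun i => by positivity) (fun i => ?_)
      ((h.sm.add h2).mul_left 2)
    have h3 := norm_add_le (d i) (if i = j then t else 0 : ℂ)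
    have h4 : ‖d i + (if i = j then t else 0 : ℂ)‖ ^ 2 ≤ (‖d i‖ + ‖(if i = j then t else 0 : ℂ)‖) ^ 2 :=
      pow_le_pow_left₀ (norm_nonneg _) h3 2
    have h5 : (‖d i‖ + ‖(if i = j then t else 0 : ℂ)‖) ^ 2 ≤
        2 * (‖d i‖ ^ 2 + ‖(if i = j then t else 0 : ℂ)‖ ^ 2) := by
      nlinarith [sq_nonneg (‖d i‖ - ‖(if i = j then t else 0 : ℂ)‖)]
    have h6 : (0 : ℝ) ≤ (i : ℝ) + 1 := by positivity
    calc ((i : ℝ) + 1) * ‖d i + (if i = j then t else 0 : ℂ)‖ ^ 2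
        ≤ ((i : ℝ) + 1) * (2 * (‖d i‖ ^ 2 + ‖(if i = j then t else 0 : ℂ)‖ ^ 2)) :=
          mul_le_mul_of_nonneg_left (h4.trans h5) h6
      _ = _ := by ring
  · exact h.mem.add (memLp_cont (by fun_prop) 2)
  · refine h.lim.congr' ?_
    filter_upwards [eventually_gt_atTop j] with n hn
    congr 1
    ext θ
    simp only [Pi.sub_apply]
    unfold sn
    have h1 : ∑ i ∈ Finset.range n, (d i + if i = j then t else 0) * ch ((i : ℤ) + 1) θ
        = ∑ i ∈ Finset.range n, d i * ch ((i : ℤ) + 1) θ + t * ch ((j : ℤ) + 1) θ := by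
      simp only [add_mul, ite_mul, zero_mul]
      rw [Finset.sum_add_distrib, Finset.sum_ite_eq' (Finset.range n) j,
        if_pos (Finset.mem_range.mpr hn)]
    rw [h1]
    ring

theorem sg_add_single {d : ℕ → ℂ} (h : Summable fun i : ℕ => ((i : ℝ) + 1) * ‖d i‖ ^ 2) (j : ℕ)
    (t : ℂ) : sg (fun i => d i + if i = j then t else 0)
      = sg d + ((j : ℝ) + 1) * (2 * (conj t * d j).re + ‖t‖ ^ 2) := by
  unfold sg
  have h1 : HasSum (fun i : ℕ => if i = j then ((j : ℝ) + 1) * (2 * (conj t * d j).re + ‖t‖ ^ 2)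
      else 0) (((j : ℝ) + 1) * (2 * (conj t * d j).re + ‖t‖ ^ 2)) := hasSum_ite_eq _ _
  have h2 := h.hasSum.add h1
  rw [← h2.tsum_eq]
  congr 1
  ext i
  beta_reduce
  by_cases hi : i = j
  · subst hi
    rw [if_pos rfl, if_pos rfl]
    have h3 := Complex.normSq_add (d i) t
    rw [Complex.normSq_eq_norm_sq, Complex.normSq_eq_norm_sq, Complex.normSq_eq_norm_sq] at h3
    rw [h3, mul_comm (conj t)]
    ring
  · rw [if_neg hi, if_neg hi]
    simp

/-- exponential integrability of all orders -/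
theorem IsB.exp_lt_top {d : ℕ → ℂ} {G : ℝ → ℂ} (h : IsB d G) {p : ℝ} (hp : 0 < p) :
    ∫⁻ θ, ENNReal.ofReal (Real.exp (p * ‖G θ‖ ^ 2)) ∂mu < ⊤ := by
  -- a small tail
  have htail := tendsto_sum_nat_add (fun i : ℕ => ((i : ℝ) + 1) * ‖d i‖ ^ 2)
  have hev : ∀ᶠ N : ℕ in atTop, ∑' i : ℕ, (((i + N : ℕ) : ℝ) + 1) * ‖d (i + N)‖ ^ 2 < 1 / (2 * p) :=
    htail.eventually_lt_const (by positivity)
  obtain ⟨N, hN⟩ := hev.exists
  set s : ℝ := Real.sqrt (2 * p) with hs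
  have hs2 : s ^ 2 = 2 * p := Real.sq_sqrt (by positivity)
  -- the tail function
  set e : ℕ → ℂ := fun i => if i < N then 0 else d i with he
  have hB : IsB e (fun θ => G θ - sn d N θ) := by
    refine ⟨?_, h.mem.sub (memLp_cont (continuous_sn d N) 2), ?_⟩
    · refine Summable.of_nonneg_of_le (fun i => by positivity) (fun i => ?_) h.sm
      simp only [he]
      split_ifs
      · rw [norm_zero]
        have : 0 ≤ ((i : ℝ) + 1) * ‖d i‖ ^ 2 := by positivity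
        simpa using this
      · exact le_refl _
    · refine h.lim.congr' ?_
      filter_upwards [eventually_ge_atTop N] with n hn
      congr 1
      ext θ
      simp only [Pi.sub_apply]
      have h1 : sn e n θ = sn d n θ - sn d N θ := by
        unfold sn
        rw [← Finset.sum_range_add_sum_Ico _ hn, ← Finset.sum_range_add_sum_Ico _ hn]
        have h2 : ∑ i ∈ Finset.range N, e i * ch ((i : ℤ) + 1) θ = 0 := by
          apply Finset.sum_eq_zero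
          intro i hi
          simp only [he]
          rw [if_pos (Finset.mem_range.mp hi), zero_mul]
        have h3 : ∑ i ∈ Finset.Ico N n, e i * ch ((i : ℤ) + 1) θ
            = ∑ i ∈ Finset.Ico N n, d i * ch ((i : ℤ) + 1) θ := by
          apply Finset.sum_congr rfl
          intro i hi
          simp only [he]
          rw [if_neg (by have := (Finset.mem_Ico.mp hi).1; omega)]
        rw [h2, h3]
        ring
      rw [h1]
      ring
  have hsg : sg e < 1 / (2 * p) := by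
    have h1 : sg e = ∑' i : ℕ, (((i + N : ℕ) : ℝ) + 1) * ‖d (i + N)‖ ^ 2 := by
      unfold sg
      rw [← hB.sm.sum_add_tsum_nat_add N]
      have h2 : ∑ i ∈ Finset.range N, ((i : ℝ) + 1) * ‖e i‖ ^ 2 = 0 := by
        apply Finset.sum_eq_zero
        intro i hi
        simp only [he]
        rw [if_pos (Finset.mem_range.mp hi)]
        simp
      rw [h2, zero_add]
      congr 1
      ext i
      simp only [he]
      rw [if_neg (by omega)]
    rw [h1]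
    exact hN
  have h2 := (hB.smul (s : ℂ)).lint (by
    rw [sg_smul, Complex.norm_real, Real.norm_eq_abs, sq_abs, hs2]
    have := mul_lt_mul_of_pos_left hsg (show 0 < 2 * p by positivity)
    have h3 : 2 * p * (1 / (2 * p)) = 1 := by field_simp
    linarith)
  -- the polynomial part is bounded
  obtain ⟨C, hC⟩ : ∃ C : ℝ, ∀ θ, ‖sn d N θ‖ ≤ C := by
    refine ⟨∑ i ∈ Finset.range N, ‖d i‖, fun θ => ?_⟩
    unfold sn
    refine (norm_sum_le _ _).trans (Finset.sum_le_sum fun i _ => ?_)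
    rw [norm_mul, norm_ch, mul_one]
  have hpt : ∀ θ, ENNReal.ofReal (Real.exp (p * ‖G θ‖ ^ 2)) ≤
      ENNReal.ofReal (Real.exp (2 * p * C ^ 2)) *
        ENNReal.ofReal (Real.exp (‖(s : ℂ) * (G θ - sn d N θ)‖ ^ 2)) := by
    intro θ
    rw [← ENNReal.ofReal_mul (Real.exp_pos _).le, ← Real.exp_add]
    apply ENNReal.ofReal_le_ofReal
    apply Real.exp_le_exp.mpr
    rw [norm_mul, Complex.norm_real, Real.norm_eq_abs, mul_pow, sq_abs, hs2]
    have h3 : ‖G θ‖ ≤ ‖G θ - sn d N θ‖ + ‖sn d N θ‖ := by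
      have := norm_add_le (G θ - sn d N θ) (sn d N θ)
      simpa using this
    have h4 : ‖G θ‖ ^ 2 ≤ (‖G θ - sn d N θ‖ + C) ^ 2 :=
      pow_le_pow_left₀ (norm_nonneg _) (h3.trans (by linarith [hC θ])) 2
    have h5 : (‖G θ - sn d N θ‖ + C) ^ 2 ≤ 2 * ‖G θ - sn d N θ‖ ^ 2 + 2 * C ^ 2 := by
      nlinarith [sq_nonneg (‖G θ - sn d N θ‖ - C)]
    have h6 := mul_le_mul_of_nonneg_left (h4.trans h5) hp.le
    linarith
  calc _ ≤ ∫⁻ θ, ENNReal.ofReal (Real.exp (2 * p * C ^ 2)) *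
        ENNReal.ofReal (Real.exp (‖(s : ℂ) * (G θ - sn d N θ)‖ ^ 2)) ∂mu := lintegral_mono hpt
    _ = ENNReal.ofReal (Real.exp (2 * p * C ^ 2)) * ∫⁻ θ,
        ENNReal.ofReal (Real.exp (‖(s : ℂ) * (G θ - sn d N θ)‖ ^ 2)) ∂mu := by
        rw [lintegral_const_mul' _ _ ENNReal.ofReal_ne_top]
    _ < ⊤ := by
        apply ENNReal.mul_lt_top ENNReal.ofReal_lt_top
        exact lt_of_le_of_lt h2 ENNReal.ofReal_lt_top

theorem IsB.exp_int {d : ℕ → ℂ} {G : ℝ → ℂ} (h : IsB d G) {p : ℝ} (hp : 0 < p) :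
    Integrable (fun θ => Real.exp (p * ‖G θ‖ ^ 2)) mu := by
  refine ⟨?_, ?_⟩
  · have hc : Continuous fun z : ℂ => Real.exp (p * ‖z‖ ^ 2) := by fun_prop
    exact hc.comp_aestronglyMeasurable h.mem.aestronglyMeasurable
  · rw [hasFiniteIntegral_iff_enorm]
    have h1 : ∀ θ, ‖Real.exp (p * ‖G θ‖ ^ 2)‖ₑ = ENNReal.ofReal (Real.exp (p * ‖G θ‖ ^ 2)) := by
      intro θ
      rw [← ofReal_norm, Real.norm_eq_abs, abs_of_pos (Real.exp_pos _)]
    simp only [h1]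
    exact h.exp_lt_top hp

/-- functions bounded by an exponential are integrable -/
theorem IsB.int_of_le {d : ℕ → ℂ} {G : ℝ → ℂ} (h : IsB d G) {p C : ℝ} (hp : 0 < p)
    {E : Type} [NormedAddCommGroup E] {g : ℝ → E} (hg : AEStronglyMeasurable g mu)
    (hle : ∀ θ, ‖g θ‖ ≤ C * Real.exp (p * ‖G θ‖ ^ 2)) : Integrable g mu :=
  ((h.exp_int hp).const_mul C).mono' hg (Eventually.of_forall hle)

theorem aesm_comp {G : ℝ → ℂ} (hG : AEStronglyMeasurable G mu) {E : Type} [TopologicalSpace E]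
    {φ : ℂ → E} (hφ : Continuous φ) : AEStronglyMeasurable (fun θ => φ (G θ)) mu :=
  hφ.comp_aestronglyMeasurable hG

theorem sq_le_exp (x : ℝ) : x ^ 2 ≤ Real.exp (x ^ 2) := by
  have := Real.add_one_le_exp (x ^ 2)
  linarith

section
variable {d : ℕ → ℂ} {G : ℝ → ℂ}

theorem IsB.int_rho (h : IsB d G) : Integrable (fun θ => Real.exp (‖G θ‖ ^ 2)) mu := by
  have := h.exp_int (p := 1) one_pos
  simpa using this

theorem IsB.int_rho_sq (h : IsB d G) :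
    Integrable (fun θ => Real.exp (‖G θ‖ ^ 2) * ‖G θ‖ ^ 2) mu := by
  refine h.int_of_le (p := 2) (C := 1) (by norm_num)
    (aesm_comp h.mem.aestronglyMeasurable (φ := fun z => Real.exp (‖z‖ ^ 2) * ‖z‖ ^ 2)
      (by fun_prop)) (fun θ => ?_)
  rw [Real.norm_eq_abs, abs_of_nonneg (by positivity), one_mul, two_mul, Real.exp_add]
  exact mul_le_mul_of_nonneg_left (sq_le_exp _) (Real.exp_pos _).le

theorem norm_le_exp (x : ℝ) : x ≤ Real.exp (x ^ 2) := by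
  have := Real.add_one_le_exp (x ^ 2)
  nlinarith [sq_nonneg (x - 1 / 2)]

theorem IsB.int_rhoG (h : IsB d G) :
    Integrable (fun θ => ((Real.exp (‖G θ‖ ^ 2) : ℝ) : ℂ) * G θ) mu := by
  refine h.int_of_le (p := 2) (C := 1) (by norm_num)
    (aesm_comp h.mem.aestronglyMeasurable (φ := fun z => ((Real.exp (‖z‖ ^ 2) : ℝ) : ℂ) * z)
      (by fun_prop)) (fun θ => ?_)
  rw [norm_mul, Complex.norm_real, Real.norm_eq_abs, abs_of_pos (Real.exp_pos _), one_mul, two_mul,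
    Real.exp_add]
  exact mul_le_mul_of_nonneg_left (norm_le_exp _) (Real.exp_pos _).le

theorem IsB.memLp_rhoG (h : IsB d G) :
    MemLp (fun θ => ((Real.exp (‖G θ‖ ^ 2) : ℝ) : ℂ) * G θ) 2 mu := by
  have hm := (aesm_comp h.mem.aestronglyMeasurable
      (φ := fun z => ((Real.exp (‖z‖ ^ 2) : ℝ) : ℂ) * z) (by fun_prop))
  rw [memLp_two_iff_integrable_sq_norm hm]
  refine h.int_of_le (p := 3) (C := 1) (by norm_num) (aesm_comp h.mem.aestronglyMeasurable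
      (φ := fun z => ‖((Real.exp (‖z‖ ^ 2) : ℝ) : ℂ) * z‖ ^ 2) (by fun_prop)) (fun θ => ?_)
  rw [Real.norm_eq_abs, abs_of_nonneg (by positivity), norm_mul, Complex.norm_real,
    Real.norm_eq_abs, abs_of_pos (Real.exp_pos _), one_mul, mul_pow]
  have e1 : Real.exp (3 * ‖G θ‖ ^ 2) = Real.exp (‖G θ‖ ^ 2) ^ 2 * Real.exp (‖G θ‖ ^ 2) := by
    rw [← Real.exp_nat_mul, ← Real.exp_add]
    congr 1
    push_cast
    ring
  rw [e1]
  exact mul_le_mul_of_nonneg_left (sq_le_exp _) (by positivity)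

/-- the multiplier -/
noncomputable def lamq (G : ℝ → ℂ) : ℝ :=
  (2 * π)⁻¹ * ∫ θ, Real.exp (‖G θ‖ ^ 2) * ‖G θ‖ ^ 2 ∂mu

/-- consequence of maximality -/
theorem IsB.max_ineq (h : IsB d G)
    (hext : ∫⁻ θ, ENNReal.ofReal (Real.exp (‖G θ‖ ^ 2)) ∂mu = ENNReal.ofReal (2 * π * Real.exp 1))
    {e : ℕ → ℂ} {V : ℝ → ℂ} (hV : IsB e V) (hpos : 0 < sg e)
    (hint : Integrable (fun θ => Real.exp (‖G θ‖ ^ 2) * ‖V θ‖ ^ 2) mu) :
    (2 * π)⁻¹ * ∫ θ, Real.exp (‖G θ‖ ^ 2) * ‖V θ‖ ^ 2 ∂mu ≤ lamq G * sg e := by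
  set s : ℝ := (Real.sqrt (sg e))⁻¹ with hs
  have hs2 : s ^ 2 = (sg e)⁻¹ := by
    rw [hs, inv_pow, Real.sq_sqrt hpos.le]
  have hVs := hV.smul (s : ℂ)
  have hsg : sg (fun i => (s : ℂ) * e i) = 1 := by
    rw [sg_smul, Complex.norm_real, Real.norm_eq_abs, sq_abs, hs2]
    field_simp
  have h1 := hVs.lint hsg.le
  rw [hsg] at h1
  have hintV := hVs.int_rho
  have e1 : ∀ {W : ℝ → ℂ}, Integrable (fun θ => Real.exp (‖W θ‖ ^ 2)) mu →
      ∫⁻ θ, ENNReal.ofReal (Real.exp (‖W θ‖ ^ 2)) ∂mu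
        = ENNReal.ofReal (∫ θ, Real.exp (‖W θ‖ ^ 2) ∂mu) := by
    intro W hW
    rw [ofReal_integral_eq_lintegral_ofReal hW
      (Eventually.of_forall fun θ => (Real.exp_pos _).le)]
  rw [e1 hintV, ENNReal.ofReal_le_ofReal_iff (by positivity)] at h1
  rw [e1 h.int_rho, ENNReal.ofReal_eq_ofReal_iff
    (integral_nonneg fun θ => (Real.exp_pos _).le) (by positivity)] at hext
  have hI1 : Integrable (fun θ => Real.exp (‖G θ‖ ^ 2) +
      s ^ 2 * (Real.exp (‖G θ‖ ^ 2) * ‖V θ‖ ^ 2)) mu := h.int_rho.add (hint.const_mul _)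
  have hI2 : Integrable (fun θ => Real.exp (‖G θ‖ ^ 2) +
      s ^ 2 * (Real.exp (‖G θ‖ ^ 2) * ‖V θ‖ ^ 2) - Real.exp (‖G θ‖ ^ 2) * ‖G θ‖ ^ 2) mu :=
    hI1.sub h.int_rho_sq
  have h2 : ∫ θ, (Real.exp (‖G θ‖ ^ 2) + s ^ 2 * (Real.exp (‖G θ‖ ^ 2) * ‖V θ‖ ^ 2)
      - Real.exp (‖G θ‖ ^ 2) * ‖G θ‖ ^ 2) ∂mu ≤ ∫ θ, Real.exp (‖(s : ℂ) * V θ‖ ^ 2) ∂mu := by
    apply integral_mono hI2 hintV
    intro θ
    simp only
    have h3 := Real.add_one_le_exp (‖(s : ℂ) * V θ‖ ^ 2 - ‖G θ‖ ^ 2)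
    have h4 : Real.exp (‖(s : ℂ) * V θ‖ ^ 2) = Real.exp (‖G θ‖ ^ 2) *
        Real.exp (‖(s : ℂ) * V θ‖ ^ 2 - ‖G θ‖ ^ 2) := by
      rw [← Real.exp_add]
      congr 1
      ring
    have h5 := mul_le_mul_of_nonneg_left h3 (Real.exp_pos (‖G θ‖ ^ 2)).le
    rw [h4]
    have h6 : ‖(s : ℂ) * V θ‖ ^ 2 = s ^ 2 * ‖V θ‖ ^ 2 := by
      rw [norm_mul, Complex.norm_real, Real.norm_eq_abs, mul_pow, sq_abs]
    rw [h6] at h5 ⊢
    linarith
  rw [MeasureTheory.integral_sub hI1 h.int_rho_sq,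
    MeasureTheory.integral_add h.int_rho (hint.const_mul _), MeasureTheory.integral_const_mul,
    hext] at h2
  have h3 : s ^ 2 * ∫ θ, Real.exp (‖G θ‖ ^ 2) * ‖V θ‖ ^ 2 ∂mu ≤
      ∫ θ, Real.exp (‖G θ‖ ^ 2) * ‖G θ‖ ^ 2 ∂mu := by linarith
  rw [hs2, inv_mul_le_iff₀ hpos] at h3
  unfold lamq
  have h4 := mul_le_mul_of_nonneg_left h3 (show 0 ≤ (2 * π)⁻¹ by positivity)
  linarith

/-- Euler-Lagrange equation -/
theorem IsB.euler (h : IsB d G) (hσ : sg d = 1)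
    (hext : ∫⁻ θ, ENNReal.ofReal (Real.exp (‖G θ‖ ^ 2)) ∂mu = ENNReal.ofReal (2 * π * Real.exp 1))
    (j : ℕ) : fc (fun θ => ((Real.exp (‖G θ‖ ^ 2) : ℝ) : ℂ) * G θ) ((j : ℤ) + 1)
      = (lamq G : ℂ) * ((j : ℝ) + 1) * d j := by
  set u := fc (fun θ => ((Real.exp (‖G θ‖ ^ 2) : ℝ) : ℂ) * G θ) ((j : ℤ) + 1) with hu
  set lam := lamq G with hlam
  set w := u - (lam : ℂ) * ((j : ℝ) + 1) * d j with hw
  set Av : ℝ := (2 * π)⁻¹ * ∫ θ, Real.exp (‖G θ‖ ^ 2) ∂mu with hAv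
  have hint : ∀ t : ℂ, Integrable (fun θ => Real.exp (‖G θ‖ ^ 2) *
      ‖G θ + t * ch ((j : ℤ) + 1) θ‖ ^ 2) mu := by
    intro t
    have h1 : Integrable (fun θ => 2 * (Real.exp (‖G θ‖ ^ 2) * ‖G θ‖ ^ 2) +
        2 * ‖t‖ ^ 2 * Real.exp (‖G θ‖ ^ 2)) mu :=
      (h.int_rho_sq.const_mul 2).add (h.int_rho.const_mul _)
    refine h1.mono' ?_ (Eventually.of_forall fun θ => ?_)
    · have hm : AEStronglyMeasurable (fun θ => G θ + t * ch ((j : ℤ) + 1) θ) mu :=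
        h.mem.aestronglyMeasurable.add
          (Continuous.aestronglyMeasurable (by fun_prop))
      exact (aesm_comp h.mem.aestronglyMeasurable (φ := fun z => Real.exp (‖z‖ ^ 2))
        (by fun_prop)).mul (hm.norm.pow 2)
    · rw [Real.norm_eq_abs, abs_of_nonneg (by positivity)]
      have h2 : ‖G θ + t * ch ((j : ℤ) + 1) θ‖ ≤ ‖G θ‖ + ‖t‖ := by
        refine (norm_add_le _ _).trans ?_
        rw [norm_mul, norm_ch, mul_one]
      have h3 : ‖G θ + t * ch ((j : ℤ) + 1) θ‖ ^ 2 ≤ 2 * ‖G θ‖ ^ 2 + 2 * ‖t‖ ^ 2 := by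
        have := pow_le_pow_left₀ (norm_nonneg _) h2 2
        nlinarith [sq_nonneg (‖G θ‖ - ‖t‖)]
      have h4 := mul_le_mul_of_nonneg_left h3 (Real.exp_pos (‖G θ‖ ^ 2)).le
      linarith
  have hexp : ∀ t : ℂ, (2 * π)⁻¹ * ∫ θ, Real.exp (‖G θ‖ ^ 2) *
      ‖G θ + t * ch ((j : ℤ) + 1) θ‖ ^ 2 ∂mu = lam + 2 * (conj t * u).re + ‖t‖ ^ 2 * Av := by
    intro t
    have h1 : ∀ θ : ℝ, Real.exp (‖G θ‖ ^ 2) * ‖G θ + t * ch ((j : ℤ) + 1) θ‖ ^ 2
        = Real.exp (‖G θ‖ ^ 2) * ‖G θ‖ ^ 2 +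
          2 * (conj t * (((Real.exp (‖G θ‖ ^ 2) : ℝ) : ℂ) * G θ * ch (-((j : ℤ) + 1)) θ)).re
          + ‖t‖ ^ 2 * Real.exp (‖G θ‖ ^ 2) := by
      intro θ
      have h2 := Complex.normSq_add (G θ) (t * ch ((j : ℤ) + 1) θ)
      rw [Complex.normSq_eq_norm_sq, Complex.normSq_eq_norm_sq, Complex.normSq_eq_norm_sq] at h2
      rw [h2, norm_mul t, norm_ch, mul_one, map_mul, conj_ch]
      have h3 : conj t * (((Real.exp (‖G θ‖ ^ 2) : ℝ) : ℂ) * G θ * ch (-((j : ℤ) + 1)) θ)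
          = ((Real.exp (‖G θ‖ ^ 2) : ℝ) : ℂ) * (G θ * (conj t * ch (-((j : ℤ) + 1)) θ)) := by ring
      rw [h3, Complex.re_ofReal_mul]
      ring
    have hI : Integrable (fun θ => conj t * (((Real.exp (‖G θ‖ ^ 2) : ℝ) : ℂ) * G θ *
        ch (-((j : ℤ) + 1)) θ)) mu := (integrable_mul_ch h.int_rhoG _).const_mul _
    have h4 : (conj t * u).re = (2 * π)⁻¹ * ∫ θ,
        (conj t * (((Real.exp (‖G θ‖ ^ 2) : ℝ) : ℂ) * G θ * ch (-((j : ℤ) + 1)) θ)).re ∂mu := by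
      have h5 := integral_re hI
      have h6 : ∫ θ, conj t * (((Real.exp (‖G θ‖ ^ 2) : ℝ) : ℂ) * G θ *
        ch (-((j : ℤ) + 1)) θ) ∂mu = conj t * ∫ θ, (((Real.exp (‖G θ‖ ^ 2) : ℝ) : ℂ) * G θ *
        ch (-((j : ℤ) + 1)) θ) ∂mu := MeasureTheory.integral_const_mul _ _
      have h7 : (∫ θ, (conj t * (((Real.exp (‖G θ‖ ^ 2) : ℝ) : ℂ) * G θ *
          ch (-((j : ℤ) + 1)) θ)).re ∂mu) = (∫ θ, conj t * (((Real.exp (‖G θ‖ ^ 2) : ℝ) : ℂ) * G θ *
        ch (-((j : ℤ) + 1)) θ) ∂mu).re := h5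
      rw [h7, h6, hu]
      unfold fc A
      rw [int_mu]
      have h8 : (2 * π : ℂ)⁻¹ = (((2 * π)⁻¹ : ℝ) : ℂ) := by push_cast; rfl
      rw [h8, show ∀ a b c : ℂ, a * (b * c) = b * (a * c) by intros; ring, Complex.re_ofReal_mul]
    simp only [h1]
    have hIr : Integrable (fun θ => 2 * (conj t * (((Real.exp (‖G θ‖ ^ 2) : ℝ) : ℂ) * G θ *
        ch (-((j : ℤ) + 1)) θ)).re) mu := (hI.re).const_mul 2
    have hIs : Integrable (fun θ => Real.exp (‖G θ‖ ^ 2) * ‖G θ‖ ^ 2 +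
        2 * (conj t * (((Real.exp (‖G θ‖ ^ 2) : ℝ) : ℂ) * G θ *
        ch (-((j : ℤ) + 1)) θ)).re) mu := h.int_rho_sq.add hIr
    rw [MeasureTheory.integral_add hIs (h.int_rho.const_mul _),
      MeasureTheory.integral_add h.int_rho_sq hIr, MeasureTheory.integral_const_mul,
      MeasureTheory.integral_const_mul, h4, hlam, hAv]
    unfold lamq
    ring
  set C := |lam * ((j : ℝ) + 1) - Av| with hC
  have hC0 : 0 ≤ C := abs_nonneg _
  have key : ∀ t : ℂ, 0 < sg (fun i => d i + if i = j then t else 0) →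
      2 * (conj t * w).re ≤ ‖t‖ ^ 2 * C := by
    intro t ht
    have h1 := h.max_ineq hext (h.add_single j t) ht (hint t)
    rw [hexp, sg_add_single h.sm, hσ] at h1
    have h2 : (conj t * w).re = (conj t * u).re - lam * ((j : ℝ) + 1) * (conj t * d j).re := by
      rw [hw, mul_sub, Complex.sub_re]
      congr 1
      have : conj t * ((lam : ℂ) * ((j : ℝ) + 1) * d j)
          = ((lam * ((j : ℝ) + 1) : ℝ) : ℂ) * (conj t * d j) := by
        push_cast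
        ring
      rw [this, Complex.re_ofReal_mul]
    have h3 : ‖t‖ ^ 2 * (lam * ((j : ℝ) + 1) - Av) ≤ ‖t‖ ^ 2 * C := by
      apply mul_le_mul_of_nonneg_left _ (by positivity)
      exact le_abs_self _
    rw [h2]
    linarith
  have hlim : Tendsto (fun ε : ℝ => sg (fun i => d i + if i = j then (ε : ℂ) * w else 0))
      (𝓝[>] 0) (𝓝 1) := by
    have h1 : (fun ε : ℝ => sg (fun i => d i + if i = j then (ε : ℂ) * w else 0))
        = fun ε : ℝ => sg d + ((j : ℝ) + 1) * (2 * (conj ((ε : ℂ) * w) * d j).re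
          + ‖(ε : ℂ) * w‖ ^ 2) := by
      ext ε
      rw [sg_add_single h.sm]
    rw [h1]
    have hc : Continuous fun ε : ℝ => sg d + ((j : ℝ) + 1) * (2 * (conj ((ε : ℂ) * w) * d j).re
          + ‖(ε : ℂ) * w‖ ^ 2) := by
      have h2 : Continuous fun ε : ℝ => conj ((ε : ℂ) * w) * d j :=
        (Complex.continuous_conj.comp (by fun_prop)).mul continuous_const
      have h3 : Continuous fun ε : ℝ => (conj ((ε : ℂ) * w) * d j).re :=
        Complex.continuous_re.comp h2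
      fun_prop
    have h4 := hc.tendsto 0
    rw [hσ] at h4 ⊢
    simp only [Complex.ofReal_zero, zero_mul, map_zero, Complex.zero_re, mul_zero, norm_zero,
      ne_eq, OfNat.ofNat_ne_zero, not_false_eq_true, zero_pow, add_zero] at h4
    exact h4.mono_left nhdsWithin_le_nhds
  have hev : ∀ᶠ ε : ℝ in 𝓝[>] 0, 2 * ‖w‖ ^ 2 ≤ ε * (‖w‖ ^ 2 * C) := by
    filter_upwards [(tendsto_order.mp hlim).1 0 (by norm_num), self_mem_nhdsWithin] with ε h1 h2
    have h3 := key ((ε : ℂ) * w) h1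
    have hε : 0 < ε := h2
    have h4 : (conj ((ε : ℂ) * w) * w).re = ε * ‖w‖ ^ 2 := by
      have : conj ((ε : ℂ) * w) * w = ((ε * ‖w‖ ^ 2 : ℝ) : ℂ) := by
        rw [map_mul, Complex.conj_ofReal, mul_assoc, mul_comm (conj w), Complex.mul_conj,
          Complex.normSq_eq_norm_sq]
        push_cast
        rfl
      rw [this, Complex.ofReal_re]
    rw [h4, norm_mul, Complex.norm_real, Real.norm_eq_abs, mul_pow, sq_abs] at h3
    have h5 : ε * (2 * ‖w‖ ^ 2) ≤ ε * (ε * (‖w‖ ^ 2 * C)) := by linarith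
    exact le_of_mul_le_mul_left h5 hε
  have hw0 : 2 * ‖w‖ ^ 2 ≤ 0 := by
    have h1 : Tendsto (fun ε : ℝ => ε * (‖w‖ ^ 2 * C)) (𝓝[>] 0) (𝓝 (0 * (‖w‖ ^ 2 * C))) := by
      have hc : Continuous fun ε : ℝ => ε * (‖w‖ ^ 2 * C) := by fun_prop
      exact (hc.tendsto 0).mono_left nhdsWithin_le_nhds
    rw [zero_mul] at h1
    exact ge_of_tendsto h1 hev
  have hw1 : w = 0 := by
    have h1 : ‖w‖ ^ 2 = 0 := le_antisymm (by linarith) (by positivity)
    simpa using h1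
  rw [hw, sub_eq_zero] at hw1
  exact hw1

end

end Pool.Agent.MP_3466b8_an
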