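import Pool.Agent.MP_3466b8_an.Extremal

/-!
The extremal functions are the rotations of the identity.
-/

set_option autoImplicit false

open Complex MeasureTheory intervalIntegral Filter Topology
open scoped Real ComplexConjugate ENNReal

namespace Pool.Agent.MP_3466b8_an

section
variable {c : ℕ → ℂ}

theorem fc_Fs (hc : Summable fun i => ‖c i‖) (k : ℤ) : fc (Fs c) k = cz c k := by
  by_cases hk : 1 ≤ k
  · obtain ⟨i, rfl⟩ : ∃ i : ℕ, k = (i : ℤ) + 1 := ⟨(k - 1).toNat, by omega⟩
    rw [cz_succ]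
    exact fc_of_hasSum (κ := fun i : ℕ => (i : ℤ) + 1) inj_succ hc (fun θ => hasSum_Fs hc θ) i
  · rw [cz_of_nonpos _ (by omega)]
    exact fc_of_hasSum_zero (κ := fun i : ℕ => (i : ℤ) + 1) hc
      (fun θ => hasSum_Fs hc θ) (fun i => by omega)

theorem fc_hs_neg (hc : Summable fun i => ‖c i‖) {k : ℤ} (hk : k < 0) : fc (hs c) k = 0 := by
  have h1 : Tendsto (fun n => fc (hh (tr c n)) k) atTop (𝓝 (fc (hs c) k)) :=
    fc_tendsto (fun n => continuous_hh _) (norm_hh_le hc) (tendsto_hh hc) k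
  have h2 : (fun n => fc (hh (tr c n)) k) = fun _ => 0 := by
    ext n
    exact fc_hh_neg _ hk
  rw [h2] at h1
  exact (tendsto_nhds_unique h1 tendsto_const_nhds)

theorem hs_mul_conj (hc : Summable fun i => ‖c i‖) (θ : ℝ) :
    hs c θ * conj (hs c θ) = ((Real.exp (‖Fs c θ‖ ^ 2) : ℝ) : ℂ) := by
  have h1 := (tendsto_hh hc θ).mul ((Complex.continuous_conj.tendsto _).comp (tendsto_hh hc θ))
  have h2 : (fun n => hh (tr c n) θ * (conj ∘ fun n => hh (tr c n) θ) n)
      = fun n => (rho (tr c n) θ : ℂ) := by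
    ext n
    exact hh_mul_conj _ θ
  rw [h2] at h1
  exact tendsto_nhds_unique h1 ((Complex.continuous_ofReal.tendsto _).comp (tendsto_rho hc θ))

/-- if the outer function has no positive coefficients, it is constant -/
theorem hs_const (hc : Summable fun i => ‖c i‖) (h : ∀ m : ℕ, fc (hs c) ((m : ℤ) + 1) = 0)
    (θ : ℝ) : Real.exp (‖Fs c θ‖ ^ 2) = ‖fc (hs c) 0‖ ^ 2 := by
  have hch : Continuous (hs c) := by
    unfold hs
    exact (continuous_Ps hc).cexp
  have h1 : ∀ θ, hs c θ - fc (hs c) 0 * ch 0 θ = 0 := by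
    apply eq_zero_of_fc
    · fun_prop
    · intro θ
      simp only [hs, periodic_Ps c θ, ch_periodic 0 θ]
    · intro k
      rw [fc_sub' hch (by fun_prop), fc_const_mul, fc_ch]
      rcases lt_trichotomy k 0 with hk | hk | hk
      · rw [fc_hs_neg hc hk, if_neg (by omega)]
        ring
      · subst hk
        simp
      · have := h (k - 1).toNat
        rw [show (((k - 1).toNat : ℕ) : ℤ) + 1 = k by omega] at this
        rw [this, if_neg (by omega)]
        ring
  have h2 := hs_mul_conj hc θ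
  have h3 : hs c θ = fc (hs c) 0 := by
    have := h1 θ
    rw [ch_zero, mul_one] at this
    exact sub_eq_zero.mp this
  rw [h3, Complex.mul_conj, Complex.normSq_eq_norm_sq] at h2
  exact_mod_cast h2.symm

end

theorem extremal_linear {f : ℂ → ℂ} (hf : f ∈ classF)
    (hext : cmInt f = ENNReal.ofReal (2 * π * Real.exp 1)) :
    ∃ c : ℂ, ‖c‖ = 1 ∧ ∀ z ∈ Metric.ball (0 : ℂ) 1, f z = c * z := by
  set c := tc f with hc
  obtain ⟨F, hF, hlim⟩ := exists_bdry (summable_sq_of (summable_tc hf))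
  have h : IsB c F := ⟨summable_tc hf, hF, hlim⟩
  have hσ1 : sg c ≤ 1 := tsum_tc_le hf
  have hle := h.lint hσ1
  have hle0 := cmInt_le_lint hf hF hlim
  rw [hext] at hle0
  have hpi : 0 < 2 * π := by positivity
  have hσ : sg c = 1 := by
    have h1 := hle0.trans hle
    rw [ENNReal.ofReal_le_ofReal_iff (by positivity)] at h1
    have h2 := le_of_mul_le_mul_left h1 hpi
    have h3 := Real.exp_le_exp.mp h2
    linarith
  have hextF : ∫⁻ θ, ENNReal.ofReal (Real.exp (‖F θ‖ ^ 2)) ∂mu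
      = ENNReal.ofReal (2 * π * Real.exp 1) := by
    rw [hσ] at hle
    exact le_antisymm hle hle0
  have hEL := h.euler hσ hextF
  have hfcF : ∀ k : ℤ, fc F k = cz c k := fun k => fc_bdry hF hlim k
  -- the `L²` norm
  have hL2 : (2 * π)⁻¹ * ∫ θ, ‖F θ‖ ^ 2 ∂mu = ∑' i, ‖c i‖ ^ 2 := by
    rw [int_eq_tsum hF (fun k hk => by rw [hfcF, cz_of_nonpos _ hk])]
    simp only [hfcF, cz_succ]
    field_simp
  -- positivity of the multiplier
  have hlam : 0 < lamq F := by
    have h1 : (2 * π)⁻¹ * ∫ θ, ‖F θ‖ ^ 2 ∂mu ≤ lamq F := by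
      unfold lamq
      apply mul_le_mul_of_nonneg_left _ (by positivity)
      apply integral_mono ((memLp_two_iff_integrable_sq_norm hF.aestronglyMeasurable).mp hF)
        h.int_rho_sq
      intro θ
      simp only
      have h2 : 1 ≤ Real.exp (‖F θ‖ ^ 2) := Real.one_le_exp (by positivity)
      have h3 : 0 ≤ ‖F θ‖ ^ 2 := by positivity
      nlinarith
    rw [hL2] at h1
    refine lt_of_lt_of_le ?_ h1
    by_contra hcon
    push Not at hcon
    have h2 : ∑' i, ‖c i‖ ^ 2 = 0 := le_antisymm hcon (tsum_nonneg fun _ => by positivity)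
    have h3 : HasSum (fun i => ‖c i‖ ^ 2) 0 := by
      rw [← h2]
      exact (summable_sq_of (summable_tc hf)).hasSum
    have h4 := (hasSum_zero_iff_of_nonneg (fun _ => by positivity)).mp h3
    have h5 : sg c = 0 := by
      unfold sg
      have : (fun i : ℕ => ((i : ℝ) + 1) * ‖c i‖ ^ 2) = fun _ => 0 := by
        ext i
        have := congrFun h4 i
        simp only [Pi.zero_apply] at this
        rw [this, mul_zero]
      rw [this, tsum_zero]
    linarith
  -- absolute convergence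
  have hsum : Summable fun i => ‖c i‖ := by
    have h1 := (parsevalL h.memLp_rhoG).summable.comp_injective inj_succ
    have h2 : Summable fun i : ℕ => (((i : ℝ) + 1) * ‖c i‖) ^ 2 := by
      have h3 := h1.mul_left ((lamq F)⁻¹ ^ 2)
      refine h3.congr fun i => ?_
      simp only [Function.comp]
      rw [hEL i, norm_mul, norm_mul, Complex.norm_real, Real.norm_eq_abs, abs_of_pos hlam]
      have h4 : ‖(((i : ℕ) : ℝ) : ℂ) + 1‖ = (i : ℝ) + 1 := by
        have : (((i : ℕ) : ℝ) : ℂ) + 1 = (((i : ℝ) + 1 : ℝ) : ℂ) := by push_cast; rfl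
        rw [this, Complex.norm_real, Real.norm_eq_abs, abs_of_pos (by positivity)]
      rw [h4]
      have := hlam.ne'
      field_simp
    have h3 : Summable fun i : ℕ => 1 / ((i : ℝ) + 1) ^ 2 := by
      have := (Real.summable_one_div_nat_pow (p := 2)).mpr (by norm_num)
      have h4 := (summable_nat_add_iff 1).mpr this
      refine h4.congr fun i => ?_
      push_cast
      rfl
    refine Summable.of_nonneg_of_le (fun i => norm_nonneg _) (fun i => ?_) (h2.add h3)
    have h5 : (0 : ℝ) < (i : ℝ) + 1 := by positivity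
    have h6 : ‖c i‖ = (((i : ℝ) + 1) * ‖c i‖) * (1 / ((i : ℝ) + 1)) := by field_simp
    have h7 : 1 / ((i : ℝ) + 1) ^ 2 = (1 / ((i : ℝ) + 1)) ^ 2 := by
      rw [div_pow, one_pow]
    rw [h7]
    nth_rewrite 1 [h6]
    nlinarith [sq_nonneg (((i : ℝ) + 1) * ‖c i‖ - 1 / ((i : ℝ) + 1)),
      sq_nonneg (((i : ℝ) + 1) * ‖c i‖), sq_nonneg (1 / ((i : ℝ) + 1))]
  -- the continuous representative
  have hae : F =ᵐ[mu] Fs c := by
    have hFs := memLp_cont (continuous_Fs hsum) 2
    have h1 := parsevalL (hF.sub hFs)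
    have h2 : HasSum (fun k : ℤ => ‖fc (F - Fs c) k‖ ^ 2) 0 := by
      have : (fun k : ℤ => ‖fc (F - Fs c) k‖ ^ 2) = fun _ => (0 : ℝ) := by
        ext k
        rw [fc_subL (hF.integrable (by norm_num)) (hFs.integrable (by norm_num)), hfcF,
          fc_Fs hsum, sub_self]
        simp
      rw [this]
      exact hasSum_zero
    have h3 := h1.unique h2
    have h4 : ∫ θ, ‖(F - Fs c) θ‖ ^ 2 ∂mu = 0 := by
      rcases mul_eq_zero.mp h3 with h5 | h5
      · exact absurd h5 (by positivity)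
      · exact h5
    have hm := hF.sub hFs
    rw [integral_eq_zero_iff_of_nonneg (fun _ => by positivity)
      ((memLp_two_iff_integrable_sq_norm hm.aestronglyMeasurable).mp hm)] at h4
    filter_upwards [h4] with θ hθ
    simp only [Pi.zero_apply, Pi.sub_apply] at hθ
    have h5 : ‖F θ - Fs c θ‖ = 0 := by
      exact pow_eq_zero_iff (two_ne_zero) |>.mp hθ
    exact sub_eq_zero.mp (norm_eq_zero.mp h5)
  have hEL' : ∀ i : ℕ, fc (fun θ => ((Real.exp (‖Fs c θ‖ ^ 2) : ℝ) : ℂ) * Fs c θ) ((i : ℤ) + 1)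
      = ((lamq F : ℝ) : ℂ) * ((i : ℝ) + 1) * c i := by
    intro i
    rw [← hEL i]
    unfold fc A
    rw [int_mu, int_mu]
    congr 1
    apply MeasureTheory.integral_congr_ae
    filter_upwards [hae] with θ hθ
    rw [hθ]
  have hmass : (2 * π)⁻¹ * ∫ θ in (0 : ℝ)..(2 * π), Real.exp (‖Fs c θ‖ ^ 2) * ‖Fs c θ‖ ^ 2
      = lamq F := by
    rw [int_mu]
    unfold lamq
    congr 1
    apply MeasureTheory.integral_congr_ae
    filter_upwards [hae] with θ hθ
    rw [hθ]
  have hout := outer_const hsum hlam hEL' hmass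
  have hconst := hs_const hsum hout
  -- the constant
  have hval : ‖fc (hs c) 0‖ ^ 2 = Real.exp 1 := by
    have h1 : ∫⁻ θ, ENNReal.ofReal (Real.exp (‖F θ‖ ^ 2)) ∂mu
        = ∫⁻ _, ENNReal.ofReal (‖fc (hs c) 0‖ ^ 2) ∂mu := by
      apply lintegral_congr_ae
      filter_upwards [hae] with θ hθ
      rw [hθ, hconst]
    rw [hextF, lintegral_const] at h1
    unfold mu at h1
    rw [Measure.restrict_apply_univ, Real.volume_Ioc,
      ← ENNReal.ofReal_mul (by positivity), ENNReal.ofReal_eq_ofReal_iff (by positivity)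
      (by positivity)] at h1
    have h2 : 2 * π * (‖fc (hs c) 0‖ ^ 2 - Real.exp 1) = 0 := by linarith
    rcases mul_eq_zero.mp h2 with h3 | h3
    · exact absurd h3 hpi.ne'
    · linarith
  have hone : ∀ θ, ‖Fs c θ‖ ^ 2 = 1 := by
    intro θ
    have := hconst θ
    rw [hval] at this
    exact Real.exp_injective this
  have hsum1 : ∑' i, ‖c i‖ ^ 2 = 1 := by
    rw [← hL2]
    have h1 : ∫ θ, ‖F θ‖ ^ 2 ∂mu = ∫ _, (1 : ℝ) ∂mu := by
      apply MeasureTheory.integral_congr_ae
      filter_upwards [hae] with θ hθ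
      rw [hθ, hone]
    rw [h1, ← int_mu]
    simp only [intervalIntegral.integral_const, smul_eq_mul, mul_one, sub_zero]
    field_simp
  have hzero : ∀ i : ℕ, (i : ℝ) * ‖c i‖ ^ 2 = 0 := by
    have h1 : HasSum (fun i : ℕ => (i : ℝ) * ‖c i‖ ^ 2) (1 - 1) := by
      have h2 : HasSum (fun i : ℕ => ((i : ℝ) + 1) * ‖c i‖ ^ 2) 1 := by
        have h5 := (summable_tc hf).hasSum
        have h6 : ∑' i : ℕ, ((i : ℝ) + 1) * ‖tc f i‖ ^ 2 = 1 := hσ
        rwa [h6] at h5
      have h3 : HasSum (fun i : ℕ => ‖c i‖ ^ 2) 1 := by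
        have h5 := (summable_sq_of (summable_tc hf)).hasSum
        rw [hc] at hsum1 ⊢
        rwa [hsum1] at h5
      refine hs_congr (h2.sub h3) fun i => ?_
      ring
    rw [sub_self] at h1
    have h4 := (hasSum_zero_iff_of_nonneg (fun _ => by positivity)).mp h1
    intro i
    exact congrFun h4 i
  have hci : ∀ i : ℕ, i ≠ 0 → c i = 0 := by
    intro i hi
    rcases mul_eq_zero.mp (hzero i) with h1 | h1
    · exact absurd (by exact_mod_cast h1) hi
    · have : ‖c i‖ = 0 := pow_eq_zero_iff (two_ne_zero) |>.mp h1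
      exact norm_eq_zero.mp this
  have hc0 : ‖c 0‖ = 1 := by
    have h1 : HasSum (fun i : ℕ => ‖c i‖ ^ 2) (‖c 0‖ ^ 2) :=
      hasSum_single 0 (fun i hi => by rw [hci i hi]; simp)
    have h2 := h1.tsum_eq
    rw [hsum1] at h2
    have h3 := norm_nonneg (c 0)
    nlinarith
  refine ⟨c 0, hc0, fun z hz => ?_⟩
  have h1 := hasSum_f hf.1 hf.2.1 (z := z) (by simpa using hz)
  have h2 : HasSum (fun i : ℕ => tc f i * z ^ (i + 1)) (c 0 * z) := by
    have h3 : HasSum (fun i : ℕ => tc f i * z ^ (i + 1)) (tc f 0 * z ^ (0 + 1)) :=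
      hasSum_single 0 (fun i hi => by
        have h4 := hci i hi
        rw [hc] at h4
        rw [h4, zero_mul])
    simpa [hc] using h3
  exact h1.unique h2

/-- The extremal functions. -/
theorem extremals : {f | f ∈ classF ∧ cmInt f = ⨆ g ∈ classF, cmInt g} =
    {f | ∃ c : ℂ, ‖c‖ = 1 ∧ ∀ z ∈ Metric.ball (0 : ℂ) 1, f z = c * z} := by
  ext f
  rw [sharp_constant]
  constructor
  · rintro ⟨hf, hext⟩
    exact extremal_linear hf hext
  · rintro ⟨c, hc, hf⟩
    exact ⟨linear_mem hc hf, cmInt_linear hc hf⟩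

end Pool.Agent.MP_3466b8_an
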