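import Mathlib

/-!
Averages over the circle, Fourier coefficients and Parseval's identity.
-/

set_option autoImplicit false

open Complex MeasureTheory intervalIntegral
open scoped Real ComplexConjugate

namespace Pool.Agent.MP_3466b8_an

/-- characters of the circle -/
noncomputable def ch (k : ℤ) (θ : ℝ) : ℂ := Complex.exp (k * θ * I)

theorem ch_add (k l : ℤ) (θ : ℝ) : ch (k + l) θ = ch k θ * ch l θ := by
  unfold ch
  rw [← Complex.exp_add]
  congr 1
  push_cast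
  ring

@[simp] theorem ch_zero (θ : ℝ) : ch 0 θ = 1 := by
  unfold ch
  simp

theorem ch_neg (k : ℤ) (θ : ℝ) : ch (-k) θ = conj (ch k θ) := by
  unfold ch
  rw [← Complex.exp_conj]
  congr 1
  simp

theorem conj_ch (k : ℤ) (θ : ℝ) : conj (ch k θ) = ch (-k) θ := (ch_neg k θ).symm

theorem norm_ch (k : ℤ) (θ : ℝ) : ‖ch k θ‖ = 1 := by
  unfold ch
  have : (k : ℂ) * θ * I = ((k * θ : ℝ) : ℂ) * I := by push_cast; ring
  rw [this]
  exact Complex.norm_exp_ofReal_mul_I _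

@[fun_prop] theorem continuous_ch (k : ℤ) : Continuous (ch k) := by
  unfold ch
  fun_prop

theorem ch_nat (k : ℕ) (θ : ℝ) : ch k θ = (Complex.exp (θ * I)) ^ k := by
  unfold ch
  rw [← Complex.exp_nat_mul]
  congr 1
  push_cast
  ring

theorem ch_two_pi (k : ℤ) : ch k (2 * π) = 1 := by
  unfold ch
  have : (k : ℂ) * ((2 * π : ℝ) : ℂ) * I = k * (2 * π * I) := by push_cast; ring
  rw [this]
  exact Complex.exp_int_mul_two_pi_mul_I k

theorem ch_at_zero (k : ℤ) : ch k 0 = 1 := by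
  unfold ch
  simp

/-- the average over the circle -/
noncomputable def A (g : ℝ → ℂ) : ℂ := (2 * π : ℂ)⁻¹ * ∫ θ in (0 : ℝ)..(2 * π), g θ

theorem ii {g : ℝ → ℂ} (hg : Continuous g) : IntervalIntegrable g volume 0 (2 * π) :=
  hg.intervalIntegrable _ _

theorem A_add {g₁ g₂ : ℝ → ℂ} (h₁ : Continuous g₁) (h₂ : Continuous g₂) :
    A (fun θ => g₁ θ + g₂ θ) = A g₁ + A g₂ := by
  unfold A
  rw [intervalIntegral.integral_add (ii h₁) (ii h₂)]
  ring

theorem A_sub {g₁ g₂ : ℝ → ℂ} (h₁ : Continuous g₁) (h₂ : Continuous g₂) :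
    A (fun θ => g₁ θ - g₂ θ) = A g₁ - A g₂ := by
  unfold A
  rw [intervalIntegral.integral_sub (ii h₁) (ii h₂)]
  ring

theorem A_const_mul (a : ℂ) (g : ℝ → ℂ) : A (fun θ => a * g θ) = a * A g := by
  unfold A
  rw [intervalIntegral.integral_const_mul]
  ring

theorem A_mul_const (a : ℂ) (g : ℝ → ℂ) : A (fun θ => g θ * a) = A g * a := by
  unfold A
  rw [intervalIntegral.integral_mul_const]
  ring

theorem A_sum {ι : Type} (s : Finset ι) (g : ι → ℝ → ℂ) (h : ∀ i ∈ s, Continuous (g i)) :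
    A (fun θ => ∑ i ∈ s, g i θ) = ∑ i ∈ s, A (g i) := by
  unfold A
  rw [intervalIntegral.integral_finsetSum (fun i hi => ii (h i hi)), Finset.mul_sum]

theorem A_conj (g : ℝ → ℂ) : A (fun θ => conj (g θ)) = conj (A g) := by
  unfold A
  rw [map_mul, ← intervalIntegral_conj]
  congr 1
  rw [map_inv₀, map_mul, Complex.conj_ofReal, Complex.conj_ofNat]

theorem A_ofReal (g : ℝ → ℝ) :
    A (fun θ => (g θ : ℂ)) = (((2 * π)⁻¹ * ∫ θ in (0 : ℝ)..(2 * π), g θ : ℝ) : ℂ) := by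
  unfold A
  rw [intervalIntegral.integral_ofReal]
  push_cast
  ring

/-- Fourier coefficients -/
noncomputable def fc (g : ℝ → ℂ) (k : ℤ) : ℂ := A (fun θ => g θ * ch (-k) θ)

theorem fc_eq (g : ℝ → ℂ) (k : ℤ) :
    fc g k = fourierCoeffOn (show (0 : ℝ) < 2 * π by positivity) g k := by
  rw [fourierCoeffOn_eq_integral]
  unfold fc A
  rw [sub_zero, Complex.real_smul]
  congr 1
  · push_cast
    rw [one_div]
  · apply intervalIntegral.integral_congr
    intro θ _
    simp only [smul_eq_mul]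
    rw [mul_comm]
    congr 1
    rw [fourier_coe_apply]
    unfold ch
    congr 1
    have hpi : (π : ℂ) ≠ 0 := by exact_mod_cast Real.pi_ne_zero
    push_cast
    field_simp

theorem parseval {g : ℝ → ℂ} (hg : Continuous g) :
    HasSum (fun k : ℤ => ‖fc g k‖ ^ 2) ((2 * π)⁻¹ * ∫ θ in (0 : ℝ)..(2 * π), ‖g θ‖ ^ 2) := by
  have hL2 : MemLp g 2 (volume.restrict (Set.Ioc 0 (2 * π))) := by
    have hc : ContinuousOn g (Set.Icc 0 (2 * π)) := hg.continuousOn
    obtain ⟨C, hC⟩ := isCompact_Icc.exists_bound_of_continuousOn hc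
    refine MemLp.of_bound hg.aestronglyMeasurable C ?_
    rw [ae_restrict_iff' measurableSet_Ioc]
    exact Filter.Eventually.of_forall fun x hx => hC x (Set.Ioc_subset_Icc_self hx)
  have := hasSum_sq_fourierCoeffOn (show (0 : ℝ) < 2 * π by positivity) hL2
  simp only [sub_zero, smul_eq_mul] at this
  convert this using 4 with k
  rw [fc_eq]

theorem fc_add {g₁ g₂ : ℝ → ℂ} (h₁ : Continuous g₁) (h₂ : Continuous g₂) (k : ℤ) :
    fc (fun θ => g₁ θ + g₂ θ) k = fc g₁ k + fc g₂ k := by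
  unfold fc
  rw [← A_add (by fun_prop) (by fun_prop)]
  congr 1
  ext θ
  ring

theorem fc_const_mul (a : ℂ) (g : ℝ → ℂ) (k : ℤ) : fc (fun θ => a * g θ) k = a * fc g k := by
  unfold fc
  rw [← A_const_mul]
  congr 1
  ext θ
  ring

/-- polarised Parseval identity -/
theorem parseval2 {g₁ g₂ : ℝ → ℂ} (h₁ : Continuous g₁) (h₂ : Continuous g₂) :
    HasSum (fun k : ℤ => fc g₁ k * conj (fc g₂ k)) (A (fun θ => g₁ θ * conj (g₂ θ))) := by
  have pol : ∀ x y : ℂ, x * conj y = (1 / 4 : ℂ) * ((‖x + y‖ ^ 2 : ℝ) : ℂ)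
      - (1 / 4 : ℂ) * ((‖x + (-1) * y‖ ^ 2 : ℝ) : ℂ)
      + (I / 4) * ((‖x + I * y‖ ^ 2 : ℝ) : ℂ) - (I / 4) * ((‖x + (-I) * y‖ ^ 2 : ℝ) : ℂ) := by
    intro x y
    have hn : ∀ z : ℂ, ((‖z‖ ^ 2 : ℝ) : ℂ) = z * conj z := by
      intro z
      rw [Complex.mul_conj, Complex.normSq_eq_norm_sq]
    simp only [hn, map_add, map_mul, map_neg, map_one, Complex.conj_I]
    have hI : I * I = -1 := Complex.I_mul_I
    linear_combination ((x * conj y - conj x * y) / 2) * hI
  have hs : ∀ a : ℂ, HasSum (fun k : ℤ => ((‖fc g₁ k + a * fc g₂ k‖ ^ 2 : ℝ) : ℂ))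
      (A (fun θ => ((‖g₁ θ + a * g₂ θ‖ ^ 2 : ℝ) : ℂ))) := by
    intro a
    have hc : Continuous (fun θ => g₁ θ + a * g₂ θ) := by fun_prop
    have h := parseval hc
    rw [A_ofReal]
    have h' := (Complex.hasSum_ofReal).mpr h
    convert h' using 3 with k
    rw [fc_add h₁ (by fun_prop), fc_const_mul]
  have h1 := hs 1
  have h2 := hs (-1)
  have h3 := hs I
  have h4 := hs (-I)
  simp only [one_mul] at h1
  have := (((h1.mul_left (1 / 4 : ℂ)).sub (h2.mul_left (1 / 4 : ℂ))).add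
    (h3.mul_left (I / 4))).sub (h4.mul_left (I / 4))
  have e1 : (fun k : ℤ => fc g₁ k * conj (fc g₂ k)) = _ := funext fun k => pol _ _
  have e2 : (fun θ : ℝ => g₁ θ * conj (g₂ θ)) = _ := funext fun θ => pol _ _
  rw [e1, e2, A_sub (by fun_prop) (by fun_prop), A_add (by fun_prop) (by fun_prop),
      A_sub (by fun_prop) (by fun_prop), A_const_mul, A_const_mul, A_const_mul, A_const_mul]
  exact this

end Pool.Agent.MP_3466b8_an
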