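import Pool.Agent.MP_3466b8_an.Outer

/-!
The key inequality for critical points.
-/

set_option autoImplicit false

open Complex MeasureTheory intervalIntegral
open scoped Real ComplexConjugate

namespace Pool.Agent.MP_3466b8_an

variable {n : ℕ}

/-- Fourier coefficients of the density -/
noncomputable def rc (a : Fin n → ℂ) (k : ℤ) : ℂ := fc (fun θ => (rho a θ : ℂ)) k

/-- Fourier coefficients of `rho * f` -/
noncomputable def uc (a : Fin n → ℂ) (k : ℤ) : ℂ := fc (fun θ => (rho a θ : ℂ) * tp a θ) k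

theorem rc_neg (a : Fin n → ℂ) (k : ℤ) : rc a (-k) = conj (rc a k) := by
  unfold rc fc
  rw [← A_conj]
  congr 1
  ext θ
  rw [map_mul, conj_ch, Complex.conj_ofReal]

theorem uc_eq (a : Fin n → ℂ) (l : ℤ) :
    uc a l = ∑ i : Fin n, a i * rc a (l - ((i : ℤ) + 1)) := by
  unfold uc rc fc
  have h1 : (fun θ => (rho a θ : ℂ) * tp a θ * ch (-l) θ)
      = fun θ => ∑ i : Fin n, a i * ((rho a θ : ℂ) * ch (-(l - ((i : ℤ) + 1))) θ) := by
    ext θ
    unfold tp
    rw [Finset.mul_sum, Finset.sum_mul]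
    apply Finset.sum_congr rfl
    intro i _
    have : ch (-(l - ((i : ℤ) + 1))) θ = ch ((i : ℤ) + 1) θ * ch (-l) θ := by
      rw [← ch_add]
      congr 1
      ring
    rw [this]
    ring
  rw [h1, A_sum]
  · apply Finset.sum_congr rfl
    intro i _
    rw [A_const_mul]
  · intro i _
    fun_prop

theorem summable_rc (a : Fin n → ℂ) : Summable (fun k : ℤ => ‖rc a k‖ ^ 2) :=
  (parseval (g := fun θ => (rho a θ : ℂ)) (by fun_prop)).summable

theorem summable_uc (a : Fin n → ℂ) : Summable (fun k : ℤ => ‖uc a k‖ ^ 2) :=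
  (parseval (g := fun θ => (rho a θ : ℂ) * tp a θ) (by fun_prop)).summable

/-- Cauchy-Schwarz for series -/
theorem cs_hasSum {x y : ℤ → ℂ} {S : ℂ} {X Y : ℝ} (h : HasSum (fun k => x k * conj (y k)) S)
    (hx : HasSum (fun k => ‖x k‖ ^ 2) X) (hy : HasSum (fun k => ‖y k‖ ^ 2) Y) :
    ‖S‖ ^ 2 ≤ X * Y := by
  have h1 : Filter.Tendsto (fun s : Finset ℤ => ‖∑ k ∈ s, x k * conj (y k)‖ ^ 2) Filter.atTop
      (nhds (‖S‖ ^ 2)) := (h.norm).pow 2
  refine le_of_tendsto h1 (Filter.Eventually.of_forall fun s => ?_)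
  have e1 : ‖∑ k ∈ s, x k * conj (y k)‖ ≤ ∑ k ∈ s, ‖x k‖ * ‖y k‖ := by
    refine (norm_sum_le _ _).trans (le_of_eq ?_)
    apply Finset.sum_congr rfl
    intro k _
    rw [norm_mul, RCLike.norm_conj]
  have e2 : (∑ k ∈ s, ‖x k‖ * ‖y k‖) ^ 2 ≤ (∑ k ∈ s, ‖x k‖ ^ 2) * ∑ k ∈ s, ‖y k‖ ^ 2 :=
    Finset.sum_mul_sq_le_sq_mul_sq _ _ _
  have e3 : ∑ k ∈ s, ‖x k‖ ^ 2 ≤ X := sum_le_hasSum s (fun _ _ => by positivity) hx
  have e4 : ∑ k ∈ s, ‖y k‖ ^ 2 ≤ Y := sum_le_hasSum s (fun _ _ => by positivity) hy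
  calc ‖∑ k ∈ s, x k * conj (y k)‖ ^ 2 ≤ (∑ k ∈ s, ‖x k‖ * ‖y k‖) ^ 2 := by
        gcongr
    _ ≤ _ := e2
    _ ≤ X * Y := by
        apply mul_le_mul e3 e4 (Finset.sum_nonneg fun _ _ => by positivity)
        exact le_trans (Finset.sum_nonneg fun _ _ => by positivity) e3

/-- squares of the Taylor coefficients of the outer function -/
noncomputable def bq (a : Fin n → ℂ) (m : ℕ) : ℝ := ‖fc (hh a) (m : ℤ)‖ ^ 2

theorem hasSum_K_nat (a : Fin n → ℂ) :
    HasSum (fun m : ℕ => (m : ℝ) * bq a m) (Kq a) := by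
  have h := hasSum_K a
  have hinj : Function.Injective (fun m : ℕ => (m : ℤ)) := Nat.cast_injective
  rw [← hinj.hasSum_iff] at h
  · convert h using 1
    ext m
    simp [bq]
  · intro k hk
    have hk' : k < 0 := by
      by_contra hcon
      push Not at hcon
      exact hk ⟨k.toNat, by simp [hcon]⟩
    rw [fc_hh_neg a hk']
    simp

theorem summable_bq (a : Fin n → ℂ) : Summable (bq a) := by
  have h := (parseval (g := hh a) (by fun_prop)).summable
  exact h.comp_injective (i := fun m : ℕ => (m : ℤ)) Nat.cast_injective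

/-- tails -/
noncomputable def Tq (a : Fin n → ℂ) (j : ℕ) : ℝ := ∑' m : ℕ, if j < m then bq a m else 0

theorem hasSum_T (a : Fin n → ℂ) (j : ℕ) :
    HasSum (fun m : ℕ => if j < m then bq a m else 0) (Tq a j) := by
  apply Summable.hasSum
  refine Summable.of_nonneg_of_le (fun m => ?_) (fun m => ?_) (summable_bq a)
  · split_ifs
    · unfold bq; positivity
    · exact le_refl _
  · split_ifs
    · exact le_refl _
    · unfold bq; positivity

theorem sum_T_le (a : Fin n → ℂ) (J : ℕ) : ∑ j ∈ Finset.range J, Tq a j ≤ Kq a := by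
  have h1 : HasSum (fun m : ℕ => ∑ j ∈ Finset.range J, if j < m then bq a m else 0)
      (∑ j ∈ Finset.range J, Tq a j) := hasSum_sum fun j _ => hasSum_T a j
  refine hasSum_le (fun m => ?_) h1 (hasSum_K_nat a)
  rw [← Finset.sum_filter, Finset.sum_const, nsmul_eq_mul]
  have hb : 0 ≤ bq a m := by unfold bq; positivity
  apply mul_le_mul_of_nonneg_right _ hb
  have : (Finset.filter (fun j => j < m) (Finset.range J)).card ≤ m := by
    calc _ ≤ (Finset.range m).card := by
          apply Finset.card_le_card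
          intro j hj
          simp at hj ⊢
          exact hj.2
      _ = m := Finset.card_range m
  exact_mod_cast this

/-- the mass of `rho |f| ^ 2` -/
noncomputable def Mq (a : Fin n → ℂ) : ℝ := (2 * π)⁻¹ * ∫ θ in (0 : ℝ)..(2 * π), rho a θ * ‖tp a θ‖ ^ 2

theorem uc_neg_le (a : Fin n → ℂ) (j : ℕ) : ‖uc a (-j)‖ ^ 2 ≤ Mq a * Tq a j := by
  -- Parseval
  have h1 := parseval2 (g₁ := fun θ => hh a θ * tp a θ) (g₂ := fun θ => hh a θ * ch (-j) θ)
    (by fun_prop) (by fun_prop)
  have e1 : A (fun θ => hh a θ * tp a θ * conj (hh a θ * ch (-j) θ)) = uc a (-j) := by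
    unfold uc fc
    congr 1
    ext θ
    beta_reduce
    rw [← hh_mul_conj, map_mul, conj_ch]
    ring
  have e2 : ∀ k : ℤ, fc (fun θ => hh a θ * ch (-j) θ) k = fc (hh a) (k + j) := by
    intro k
    unfold fc
    congr 1
    ext θ
    have : ch (-(k + (j : ℤ))) θ = ch (-j) θ * ch (-k) θ := by
      rw [← ch_add]
      congr 1
      ring
    rw [this]
    ring
  rw [e1] at h1
  simp only [e2] at h1
  have h2 : HasSum (fun k : ℤ => fc (fun θ => hh a θ * tp a θ) k *
      conj (if 1 ≤ k then fc (hh a) (k + j) else 0)) (uc a (-j)) := by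
    convert h1 using 2 with k
    by_cases hk : 1 ≤ k
    · simp [hk]
    · rw [fc_hf_nonpos a (by omega)]
      simp
  have h3 : HasSum (fun k : ℤ => ‖fc (fun θ => hh a θ * tp a θ) k‖ ^ 2) (Mq a) := by
    have := parseval (g := fun θ => hh a θ * tp a θ) (by fun_prop)
    have h5 : Mq a = (2 * π)⁻¹ * ∫ θ in (0 : ℝ)..(2 * π), ‖hh a θ * tp a θ‖ ^ 2 := by
      unfold Mq
      congr 2
      ext θ
      rw [norm_mul, mul_pow]
      congr 1
      have h4 := hh_mul_conj a θ
      rw [Complex.mul_conj, Complex.normSq_eq_norm_sq] at h4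
      exact_mod_cast h4.symm
    rw [h5]
    exact this
  have h4 : HasSum (fun k : ℤ => ‖(if 1 ≤ k then fc (hh a) (k + j) else 0 : ℂ)‖ ^ 2) (Tq a j) := by
    have hinj : Function.Injective (fun m : ℕ => (m : ℤ) - j) := by
      intro m m' h
      simp only at h
      omega
    rw [← hinj.hasSum_iff]
    · convert hasSum_T a j using 1
      ext m
      simp only [Function.comp]
      by_cases hm : j < m
      · rw [if_pos hm, if_pos (by omega)]
        unfold bq
        congr 3
        ring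
      · rw [if_neg hm, if_neg (by omega)]
        simp
    · intro k hk
      rw [if_neg]
      · simp
      · intro hk1
        exact hk ⟨(k + j).toNat, by simp only; omega⟩
  exact cs_hasSum h2 h3 h4

/-- the signed coefficients -/
noncomputable def xc (a : Fin n → ℂ) (l : ℤ) : ℂ :=
  ∑ i : Fin n, a i * ((Int.sign (l - ((i : ℤ) + 1)) : ℤ) * rc a (l - ((i : ℤ) + 1)))

theorem summable_shift (a : Fin n → ℂ) (p : ℤ) : Summable (fun l : ℤ => ‖rc a (l - p)‖ ^ 2) :=
  (summable_rc a).comp_injective (i := fun l : ℤ => l - p) (sub_left_injective)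

theorem norm_sign_le (k : ℤ) : ‖((Int.sign k : ℤ) : ℂ)‖ ≤ 1 := by
  rcases Int.sign_trichotomy k with h | h | h <;> rw [h] <;> simp

theorem summable_gam (a : Fin n → ℂ) (p q : ℤ) : Summable (fun l : ℤ =>
    rc a (l - p) * conj ((Int.sign (l - q) : ℤ) * rc a (l - q))) := by
  refine Summable.of_norm_bounded (g := fun l => ‖rc a (l - p)‖ ^ 2 + ‖rc a (l - q)‖ ^ 2)
    ((summable_shift a p).add (summable_shift a q)) (fun l => ?_)
  rw [norm_mul, RCLike.norm_conj, norm_mul]
  have h1 := norm_sign_le (l - q)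
  have h2 : ‖((Int.sign (l - q) : ℤ) : ℂ)‖ * ‖rc a (l - q)‖ ≤ ‖rc a (l - q)‖ := by
    have := mul_le_mul_of_nonneg_right h1 (norm_nonneg (rc a (l - q)))
    linarith
  have h3 : ‖rc a (l - p)‖ * (‖((Int.sign (l - q) : ℤ) : ℂ)‖ * ‖rc a (l - q)‖)
      ≤ ‖rc a (l - p)‖ * ‖rc a (l - q)‖ := mul_le_mul_of_nonneg_left h2 (norm_nonneg _)
  nlinarith [sq_nonneg (‖rc a (l - p)‖ - ‖rc a (l - q)‖), sq_nonneg (‖rc a (l - p)‖),
    sq_nonneg (‖rc a (l - q)‖)]

/-- the antihermitian matrix -/
noncomputable def gam (a : Fin n → ℂ) (p q : ℤ) : ℂ :=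
  ∑' l : ℤ, rc a (l - p) * conj ((Int.sign (l - q) : ℤ) * rc a (l - q))

theorem conj_gam (a : Fin n → ℂ) (p q : ℤ) : conj (gam a p q) = - gam a q p := by
  have h1 : conj (gam a p q) = ∑' l : ℤ,
      conj (rc a (l - p) * conj ((Int.sign (l - q) : ℤ) * rc a (l - q))) := by
    unfold gam
    rw [Complex.conj_tsum]
  have h2 : (∑' l : ℤ, conj (rc a (l - p) * conj ((Int.sign (l - q) : ℤ) * rc a (l - q))))
      = ∑' l : ℤ, conj (rc a ((p + q - l) - p) *
        conj ((Int.sign ((p + q - l) - q) : ℤ) * rc a ((p + q - l) - q))) := by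
    rw [← (Equiv.subLeft (p + q)).tsum_eq]
    rfl
  rw [h1, h2]
  unfold gam
  rw [← tsum_neg]
  apply tsum_congr
  intro l
  have e1 : p + q - l - p = -(l - q) := by ring
  have e2 : p + q - l - q = -(l - p) := by ring
  have e3 : ∀ k : ℤ, conj ((Int.sign k : ℤ) : ℂ) = ((Int.sign k : ℤ) : ℂ) := fun k =>
    map_intCast _ _
  rw [e1, e2, map_mul, map_mul, map_mul, map_mul, rc_neg, rc_neg, Int.sign_neg, Int.cast_neg,
    map_neg, map_neg, e3, e3, Complex.conj_conj, Complex.conj_conj]
  ring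

theorem hasSum_ux (a : Fin n → ℂ) :
    HasSum (fun l : ℤ => (uc a l * conj (xc a l)).re) 0 := by
  have h1 : HasSum (fun l : ℤ => ∑ i : Fin n, ∑ j : Fin n, (a i * conj (a j)) *
      (rc a (l - ((i : ℤ) + 1)) * conj ((Int.sign (l - ((j : ℤ) + 1)) : ℤ)
        * rc a (l - ((j : ℤ) + 1)))))
      (∑ i : Fin n, ∑ j : Fin n, (a i * conj (a j)) * gam a ((i : ℤ) + 1) ((j : ℤ) + 1)) := by
    apply hasSum_sum
    intro i _
    apply hasSum_sum
    intro j _
    exact (summable_gam a _ _).hasSum.mul_left _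
  have h2 := Complex.hasSum_re h1
  convert h2 using 1
  · ext l
    congr 1
    unfold xc
    rw [uc_eq, map_sum, Finset.sum_mul_sum]
    apply Finset.sum_congr rfl
    intro i _
    apply Finset.sum_congr rfl
    intro j _
    rw [map_mul]
    ring
  · -- the total is imaginary
    set S := ∑ i : Fin n, ∑ j : Fin n, (a i * conj (a j)) * gam a ((i : ℤ) + 1) ((j : ℤ) + 1)
      with hS
    have h3 : conj S = - S := by
      have h4 : conj S = ∑ i : Fin n, ∑ j : Fin n,
          -((a j * conj (a i)) * gam a ((j : ℤ) + 1) ((i : ℤ) + 1)) := by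
        rw [hS, map_sum]
        apply Finset.sum_congr rfl
        intro i _
        rw [map_sum]
        apply Finset.sum_congr rfl
        intro j _
        rw [map_mul, map_mul, Complex.conj_conj, conj_gam]
        ring
      rw [h4, Finset.sum_comm, hS]
      simp only [Finset.sum_neg_distrib]
    have h5 := congrArg Complex.re h3
    rw [Complex.conj_re, Complex.neg_re] at h5
    linarith

theorem antisymm_sum (w : Fin n → ℝ) (Y : Fin n → Fin n → ℝ) (hY : ∀ i j, Y i j = - Y j i) :
    ∑ i, ∑ j, w i * Y i j = ∑ i, ∑ j, if j < i then (w i - w j) * Y i j else 0 := by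
  have h1 : (∑ i, ∑ j, if j < i then (w i - w j) * Y i j else 0)
      = (∑ i, ∑ j, if j < i then w i * Y i j else 0)
        + ∑ i, ∑ j, if j < i then w j * Y j i else 0 := by
    rw [← Finset.sum_add_distrib]
    apply Finset.sum_congr rfl
    intro i _
    rw [← Finset.sum_add_distrib]
    apply Finset.sum_congr rfl
    intro j _
    split_ifs
    · rw [hY j i]
      ring
    · ring
  have h2 : (∑ i, ∑ j, if j < i then w j * Y j i else 0)
      = ∑ i, ∑ j, if i < j then w i * Y i j else 0 := Finset.sum_comm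
  rw [h1, h2, ← Finset.sum_add_distrib]
  apply Finset.sum_congr rfl
  intro i _
  rw [← Finset.sum_add_distrib]
  apply Finset.sum_congr rfl
  intro j _
  rcases lt_trichotomy i j with h | h | h
  · simp [h, not_lt.mpr h.le]
  · subst h
    have : Y i i = 0 := by linarith [hY i i]
    simp [this]
  · simp [h, not_lt.mpr h.le]

/-- the entries -/
noncomputable def Xe (a : Fin n → ℂ) (i j : Fin n) : ℂ :=
  a i * conj (a j) * (((Int.sign ((i : ℤ) - j) : ℤ) : ℂ) * conj (rc a ((i : ℤ) - j)))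

theorem Xe_antisymm (a : Fin n → ℂ) (i j : Fin n) : (Xe a i j).re = - (Xe a j i).re := by
  have h : conj (Xe a i j) = - Xe a j i := by
    unfold Xe
    have e1 : (i : ℤ) - j = -((j : ℤ) - i) := by ring
    have e3 : ∀ k : ℤ, conj ((Int.sign k : ℤ) : ℂ) = ((Int.sign k : ℤ) : ℂ) := fun k =>
      map_intCast _ _
    rw [e1, rc_neg, Int.sign_neg, Int.cast_neg, map_mul, map_mul, map_mul, map_neg, e3,
      Complex.conj_conj, Complex.conj_conj]
    ring
  have h2 := congrArg Complex.re h
  rw [Complex.conj_re, Complex.neg_re] at h2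
  exact h2

theorem Kq_eq (a : Fin n → ℂ) :
    Kq a = ∑ i : Fin n, ∑ j : Fin n, ((i : ℝ) + 1) * (Xe a i j).re := by
  rw [antisymm_sum (fun i : Fin n => (i : ℝ) + 1) (fun i j => (Xe a i j).re)
    (fun i j => Xe_antisymm a i j)]
  unfold Kq
  have h1 : A (fun θ => (rho a θ : ℂ) * Dd a θ) = ∑ i : Fin n, ∑ j : Fin n,
      if j < i then (((i : ℤ) - (j : ℤ) : ℤ) : ℂ) * (a i * conj (a j)) * conj (rc a ((i : ℤ) - j))
        else 0 := by
    have e1 : (fun θ => (rho a θ : ℂ) * Dd a θ) = fun θ => ∑ i : Fin n, ∑ j : Fin n,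
        if j < i then (((i : ℤ) - (j : ℤ) : ℤ) : ℂ) * (a i * conj (a j)) *
          ((rho a θ : ℂ) * ch ((i : ℤ) - (j : ℤ)) θ) else 0 := by
      ext θ
      unfold Dd
      rw [Finset.mul_sum]
      apply Finset.sum_congr rfl
      intro i _
      rw [Finset.mul_sum]
      apply Finset.sum_congr rfl
      intro j _
      split_ifs
      · ring
      · ring
    rw [e1, A_sum]
    · apply Finset.sum_congr rfl
      intro i _
      rw [A_sum]
      · apply Finset.sum_congr rfl
        intro j _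
        split_ifs with hij
        · rw [A_const_mul]
          congr 1
          rw [← rc_neg]
          unfold rc fc
          rw [neg_neg]
        · unfold A
          simp
      · intro j _
        split_ifs <;> fun_prop
    · intro i _
      refine continuous_finsetSum _ fun j _ => ?_
      split_ifs <;> fun_prop
  rw [h1, Complex.re_sum]
  apply Finset.sum_congr rfl
  intro i _
  rw [Complex.re_sum]
  apply Finset.sum_congr rfl
  intro j _
  split_ifs with hij
  · have hs : Int.sign ((i : ℤ) - j) = 1 := by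
      apply Int.sign_eq_one_of_pos
      have : (j : ℕ) < i := hij
      omega
    unfold Xe
    rw [hs]
    have e2 : (((i : ℤ) - (j : ℤ) : ℤ) : ℂ) = (((i : ℝ) + 1 - ((j : ℝ) + 1) : ℝ) : ℂ) := by
      push_cast
      ring
    rw [e2, mul_assoc, Complex.re_ofReal_mul]
    congr 2
    push_cast
    ring
  · simp

theorem xc_of_nonpos (a : Fin n → ℂ) {l : ℤ} (hl : l ≤ 0) : xc a l = - uc a l := by
  unfold xc
  rw [uc_eq, ← Finset.sum_neg_distrib]
  apply Finset.sum_congr rfl
  intro i _
  rw [Int.sign_eq_neg_one_of_neg (by omega)]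
  push_cast
  ring

theorem xc_of_gt (a : Fin n → ℂ) {l : ℤ} (hl : (n : ℤ) < l) : xc a l = uc a l := by
  unfold xc
  rw [uc_eq]
  apply Finset.sum_congr rfl
  intro i _
  rw [Int.sign_eq_one_of_pos (by omega)]
  push_cast
  ring

/-- sum of the squares of the coefficients of nonpositive index -/
theorem summable_uneg (a : Fin n → ℂ) : Summable (fun j : ℕ => ‖uc a (-(j : ℤ))‖ ^ 2) := by
  have hinj : Function.Injective (fun j : ℕ => -(j : ℤ)) := by
    intro i j h
    simpa using h
  exact (summable_uc a).comp_injective hinj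

theorem first_ineq (a : Fin n → ℂ) :
    ∑ i : Fin n, (uc a ((i : ℤ) + 1) * conj (xc a ((i : ℤ) + 1))).re
      ≤ ∑' j : ℕ, ‖uc a (-(j : ℤ))‖ ^ 2 := by
  set φ : ℤ → ℝ := fun l => (uc a l * conj (xc a l)).re with hφ
  have h0 : HasSum φ 0 := hasSum_ux a
  set f1 : ℤ → ℝ := fun l => if l ≤ 0 then -‖uc a l‖ ^ 2 else 0 with hf1
  set f2 : ℤ → ℝ := fun l => ∑ i : Fin n, if l = (i : ℤ) + 1 then φ ((i : ℤ) + 1) else 0 with hf2
  have h1 : HasSum f1 (-∑' j : ℕ, ‖uc a (-(j : ℤ))‖ ^ 2) := by
    have hinj : Function.Injective (fun j : ℕ => -(j : ℤ)) := by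
      intro i j h
      simpa using h
    rw [← hinj.hasSum_iff]
    · have := (summable_uneg a).hasSum.neg
      have e : f1 ∘ (fun j : ℕ => -(j : ℤ)) = fun j : ℕ => -‖uc a (-(j : ℤ))‖ ^ 2 := by
        ext j
        simp [hf1]
      rw [e]
      exact this
    · intro l hl
      simp only [hf1]
      rw [if_neg]
      intro hl0
      exact hl ⟨(-l).toNat, by simp only; omega⟩
  have h2 : HasSum f2 (∑ i : Fin n, φ ((i : ℤ) + 1)) := by
    apply hasSum_sum
    intro i _
    exact hasSum_ite_eq _ _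
  have hle : ∀ l, f1 l + f2 l ≤ φ l := by
    intro l
    by_cases hl0 : l ≤ 0
    · have e1 : f2 l = 0 := by
        simp only [hf2]
        apply Finset.sum_eq_zero
        intro i _
        rw [if_neg]
        omega
      have e2 : φ l = -‖uc a l‖ ^ 2 := by
        simp only [hφ]
        rw [xc_of_nonpos a hl0, map_neg, mul_neg, Complex.mul_conj, Complex.normSq_eq_norm_sq,
          Complex.neg_re, Complex.ofReal_re]
      rw [e1, e2]
      simp [hf1, hl0]
    · have e1 : f1 l = 0 := by simp [hf1, hl0]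
      by_cases hln : l ≤ n
      · have e2 : f2 l = φ l := by
          simp only [hf2]
          have hi0 : (l - 1).toNat < n := by omega
          rw [Finset.sum_eq_single (⟨(l - 1).toNat, hi0⟩ : Fin n)]
          · have : (((⟨(l - 1).toNat, hi0⟩ : Fin n) : ℕ) : ℤ) + 1 = l := by
              simp only
              omega
            rw [if_pos this.symm, this]
          · intro i _ hi
            rw [if_neg]
            intro h
            apply hi
            ext
            simp only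
            omega
          · intro h
            exact absurd (Finset.mem_univ _) h
        rw [e1, e2, zero_add]
      · have e2 : f2 l = 0 := by
          simp only [hf2]
          apply Finset.sum_eq_zero
          intro i _
          rw [if_neg]
          omega
        have e3 : φ l = ‖uc a l‖ ^ 2 := by
          simp only [hφ]
          rw [xc_of_gt a (by omega), Complex.mul_conj, Complex.normSq_eq_norm_sq,
            Complex.ofReal_re]
        rw [e1, e2, e3]
        have := sq_nonneg ‖uc a l‖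
        linarith
  have := hasSum_le hle (h1.add h2) h0
  linarith

theorem uneg_le (a : Fin n → ℂ) (hM : 0 ≤ Mq a) :
    ∑' j : ℕ, ‖uc a (-(j : ℤ))‖ ^ 2 ≤ Mq a * Kq a := by
  apply Real.tsum_le_of_sum_range_le
  · intro j
    positivity
  · intro J
    calc ∑ j ∈ Finset.range J, ‖uc a (-(j : ℤ))‖ ^ 2
        ≤ ∑ j ∈ Finset.range J, Mq a * Tq a j := Finset.sum_le_sum fun j _ => uc_neg_le a j
      _ = Mq a * ∑ j ∈ Finset.range J, Tq a j := by rw [Finset.mul_sum]
      _ ≤ Mq a * Kq a := mul_le_mul_of_nonneg_left (sum_T_le a J) hM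

theorem Mq_nonneg (a : Fin n → ℂ) : 0 ≤ Mq a := by
  unfold Mq
  apply mul_nonneg (by positivity)
  apply intervalIntegral.integral_nonneg (show (0 : ℝ) ≤ 2 * π by positivity)
  intro θ _
  unfold rho
  positivity

theorem Mq_eq (a : Fin n → ℂ) : Mq a = ∑ i : Fin n, (conj (a i) * uc a ((i : ℤ) + 1)).re := by
  have h1 : A (fun θ => ((rho a θ * ‖tp a θ‖ ^ 2 : ℝ) : ℂ))
      = ∑ i : Fin n, conj (a i) * uc a ((i : ℤ) + 1) := by
    have e1 : (fun θ => ((rho a θ * ‖tp a θ‖ ^ 2 : ℝ) : ℂ))
        = fun θ => ∑ i : Fin n, conj (a i) *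
          ((rho a θ : ℂ) * tp a θ * ch (-((i : ℤ) + 1)) θ) := by
      ext θ
      have e2 : ((rho a θ * ‖tp a θ‖ ^ 2 : ℝ) : ℂ)
          = (rho a θ : ℂ) * tp a θ * conj (tp a θ) := by
        rw [mul_assoc, Complex.mul_conj, Complex.normSq_eq_norm_sq]
        push_cast
        ring
      have e3 : conj (tp a θ) = ∑ i : Fin n, conj (a i) * ch (-((i : ℤ) + 1)) θ := by
        unfold tp
        rw [map_sum]
        apply Finset.sum_congr rfl
        intro i _
        rw [map_mul, conj_ch]
      rw [e2, e3, Finset.mul_sum]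
      apply Finset.sum_congr rfl
      intro i _
      ring
    rw [e1, A_sum]
    · apply Finset.sum_congr rfl
      intro i _
      rw [A_const_mul]
      rfl
    · intro i _
      fun_prop
  rw [A_ofReal] at h1
  have h2 := congrArg Complex.re h1
  rw [Complex.ofReal_re, Complex.re_sum] at h2
  exact h2

/-- The key inequality: at a critical point of Dirichlet norm less than one, `K = 0`. -/
theorem Kq_nonpos {a : Fin n → ℂ} {lam σ : ℝ} (hlam : 0 < lam)
    (hEL : ∀ i : Fin n, uc a ((i : ℤ) + 1) = lam * ((i : ℝ) + 1) * a i)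
    (hσ : ∑ i : Fin n, ((i : ℝ) + 1) * ‖a i‖ ^ 2 = σ) (hσ1 : σ < 1) : Kq a = 0 := by
  have hK0 : 0 ≤ Kq a := (hasSum_K_nat a).nonneg fun m => by unfold bq; positivity
  have hM : Mq a = lam * σ := by
    rw [Mq_eq, ← hσ, Finset.mul_sum]
    apply Finset.sum_congr rfl
    intro i _
    rw [hEL]
    have : conj (a i) * (lam * ((i : ℝ) + 1) * a i)
        = ((lam * (((i : ℝ) + 1) * ‖a i‖ ^ 2) : ℝ) : ℂ) := by
      have h3 : conj (a i) * a i = ((‖a i‖ ^ 2 : ℝ) : ℂ) := by
        rw [mul_comm, Complex.mul_conj, Complex.normSq_eq_norm_sq]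
      push_cast at h3 ⊢
      linear_combination (lam * ((i : ℂ) + 1)) * h3
    rw [this, Complex.ofReal_re]
  have hL : ∑ i : Fin n, (uc a ((i : ℤ) + 1) * conj (xc a ((i : ℤ) + 1))).re = lam * Kq a := by
    rw [Kq_eq, Finset.mul_sum]
    apply Finset.sum_congr rfl
    intro i _
    rw [Finset.mul_sum, hEL]
    unfold xc
    rw [map_sum, Finset.mul_sum, Complex.re_sum]
    apply Finset.sum_congr rfl
    intro j _
    have e1 : (i : ℤ) + 1 - ((j : ℤ) + 1) = (i : ℤ) - j := by ring
    have e3 : ∀ k : ℤ, conj ((Int.sign k : ℤ) : ℂ) = ((Int.sign k : ℤ) : ℂ) := fun k =>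
      map_intCast _ _
    rw [e1, map_mul, map_mul, e3]
    have e4 : (lam : ℂ) * (((i : ℕ) : ℝ) + 1) * a i *
        (conj (a j) * (((Int.sign ((i : ℤ) - j) : ℤ) : ℂ) * conj (rc a ((i : ℤ) - j))))
        = ((lam * ((i : ℝ) + 1) : ℝ) : ℂ) * Xe a i j := by
      unfold Xe
      push_cast
      ring
    rw [e4, Complex.re_ofReal_mul]
    ring
  have h1 := first_ineq a
  have h2 := uneg_le a (Mq_nonneg a)
  rw [hL] at h1
  rw [hM] at h2
  have h3 : lam * Kq a ≤ lam * σ * Kq a := h1.trans h2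
  have h4 : lam * ((1 - σ) * Kq a) ≤ 0 := by linarith
  have h5 : (1 - σ) * Kq a ≤ 0 := by
    by_contra hcon
    push Not at hcon
    have := mul_pos hlam hcon
    linarith
  have h6 : Kq a ≤ 0 := by
    by_contra hcon
    push Not at hcon
    have := mul_pos (by linarith : 0 < 1 - σ) hcon
    linarith
  linarith

/-- the average of the density -/
noncomputable def avg (a : Fin n → ℂ) : ℝ := (2 * π)⁻¹ * ∫ θ in (0 : ℝ)..(2 * π), rho a θ

theorem avg_of_K (a : Fin n → ℂ) (hK : Kq a = 0) :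
    avg a = Real.exp (∑ i : Fin n, ‖a i‖ ^ 2) := by
  have h1 := hasSum_K_nat a
  rw [hK] at h1
  have h2 : ∀ m : ℕ, 1 ≤ m → bq a m = 0 := by
    intro m hm
    have h3 := (hasSum_zero_iff_of_nonneg (fun m => by unfold bq; positivity)).mp h1
    have h4 := congrFun h3 m
    simp only [Pi.zero_apply, mul_eq_zero, Nat.cast_eq_zero] at h4
    rcases h4 with h | h
    · omega
    · exact h
  have h3 := parseval (g := hh a) (by fun_prop)
  have h4 : ∀ k : ℤ, k ≠ 0 → ‖fc (hh a) k‖ ^ 2 = 0 := by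
    intro k hk
    rcases lt_or_gt_of_ne hk with h | h
    · rw [fc_hh_neg a h]
      simp
    · have := h2 k.toNat (by omega)
      unfold bq at this
      rwa [Int.toNat_of_nonneg h.le] at this
  have h5 := h3.unique (hasSum_single 0 h4)
  have h6 : avg a = (2 * π)⁻¹ * ∫ θ in (0 : ℝ)..(2 * π), ‖hh a θ‖ ^ 2 := by
    unfold avg
    congr 2
    ext θ
    have h7 := hh_mul_conj a θ
    rw [Complex.mul_conj, Complex.normSq_eq_norm_sq] at h7
    exact_mod_cast h7.symm
  rw [h6, h5, fc_hh_zero, Complex.norm_exp, ← Real.exp_nat_mul]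
  congr 1
  have h8 : (1 / 2 : ℂ) * ∑ i : Fin n, (a i * conj (a i))
      = (((1 / 2) * ∑ i : Fin n, ‖a i‖ ^ 2 : ℝ) : ℂ) := by
    push_cast
    congr 1
    apply Finset.sum_congr rfl
    intro i _
    rw [Complex.mul_conj, Complex.normSq_eq_norm_sq]
    push_cast
    rfl
  rw [h8, Complex.ofReal_re]
  push_cast
  ring

end Pool.Agent.MP_3466b8_an
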