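import Pool.Agent.MP_3466b8_an.Poly

/-!
Passing to the limit: the sharp inequality for almost everywhere limits of polynomials.
-/

set_option autoImplicit false

open Complex MeasureTheory intervalIntegral Filter Topology
open scoped Real ComplexConjugate ENNReal

namespace Pool.Agent.MP_3466b8_an

variable {n : ℕ}

/-- closed form of the polynomial inequality -/
theorem poly_ineq' (a : Fin n → ℂ) (h : Nd a ≤ 1) : avg a ≤ Real.exp (Nd a) := by
  -- approximate by `t a`, `t → 1-`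
  have h1 : Tendsto (fun t : ℝ => avg (fun i => (t : ℂ) * a i)) (𝓝[<] 1)
      (𝓝 (avg a)) := by
    have hc : Continuous fun t : ℝ => avg (fun i => (t : ℂ) * a i) :=
      continuous_avg.comp (by fun_prop)
    have := hc.tendsto 1
    simp only [Complex.ofReal_one, one_mul] at this
    exact this.mono_left nhdsWithin_le_nhds
  have h2 : Tendsto (fun t : ℝ => Real.exp (t ^ 2 * Nd a)) (𝓝[<] 1)
      (𝓝 (Real.exp (Nd a))) := by
    have hc : Continuous fun t : ℝ => Real.exp (t ^ 2 * Nd a) := by fun_prop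
    have := hc.tendsto 1
    simp only [one_pow, one_mul] at this
    exact this.mono_left nhdsWithin_le_nhds
  refine le_of_tendsto_of_tendsto h1 h2 ?_
  have h3 : ∀ᶠ t : ℝ in 𝓝[<] 1, t ∈ Set.Ioo (0 : ℝ) 1 :=
    Ioo_mem_nhdsLT (by norm_num)
  filter_upwards [h3] with t ht
  have h4 : Nd (fun i => (t : ℂ) * a i) < 1 := by
    rw [Nd_smul]
    have h5 : t ^ 2 < 1 := by nlinarith [ht.1, ht.2]
    have h6 := Nd_nonneg a
    nlinarith [ht.1]
  have := poly_ineq _ h4
  rw [Nd_smul] at this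
  exact this

/-- the circle, as a measure -/
noncomputable def mu : Measure ℝ := volume.restrict (Set.Ioc 0 (2 * π))

instance : IsFiniteMeasure mu := by
  unfold mu
  infer_instance

theorem lint_poly (a : Fin n → ℂ) (h : Nd a ≤ 1) :
    ∫⁻ θ, ENNReal.ofReal (Real.exp (‖tp a θ‖ ^ 2)) ∂mu ≤
      ENNReal.ofReal (2 * π * Real.exp (Nd a)) := by
  have h1 : ∫⁻ θ, ENNReal.ofReal (Real.exp (‖tp a θ‖ ^ 2)) ∂mu
      = ENNReal.ofReal (∫ θ, Real.exp (‖tp a θ‖ ^ 2) ∂mu) := by
    rw [ofReal_integral_eq_lintegral_ofReal]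
    · have : Continuous fun θ => Real.exp (‖tp a θ‖ ^ 2) := by fun_prop
      unfold mu
      exact (this.integrableOn_Icc (a := 0) (b := 2 * π)).mono_set Set.Ioc_subset_Icc_self
    · exact Eventually.of_forall fun θ => (Real.exp_pos _).le
  rw [h1]
  apply ENNReal.ofReal_le_ofReal
  have h2 := poly_ineq' a h
  unfold avg rho at h2
  rw [intervalIntegral.integral_of_le (by positivity)] at h2
  unfold mu
  rw [inv_mul_eq_div, div_le_iff₀ (by positivity)] at h2
  linarith

/-- Fatou's lemma -/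
theorem lint_limit {σ : ℝ} (hσ : σ ≤ 1) (N : ℕ → ℕ) (a : (k : ℕ) → Fin (N k) → ℂ)
    (ha : ∀ k, Nd (a k) ≤ σ) (F : ℝ → ℂ)
    (hF : ∀ᵐ θ ∂mu, Tendsto (fun k => tp (a k) θ) atTop (𝓝 (F θ))) :
    ∫⁻ θ, ENNReal.ofReal (Real.exp (‖F θ‖ ^ 2)) ∂mu ≤ ENNReal.ofReal (2 * π * Real.exp σ) := by
  have h1 : ∀ᵐ θ ∂mu, ENNReal.ofReal (Real.exp (‖F θ‖ ^ 2))
      = liminf (fun k => ENNReal.ofReal (Real.exp (‖tp (a k) θ‖ ^ 2))) atTop := by
    filter_upwards [hF] with θ hθ
    symm
    apply Tendsto.liminf_eq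
    have hc : Continuous fun z : ℂ => ENNReal.ofReal (Real.exp (‖z‖ ^ 2)) :=
      ENNReal.continuous_ofReal.comp (by fun_prop)
    exact (hc.tendsto _).comp hθ
  rw [lintegral_congr_ae h1]
  refine (lintegral_liminf_le (fun k => ?_)).trans ?_
  · exact (ENNReal.continuous_ofReal.comp (by fun_prop)).measurable
  · refine liminf_le_of_le (by isBoundedDefault) ?_
    intro b hb
    obtain ⟨k, hk⟩ := hb.exists
    refine hk.trans ((lint_poly (a k) ((ha k).trans hσ)).trans ?_)
    apply ENNReal.ofReal_le_ofReal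
    have := Real.exp_le_exp.mpr (ha k)
    have hpi : 0 < 2 * π := by positivity
    nlinarith

end Pool.Agent.MP_3466b8_an
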