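import Pool.Agent.MP_3466b8_an.Rigid

/-!
The key inequality for absolutely convergent series, by approximation with polynomials.
-/

set_option autoImplicit false

open Complex MeasureTheory intervalIntegral Filter Topology
open scoped Real ComplexConjugate

namespace Pool.Agent.MP_3466b8_an

/-- splitting a sum over the integers -/
theorem hasSum_split {f : ℤ → ℝ} {E : ℝ} (hf : HasSum f E) :
    (∑' i : ℕ, f ((i : ℤ) + 1)) + ∑' j : ℕ, f (-(j : ℤ)) = E := by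
  have hinj1 : Function.Injective (fun k : ℕ => (k : ℤ) + 1) := by
    intro i j hij
    simp only at hij
    omega
  have hinj2 : Function.Injective (fun k : ℕ => -(k : ℤ)) := by
    intro i j hij
    simpa using hij
  have h1 : HasSum (fun k : ℤ => if 1 ≤ k then f k else 0) (∑' i : ℕ, f ((i : ℤ) + 1)) := by
    have h2 := (hf.summable.comp_injective hinj1).hasSum
    rw [← hinj1.hasSum_iff]
    · refine hs_congr h2 fun i => ?_
      simp only [Function.comp]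
      rw [if_pos (by omega)]
    · intro k hk
      rw [if_neg]
      intro hk1
      exact hk ⟨(k - 1).toNat, by simp only; omega⟩
  have h3 : HasSum (fun k : ℤ => if 1 ≤ k then 0 else f k) (∑' j : ℕ, f (-(j : ℤ))) := by
    have h2 := (hf.summable.comp_injective hinj2).hasSum
    rw [← hinj2.hasSum_iff]
    · refine hs_congr h2 fun i => ?_
      simp only [Function.comp]
      rw [if_neg (by omega)]
    · intro k hk
      rw [if_pos]
      by_contra hk1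
      exact hk ⟨(-k).toNat, by simp only; omega⟩
  have h4 := h1.add h3
  have h5 : HasSum f ((∑' i : ℕ, f ((i : ℤ) + 1)) + ∑' j : ℕ, f (-(j : ℤ))) := by
    refine hs_congr h4 fun k => ?_
    split_ifs <;> simp
  exact h5.unique hf

variable {n : ℕ}

/-- the linear functional of the signed coefficients is `K` -/
theorem Kq_eq_sum (a : Fin n → ℂ) (lam : ℝ) :
    ∑ i : Fin n, ((lam : ℂ) * ((i : ℝ) + 1) * a i * conj (xc a ((i : ℤ) + 1))).re
      = lam * Kq a := by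
  rw [Kq_eq, Finset.mul_sum]
  apply Finset.sum_congr rfl
  intro i _
  rw [Finset.mul_sum]
  unfold xc
  rw [map_sum, Finset.mul_sum, Complex.re_sum]
  apply Finset.sum_congr rfl
  intro j _
  have e1 : (i : ℤ) + 1 - ((j : ℤ) + 1) = (i : ℤ) - j := by ring
  have e3 : ∀ k : ℤ, conj ((Int.sign k : ℤ) : ℂ) = ((Int.sign k : ℤ) : ℂ) := fun k =>
    map_intCast _ _
  rw [e1, map_mul, map_mul, e3]
  have e4 : (lam : ℂ) * (((i : ℕ) : ℝ) + 1) * a i *
      (conj (a j) * (((Int.sign ((i : ℤ) - j) : ℤ) : ℂ) * conj (rc a ((i : ℤ) - j))))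
      = ((lam * ((i : ℝ) + 1) : ℝ) : ℂ) * Xe a i j := by
    unfold Xe
    push_cast
    ring
  rw [e4, Complex.re_ofReal_mul]
  ring

/-- the mean square of the density -/
noncomputable def Rq (a : Fin n → ℂ) : ℝ :=
  (2 * π)⁻¹ * ∫ θ in (0 : ℝ)..(2 * π), ‖((rho a θ : ℝ) : ℂ)‖ ^ 2

theorem hasSum_rc (a : Fin n → ℂ) : HasSum (fun k : ℤ => ‖rc a k‖ ^ 2) (Rq a) :=
  parseval (g := fun θ => (rho a θ : ℂ)) (by fun_prop)

/-- Young's inequality for the signed coefficients -/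
theorem sum_xc_le (a : Fin n → ℂ) (s : Finset ℤ) :
    ∑ l ∈ s, ‖xc a l‖ ^ 2 ≤ (∑ i : Fin n, ‖a i‖) ^ 2 * Rq a := by
  have h1 : ∀ l, ‖xc a l‖ ^ 2 ≤ (∑ i : Fin n, ‖a i‖) *
      ∑ i : Fin n, ‖a i‖ * ‖rc a (l - ((i : ℤ) + 1))‖ ^ 2 := by
    intro l
    have h2 : ‖xc a l‖ ≤ ∑ i : Fin n, ‖a i‖ * ‖rc a (l - ((i : ℤ) + 1))‖ := by
      unfold xc
      refine (norm_sum_le _ _).trans (Finset.sum_le_sum fun i _ => ?_)
      rw [norm_mul, norm_mul]
      apply mul_le_mul_of_nonneg_left _ (norm_nonneg _)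
      have := mul_le_mul_of_nonneg_right (norm_sign_le (l - ((i : ℤ) + 1)))
        (norm_nonneg (rc a (l - ((i : ℤ) + 1))))
      linarith
    have h3 : (∑ i : Fin n, ‖a i‖ * ‖rc a (l - ((i : ℤ) + 1))‖) ^ 2 ≤
        (∑ i : Fin n, ‖a i‖) * ∑ i : Fin n, ‖a i‖ * ‖rc a (l - ((i : ℤ) + 1))‖ ^ 2 := by
      have h4 := Finset.sum_mul_sq_le_sq_mul_sq Finset.univ
        (fun i : Fin n => Real.sqrt ‖a i‖)
        (fun i : Fin n => Real.sqrt ‖a i‖ * ‖rc a (l - ((i : ℤ) + 1))‖)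
      have e1 : ∀ i : Fin n, Real.sqrt ‖a i‖ * (Real.sqrt ‖a i‖ * ‖rc a (l - ((i : ℤ) + 1))‖)
          = ‖a i‖ * ‖rc a (l - ((i : ℤ) + 1))‖ := by
        intro i
        rw [← mul_assoc, Real.mul_self_sqrt (norm_nonneg _)]
      have e2 : ∀ i : Fin n, Real.sqrt ‖a i‖ ^ 2 = ‖a i‖ := fun i => Real.sq_sqrt (norm_nonneg _)
      have e3 : ∀ i : Fin n, (Real.sqrt ‖a i‖ * ‖rc a (l - ((i : ℤ) + 1))‖) ^ 2
          = ‖a i‖ * ‖rc a (l - ((i : ℤ) + 1))‖ ^ 2 := by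
        intro i
        rw [mul_pow, e2]
      simp only [e1, e2, e3] at h4
      exact h4
    calc ‖xc a l‖ ^ 2 ≤ (∑ i : Fin n, ‖a i‖ * ‖rc a (l - ((i : ℤ) + 1))‖) ^ 2 := by
          gcongr
      _ ≤ _ := h3
  calc ∑ l ∈ s, ‖xc a l‖ ^ 2 ≤ ∑ l ∈ s, (∑ i : Fin n, ‖a i‖) *
        ∑ i : Fin n, ‖a i‖ * ‖rc a (l - ((i : ℤ) + 1))‖ ^ 2 := Finset.sum_le_sum fun l _ => h1 l
    _ = (∑ i : Fin n, ‖a i‖) *
        ∑ i : Fin n, ‖a i‖ * ∑ l ∈ s, ‖rc a (l - ((i : ℤ) + 1))‖ ^ 2 := by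
        rw [← Finset.mul_sum, Finset.sum_comm]
        congr 1
        apply Finset.sum_congr rfl
        intro i _
        rw [Finset.mul_sum]
    _ ≤ (∑ i : Fin n, ‖a i‖) * ∑ i : Fin n, ‖a i‖ * Rq a := by
        apply mul_le_mul_of_nonneg_left _ (Finset.sum_nonneg fun _ _ => norm_nonneg _)
        apply Finset.sum_le_sum
        intro i _
        apply mul_le_mul_of_nonneg_left _ (norm_nonneg _)
        have h5 := (hasSum_rc a)
        have h6 : HasSum (fun l : ℤ => ‖rc a (l - ((i : ℤ) + 1))‖ ^ 2) (Rq a) := by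
          have := (Equiv.subRight ((i : ℤ) + 1)).hasSum_iff.mpr h5
          exact this
        exact sum_le_hasSum s (fun _ _ => by positivity) h6
    _ = _ := by
        rw [← Finset.sum_mul]
        ring

/-- The approximate key inequality. -/
theorem Kq_le (a : Fin n → ℂ) (lam : ℝ) (L : ℕ) {D : ℝ}
    (hD : ∑ i : Fin n, ‖(lam : ℂ) * ((i : ℝ) + 1) * a i - uc a ((i : ℤ) + 1)‖ ^ 2 ≤ D) :
    lam * Kq a ≤ (2 * π)⁻¹ * (∫ θ in (0 : ℝ)..(2 * π), ‖(rho a θ : ℂ) * tp a θ‖ ^ 2)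
      - ∑ i ∈ Finset.range L, ‖uc a ((i : ℤ) + 1)‖ ^ 2
      + Real.sqrt D * Real.sqrt ((∑ i : Fin n, ‖a i‖) ^ 2 * Rq a) := by
  have h1 := first_ineq a
  have h2 := hasSum_split (parseval (g := fun θ => (rho a θ : ℂ) * tp a θ) (by fun_prop))
  have h3 : ∑ i ∈ Finset.range L, ‖uc a ((i : ℤ) + 1)‖ ^ 2 ≤ ∑' i : ℕ, ‖uc a ((i : ℤ) + 1)‖ ^ 2 := by
    apply Summable.sum_le_tsum _ (fun _ _ => by positivity)
    have hinj : Function.Injective (fun k : ℕ => (k : ℤ) + 1) := by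
      intro i j hij
      simp only at hij
      omega
    exact (summable_uc a).comp_injective hinj
  have h4 : lam * Kq a = ∑ i : Fin n, (uc a ((i : ℤ) + 1) * conj (xc a ((i : ℤ) + 1))).re +
      ∑ i : Fin n, (((lam : ℂ) * ((i : ℝ) + 1) * a i - uc a ((i : ℤ) + 1)) *
        conj (xc a ((i : ℤ) + 1))).re := by
    rw [← Kq_eq_sum, ← Finset.sum_add_distrib]
    apply Finset.sum_congr rfl
    intro i _
    rw [← Complex.add_re]
    congr 1
    ring
  have h5 : ∑ i : Fin n, (((lam : ℂ) * ((i : ℝ) + 1) * a i - uc a ((i : ℤ) + 1)) *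
        conj (xc a ((i : ℤ) + 1))).re ≤
      Real.sqrt D * Real.sqrt ((∑ i : Fin n, ‖a i‖) ^ 2 * Rq a) := by
    have h6 : ∑ i : Fin n, (((lam : ℂ) * ((i : ℝ) + 1) * a i - uc a ((i : ℤ) + 1)) *
        conj (xc a ((i : ℤ) + 1))).re ≤ ∑ i : Fin n,
        ‖(lam : ℂ) * ((i : ℝ) + 1) * a i - uc a ((i : ℤ) + 1)‖ * ‖xc a ((i : ℤ) + 1)‖ := by
      apply Finset.sum_le_sum
      intro i _
      refine (Complex.re_le_norm _).trans ?_
      rw [norm_mul, RCLike.norm_conj]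
    have h7 := Real.sum_mul_le_sqrt_mul_sqrt Finset.univ
      (fun i : Fin n => ‖(lam : ℂ) * ((i : ℝ) + 1) * a i - uc a ((i : ℤ) + 1)‖)
      (fun i : Fin n => ‖xc a ((i : ℤ) + 1)‖)
    refine h6.trans (h7.trans ?_)
    apply mul_le_mul (Real.sqrt_le_sqrt hD) _ (Real.sqrt_nonneg _) (Real.sqrt_nonneg _)
    apply Real.sqrt_le_sqrt
    have hinj : Function.Injective (fun i : Fin n => (i : ℤ) + 1) := by
      intro i j hij
      simp only at hij
      ext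
      omega
    have h8 := sum_xc_le a (Finset.univ.map ⟨fun i : Fin n => (i : ℤ) + 1, hinj⟩)
    rw [Finset.sum_map] at h8
    exact h8
  have h9 : (∑' i : ℕ, ‖uc a ((i : ℤ) + 1)‖ ^ 2) + ∑' j : ℕ, ‖uc a (-(j : ℤ))‖ ^ 2
      = (2 * π)⁻¹ * ∫ θ in (0 : ℝ)..(2 * π), ‖(rho a θ : ℂ) * tp a θ‖ ^ 2 := h2
  linarith

end Pool.Agent.MP_3466b8_an
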