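import Pool.Agent.MP_3466b8_an.Radial
import Pool.Agent.MP_3466b8_an.Defs

/-!
The sharp constant.
-/

set_option autoImplicit false

open Complex MeasureTheory intervalIntegral Filter Topology
open scoped Real ComplexConjugate ENNReal

namespace Pool.Agent.MP_3466b8_an

theorem norm_expI (θ : ℝ) : ‖Complex.exp (θ * I)‖ = 1 := Complex.norm_exp_ofReal_mul_I θ

/-- radial paths are nontangential -/
theorem tendsto_radial {r : ℕ → ℝ} (hr : ∀ m, 0 ≤ r m) (hr1 : ∀ m, r m < 1)
    (hlim : Tendsto r atTop (𝓝 1)) {M : ℝ} (hM : 1 < M) (θ : ℝ) :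
    Tendsto (fun m => (r m : ℂ) * Complex.exp (θ * I)) atTop
      (𝓝[stolz M (Complex.exp (θ * I))] (Complex.exp (θ * I))) := by
  rw [tendsto_nhdsWithin_iff]
  constructor
  · have hc : Continuous fun x : ℝ => (x : ℂ) * Complex.exp (θ * I) := by fun_prop
    have := (hc.tendsto 1).comp hlim
    simpa [Function.comp_def] using this
  · refine Eventually.of_forall fun m => ?_
    constructor
    · rw [norm_circle (hr m)]
      exact hr1 m
    · have e1 : (r m : ℂ) * Complex.exp (θ * I) - Complex.exp (θ * I)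
          = ((r m - 1 : ℝ) : ℂ) * Complex.exp (θ * I) := by
        push_cast
        ring
      rw [e1, norm_mul, norm_expI, mul_one, Complex.norm_real, Real.norm_eq_abs, abs_sub_comm,
        abs_of_pos (by linarith [hr1 m]), norm_circle (hr m)]
      have := hr1 m
      nlinarith

theorem stolz_neBot {M : ℝ} (hM : 1 < M) (θ : ℝ) :
    (𝓝[stolz M (Complex.exp (θ * I))] (Complex.exp (θ * I))).NeBot := by
  have h1 := tendsto_radial (r := fun m : ℕ => 1 - 1 / ((m : ℝ) + 1)) (fun m => by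
      have : 1 / ((m : ℝ) + 1) ≤ 1 := by
        rw [div_le_one (by positivity)]
        have : (0 : ℝ) ≤ m := Nat.cast_nonneg m
        linarith
      linarith) (fun m => by
      have : 0 < 1 / ((m : ℝ) + 1) := by positivity
      linarith) (by
      have := (tendsto_one_div_add_atTop_nhds_zero_nat (𝕜 := ℝ)).const_sub 1
      simpa using this) hM θ
  exact h1.neBot

theorem bdry_eq {f : ℂ → ℂ} {θ : ℝ} {w : ℂ} (h : HasNTLimit f (Complex.exp (θ * I)) w) :
    bdry f θ = w := by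
  have hex : ∃ w, HasNTLimit f (Complex.exp (θ * I)) w := ⟨w, h⟩
  unfold bdry
  rw [dif_pos hex]
  have h1 := hex.choose_spec
  have := stolz_neBot (M := 2) (by norm_num) θ
  exact tendsto_nhds_unique (h1 2 (by norm_num)) (h 2 (by norm_num))

/-- functions in the class have square summable coefficients -/
theorem sum_tc_le {f : ℂ → ℂ} (hf : f ∈ classF) (N : ℕ) :
    ∑ i ∈ Finset.range N, ((i : ℝ) + 1) * ‖tc f i‖ ^ 2 ≤ 1 := by
  obtain ⟨hd, h0, hJ⟩ := hf
  have h1 : (∫⁻ z in Metric.ball (0 : ℂ) 1, ‖deriv f z‖ₑ ^ 2) ≤ ENNReal.ofReal π := by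
    unfold dirJ at hJ
    have h2 : (∫⁻ z in Metric.ball (0 : ℂ) 1, ‖deriv f z‖ₑ ^ 2) / ENNReal.ofReal π ≤ 1 := by
      by_contra hcon
      push Not at hcon
      have := ENNReal.one_lt_rpow hcon (show (0 : ℝ) < 1 / 2 by norm_num)
      exact absurd hJ (not_le.mpr this)
    rw [ENNReal.div_le_iff (by simpa using Real.pi_pos) ENNReal.ofReal_ne_top, one_mul] at h2
    exact h2
  have h2 := (dirichlet_ge hd N).trans h1
  rw [ENNReal.ofReal_le_ofReal_iff Real.pi_pos.le] at h2
  have hpi := Real.pi_pos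
  by_contra hcon
  push Not at hcon
  nlinarith

theorem summable_tc {f : ℂ → ℂ} (hf : f ∈ classF) :
    Summable fun i : ℕ => ((i : ℝ) + 1) * ‖tc f i‖ ^ 2 :=
  summable_of_sum_range_le (fun _ => by positivity) (sum_tc_le hf)

theorem tsum_tc_le {f : ℂ → ℂ} (hf : f ∈ classF) :
    ∑' i : ℕ, ((i : ℝ) + 1) * ‖tc f i‖ ^ 2 ≤ 1 :=
  Real.tsum_le_of_sum_range_le (fun _ => by positivity) (sum_tc_le hf)

theorem summable_sq_of {c : ℕ → ℂ} (hc : Summable fun i : ℕ => ((i : ℝ) + 1) * ‖c i‖ ^ 2) :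
    Summable fun i : ℕ => ‖c i‖ ^ 2 := by
  refine Summable.of_nonneg_of_le (fun _ => by positivity) (fun i => ?_) hc
  have : 0 ≤ (i : ℝ) * ‖c i‖ ^ 2 := by positivity
  linarith

/-- the sharp inequality for `L²` boundary functions -/
theorem lint_bdry {c : ℕ → ℂ} (hc : Summable fun i : ℕ => ((i : ℝ) + 1) * ‖c i‖ ^ 2)
    (h1 : ∑' i : ℕ, ((i : ℝ) + 1) * ‖c i‖ ^ 2 ≤ 1) {F : ℝ → ℂ} (hF : MemLp F 2 mu)
    (h : Tendsto (fun n => eLpNorm (sn c n - F) 2 mu) atTop (𝓝 0)) :
    ∫⁻ θ, ENNReal.ofReal (Real.exp (‖F θ‖ ^ 2)) ∂mu ≤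
      ENNReal.ofReal (2 * π * Real.exp (∑' i : ℕ, ((i : ℝ) + 1) * ‖c i‖ ^ 2)) := by
  obtain ⟨ns, -, hns⟩ := ae_subseq (fun n => memLp_cont (continuous_sn c n) 2) hF h
  refine lint_limit h1 ns (fun k => fun i : Fin (ns k) => c i) (fun k => ?_) F ?_
  · unfold Nd
    have := hc.sum_le_tsum (Finset.range (ns k)) (fun _ _ => by positivity)
    rw [Finset.sum_range] at this
    exact this
  · filter_upwards [hns] with θ hθ
    refine hθ.congr fun k => ?_
    rw [sn_eq_tp]

/-- a.e. bound for the nontangential boundary value -/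
theorem bdry_ae {f : ℂ → ℂ} (hf : f ∈ classF) {F : ℝ → ℂ} (hF : MemLp F 2 mu)
    (h : Tendsto (fun n => eLpNorm (sn (tc f) n - F) 2 mu) atTop (𝓝 0)) :
    ∀ᵐ θ ∂mu, bdry f θ = F θ ∨ bdry f θ = 0 := by
  set r : ℕ → ℝ := fun m : ℕ => 1 - 1 / ((m : ℝ) + 1) with hrdef
  have hr : ∀ m, 0 ≤ r m := fun m => by
    have : 1 / ((m : ℝ) + 1) ≤ 1 := by
      rw [div_le_one (by positivity)]
      have : (0 : ℝ) ≤ m := Nat.cast_nonneg m
      linarith
    simp only [hrdef]
    linarith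
  have hr1 : ∀ m, r m < 1 := fun m => by
    have : 0 < 1 / ((m : ℝ) + 1) := by positivity
    simp only [hrdef]
    linarith
  have hlim : Tendsto r atTop (𝓝 1) := by
    have := (tendsto_one_div_add_atTop_nhds_zero_nat (𝕜 := ℝ)).const_sub 1
    rw [sub_zero] at this
    exact this
  have h1 := tendsto_fr hf.1 hf.2.1 hF (fc_bdry hF h) (summable_sq_of (summable_tc hf)) hr hr1 hlim
  obtain ⟨ns, hns, hns'⟩ := ae_subseq (fun m => memLp_cont (continuous_fr hf.1 hf.2.1 (hr m)
    (hr1 m)) 2) hF h1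
  filter_upwards [hns'] with θ hθ
  by_cases hex : ∃ w, HasNTLimit f (Complex.exp (θ * I)) w
  · left
    obtain ⟨w, hw⟩ := hex
    rw [bdry_eq hw]
    have h2 := (hw 2 (by norm_num)).comp (tendsto_radial hr hr1 hlim (by norm_num) θ)
    have h3 := h2.comp hns.tendsto_atTop
    exact tendsto_nhds_unique h3 hθ
  · right
    unfold bdry
    rw [dif_neg hex]

theorem cmInt_eq (f : ℂ → ℂ) :
    cmInt f = ∫⁻ θ, ENNReal.ofReal (Real.exp (‖bdry f θ‖ ^ 2)) ∂mu := by
  unfold cmInt mu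
  rw [Measure.restrict_congr_set Ioo_ae_eq_Ioc]

theorem cmInt_le_lint {f : ℂ → ℂ} (hf : f ∈ classF) {F : ℝ → ℂ} (hF : MemLp F 2 mu)
    (h : Tendsto (fun n => eLpNorm (sn (tc f) n - F) 2 mu) atTop (𝓝 0)) :
    cmInt f ≤ ∫⁻ θ, ENNReal.ofReal (Real.exp (‖F θ‖ ^ 2)) ∂mu := by
  rw [cmInt_eq]
  apply lintegral_mono_ae
  filter_upwards [bdry_ae hf hF h] with θ hθ
  rcases hθ with h1 | h1
  · rw [h1]
  · rw [h1, norm_zero]
    apply ENNReal.ofReal_le_ofReal
    apply Real.exp_le_exp.mpr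
    have h2 := sq_nonneg ‖F θ‖
    rw [zero_pow (by norm_num)]
    exact h2

/-- the upper bound -/
theorem cmInt_le {f : ℂ → ℂ} (hf : f ∈ classF) :
    cmInt f ≤ ENNReal.ofReal (2 * π * Real.exp (∑' i : ℕ, ((i : ℝ) + 1) * ‖tc f i‖ ^ 2)) := by
  obtain ⟨F, hF, h⟩ := exists_bdry (summable_sq_of (summable_tc hf))
  exact (cmInt_le_lint hf hF h).trans (lint_bdry (summable_tc hf) (tsum_tc_le hf) hF h)

/-- linear functions of modulus one coefficient are in the class -/
theorem linear_mem {f : ℂ → ℂ} {c : ℂ} (hc : ‖c‖ = 1) (hf : ∀ z ∈ Metric.ball (0 : ℂ) 1, f z = c * z) :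
    f ∈ classF := by
  have hd : DifferentiableOn ℂ f (Metric.ball 0 1) := by
    have : DifferentiableOn ℂ (fun z => c * z) (Metric.ball 0 1) := by fun_prop
    exact this.congr hf
  refine ⟨hd, ?_, ?_⟩
  · rw [hf 0 (by simp)]
    simp
  · have hder : ∀ z ∈ Metric.ball (0 : ℂ) 1, deriv f z = c := by
      intro z hz
      have h1 : f =ᶠ[𝓝 z] fun z => c * z := by
        filter_upwards [Metric.isOpen_ball.mem_nhds hz] with y hy
        exact hf y hy
      rw [h1.deriv_eq]
      simp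
    unfold dirJ
    have h2 : ∫⁻ z in Metric.ball (0 : ℂ) 1, ‖deriv f z‖ₑ ^ 2 = ENNReal.ofReal π := by
      rw [setLIntegral_congr_fun Metric.isOpen_ball.measurableSet
        (g := fun _ => (1 : ℝ≥0∞))]
      · rw [setLIntegral_one, Complex.volume_ball]
        simp only [ENNReal.ofReal_one, one_pow, one_mul]
        rw [← NNReal.coe_real_pi, ENNReal.ofReal_coe_nnreal]
      · intro z hz
        simp only
        rw [hder z hz, ← ofReal_norm, hc]
        simp
    rw [h2, ENNReal.div_self (by simpa using Real.pi_pos) ENNReal.ofReal_ne_top,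
      ENNReal.one_rpow]

/-- the value for linear functions -/
theorem cmInt_linear {f : ℂ → ℂ} {c : ℂ} (hc : ‖c‖ = 1)
    (hf : ∀ z ∈ Metric.ball (0 : ℂ) 1, f z = c * z) :
    cmInt f = ENNReal.ofReal (2 * π * Real.exp 1) := by
  have hb : ∀ θ : ℝ, bdry f θ = c * Complex.exp (θ * I) := by
    intro θ
    apply bdry_eq
    intro M hM
    have h1 : Tendsto (fun z => c * z) (𝓝[stolz M (Complex.exp (θ * I))] (Complex.exp (θ * I)))
        (𝓝 (c * Complex.exp (θ * I))) := by
      have hcont : Continuous fun z : ℂ => c * z := by fun_prop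
      exact (hcont.tendsto _).mono_left nhdsWithin_le_nhds
    refine h1.congr' ?_
    filter_upwards [self_mem_nhdsWithin] with z hz
    exact (hf z (by simpa using hz.1)).symm
  unfold cmInt
  have h2 : ∀ θ : ℝ, ENNReal.ofReal (Real.exp (‖bdry f θ‖ ^ 2)) = ENNReal.ofReal (Real.exp 1) := by
    intro θ
    rw [hb, norm_mul, norm_expI, hc]
    norm_num
  simp only [h2]
  rw [setLIntegral_const, Real.volume_Ioo, ← ENNReal.ofReal_mul (Real.exp_pos _).le]
  congr 1
  ring

/-- The sharp constant in the Chang-Marshall inequality. -/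
theorem sharp_constant : ⨆ f ∈ classF, cmInt f = ENNReal.ofReal (2 * π * Real.exp 1) := by
  apply le_antisymm
  · apply iSup₂_le
    intro f hf
    refine (cmInt_le hf).trans ?_
    apply ENNReal.ofReal_le_ofReal
    have h1 := Real.exp_le_exp.mpr (tsum_tc_le hf)
    have hpi : 0 < 2 * π := by positivity
    exact mul_le_mul_of_nonneg_left h1 hpi.le
  · have h1 : (fun z : ℂ => z) ∈ classF := linear_mem (c := 1) (by simp) (by simp)
    have h2 : cmInt (fun z : ℂ => z) = ENNReal.ofReal (2 * π * Real.exp 1) :=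
      cmInt_linear (c := 1) (by simp) (by simp)
    rw [← h2]
    exact le_iSup₂ (f := fun f (_ : f ∈ classF) => cmInt f) (fun z : ℂ => z) h1

end Pool.Agent.MP_3466b8_an
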