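import Pool.Agent.MP_3466b8_an.Fourier

/-!
The trigonometric polynomial `f`, and the outer function `h` with `|h| ^ 2 = exp (|f| ^ 2)`.
-/

set_option autoImplicit false

open Complex MeasureTheory intervalIntegral
open scoped Real ComplexConjugate

namespace Pool.Agent.MP_3466b8_an

variable {n : ℕ}

/-- the trigonometric polynomial `∑ a_i e^{i (i+1) θ}` -/
noncomputable def tp (a : Fin n → ℂ) (θ : ℝ) : ℂ := ∑ i : Fin n, a i * ch ((i : ℤ) + 1) θ

/-- the same as a function of `z` -/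
noncomputable def tpz (a : Fin n → ℂ) (z : ℂ) : ℂ := ∑ i : Fin n, a i * z ^ ((i : ℕ) + 1)

@[fun_prop] theorem continuous_tp (a : Fin n → ℂ) : Continuous (tp a) := by
  unfold tp
  fun_prop

theorem tp_eq (a : Fin n → ℂ) (θ : ℝ) : tp a θ = tpz a (Complex.exp (θ * I)) := by
  unfold tp tpz
  apply Finset.sum_congr rfl
  intro i _
  congr 1
  have := ch_nat ((i : ℕ) + 1) θ
  push_cast at this
  exact this

/-- the analytic completion -/
noncomputable def psi (a : Fin n → ℂ) (z : ℂ) : ℂ :=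
  (1 / 2) * ∑ i : Fin n, (a i * conj (a i)) +
    ∑ i : Fin n, ∑ j : Fin n, if j < i then a i * conj (a j) * z ^ ((i : ℕ) - (j : ℕ)) else 0

/-- the outer function -/
noncomputable def Hz (a : Fin n → ℂ) (z : ℂ) : ℂ := Complex.exp (psi a z)

/-- the outer function on the circle -/
noncomputable def hh (a : Fin n → ℂ) (θ : ℝ) : ℂ := Hz a (Complex.exp (θ * I))

theorem differentiable_psi (a : Fin n → ℂ) : Differentiable ℂ (psi a) := by
  unfold psi
  apply Differentiable.add
  · fun_prop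
  · apply Differentiable.fun_sum
    intro i _
    apply Differentiable.fun_sum
    intro j _
    split_ifs <;> fun_prop

theorem differentiable_Hz (a : Fin n → ℂ) : Differentiable ℂ (Hz a) := by
  unfold Hz
  exact (differentiable_psi a).cexp

theorem differentiable_tpz (a : Fin n → ℂ) : Differentiable ℂ (tpz a) := by
  unfold tpz
  fun_prop

@[fun_prop] theorem continuous_hh (a : Fin n → ℂ) : Continuous (hh a) := by
  unfold hh
  exact (differentiable_Hz a).continuous.comp (by fun_prop)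

theorem mean_value {G : ℂ → ℂ} (hG : Differentiable ℂ G) :
    A (fun θ => G (Complex.exp (θ * I))) = G 0 := by
  have h := (hG.diffContOnCl (s := Metric.ball 0 |1|)).circleAverage
  rw [Real.circleAverage_def] at h
  rw [← h]
  unfold A
  rw [Complex.real_smul]
  push_cast
  congr 1
  apply intervalIntegral.integral_congr
  intro θ _
  simp [circleMap]

theorem ch_neg_of_nonpos {k : ℤ} (hk : k ≤ 0) (θ : ℝ) :
    ch (-k) θ = (Complex.exp (θ * I)) ^ (-k).toNat := by
  rw [← ch_nat]
  congr 1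
  omega

theorem fc_hh_neg (a : Fin n → ℂ) {k : ℤ} (hk : k < 0) : fc (hh a) k = 0 := by
  unfold fc
  have h1 : (fun θ : ℝ => hh a θ * ch (-k) θ)
      = fun θ : ℝ => (fun z => Hz a z * z ^ (-k).toNat) (Complex.exp (θ * I)) := by
    ext θ
    rw [ch_neg_of_nonpos hk.le]
    rfl
  rw [h1, mean_value (G := fun z => Hz a z * z ^ (-k).toNat)
    ((differentiable_Hz a).mul (by fun_prop))]
  have : (-k).toNat ≠ 0 := by omega
  simp [this]

theorem fc_hh_zero (a : Fin n → ℂ) :
    fc (hh a) 0 = Complex.exp ((1 / 2) * ∑ i : Fin n, (a i * conj (a i))) := by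
  unfold fc
  have h1 : (fun θ : ℝ => hh a θ * ch (-0) θ)
      = fun θ : ℝ => (fun z => Hz a z) (Complex.exp (θ * I)) := by
    ext θ
    simp [hh]
  rw [h1, mean_value (differentiable_Hz a)]
  unfold Hz psi
  congr 1
  have : (∑ i : Fin n, ∑ j : Fin n,
      if j < i then a i * conj (a j) * (0 : ℂ) ^ ((i : ℕ) - (j : ℕ)) else 0) = 0 := by
    apply Finset.sum_eq_zero
    intro i _
    apply Finset.sum_eq_zero
    intro j _
    split_ifs with h
    · have : (i : ℕ) - (j : ℕ) ≠ 0 := by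
        have : (j : ℕ) < i := h
        omega
      simp [this]
    · rfl
  rw [this, add_zero]

theorem fc_hf_nonpos (a : Fin n → ℂ) {k : ℤ} (hk : k ≤ 0) :
    fc (fun θ => hh a θ * tp a θ) k = 0 := by
  unfold fc
  have h1 : (fun θ : ℝ => hh a θ * tp a θ * ch (-k) θ)
      = fun θ : ℝ => (fun z => Hz a z * tpz a z * z ^ (-k).toNat) (Complex.exp (θ * I)) := by
    ext θ
    rw [ch_neg_of_nonpos hk, tp_eq]
    rfl
  rw [h1, mean_value (G := fun z => Hz a z * tpz a z * z ^ (-k).toNat)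
    (((differentiable_Hz a).mul (differentiable_tpz a)).mul (by fun_prop))]
  have : tpz a 0 = 0 := by
    unfold tpz
    simp
  simp [this]

/-- `|f| ^ 2` as a double sum -/
theorem tp_mul_conj (a : Fin n → ℂ) (θ : ℝ) :
    tp a θ * conj (tp a θ) =
      ∑ i : Fin n, ∑ j : Fin n, a i * conj (a j) * ch ((i : ℤ) - (j : ℤ)) θ := by
  unfold tp
  rw [map_sum, Finset.sum_mul_sum]
  apply Finset.sum_congr rfl
  intro i _
  apply Finset.sum_congr rfl
  intro j _
  rw [map_mul, conj_ch]
  have : ch ((i : ℤ) - (j : ℤ)) θ = ch ((i : ℤ) + 1) θ * ch (-((j : ℤ) + 1)) θ := by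
    rw [← ch_add]
    congr 1
    ring
  rw [this]
  ring

/-- the analytic completion on the circle -/
theorem psi_circle (a : Fin n → ℂ) (θ : ℝ) : psi a (Complex.exp (θ * I)) =
    (1 / 2) * ∑ i : Fin n, (a i * conj (a i)) +
    ∑ i : Fin n, ∑ j : Fin n, if j < i then a i * conj (a j) * ch ((i : ℤ) - (j : ℤ)) θ else 0 := by
  unfold psi
  congr 1
  apply Finset.sum_congr rfl
  intro i _
  apply Finset.sum_congr rfl
  intro j _
  split_ifs with h
  · have h' : (j : ℕ) < i := h
    rw [← ch_nat]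
    congr 2
    push_cast [Nat.cast_sub h'.le]
    ring
  · rfl

theorem psi_add_conj (a : Fin n → ℂ) (θ : ℝ) :
    psi a (Complex.exp (θ * I)) + conj (psi a (Complex.exp (θ * I)))
      = tp a θ * conj (tp a θ) := by
  rw [tp_mul_conj, psi_circle]
  simp only [map_add, map_mul, map_sum]
  have e0 : conj (1 / 2 : ℂ) = 1 / 2 := by
    rw [map_div₀, map_one, Complex.conj_ofNat]
  rw [e0]
  have e1 : (∑ x : Fin n, conj (a x) * conj (conj (a x))) = ∑ x : Fin n, (a x * conj (a x)) := by
    apply Finset.sum_congr rfl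
    intro i _
    rw [Complex.conj_conj, mul_comm]
  rw [e1]
  have e2 : (∑ i : Fin n, ∑ j : Fin n,
      conj (if j < i then a i * conj (a j) * ch ((i : ℤ) - (j : ℤ)) θ else 0))
      = ∑ i : Fin n, ∑ j : Fin n, if i < j then a i * conj (a j) * ch ((i : ℤ) - (j : ℤ)) θ else 0 := by
    rw [Finset.sum_comm]
    apply Finset.sum_congr rfl
    intro i _
    apply Finset.sum_congr rfl
    intro j _
    split_ifs
    · rw [map_mul, map_mul, Complex.conj_conj, conj_ch, neg_sub]
      ring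
    · simp
  rw [e2]
  have e3 : (∑ i : Fin n, (a i * conj (a i))) =
      ∑ i : Fin n, ∑ j : Fin n, if i = j then a i * conj (a j) * ch ((i : ℤ) - (j : ℤ)) θ else 0 := by
    apply Finset.sum_congr rfl
    intro i _
    rw [Finset.sum_ite_eq]
    simp
  calc _ = (∑ i : Fin n, (a i * conj (a i))) +
      ((∑ i : Fin n, ∑ j : Fin n, if j < i then a i * conj (a j) * ch ((i : ℤ) - (j : ℤ)) θ else 0)
      + ∑ i : Fin n, ∑ j : Fin n,
        if i < j then a i * conj (a j) * ch ((i : ℤ) - (j : ℤ)) θ else 0) := by ring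
    _ = _ := by
      rw [e3, ← Finset.sum_add_distrib, ← Finset.sum_add_distrib]
      apply Finset.sum_congr rfl
      intro i _
      rw [← Finset.sum_add_distrib, ← Finset.sum_add_distrib]
      apply Finset.sum_congr rfl
      intro j _
      rcases lt_trichotomy i j with h | h | h
      · simp [h, h.ne, not_lt.mpr h.le]
      · simp [h]
      · simp [h, h.ne', not_lt.mpr h.le]

/-- the density `exp (|f| ^ 2)` -/
noncomputable def rho (a : Fin n → ℂ) (θ : ℝ) : ℝ := Real.exp (‖tp a θ‖ ^ 2)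

@[fun_prop] theorem continuous_rho (a : Fin n → ℂ) : Continuous (rho a) := by
  unfold rho
  fun_prop

theorem hh_mul_conj (a : Fin n → ℂ) (θ : ℝ) : hh a θ * conj (hh a θ) = (rho a θ : ℂ) := by
  unfold hh Hz rho
  rw [← Complex.exp_conj, ← Complex.exp_add, psi_add_conj, Complex.mul_conj,
    Complex.normSq_eq_norm_sq]
  push_cast
  rfl

/-- the logarithmic derivative -/
noncomputable def Dd (a : Fin n → ℂ) (θ : ℝ) : ℂ :=
  ∑ i : Fin n, ∑ j : Fin n,
    if j < i then (((i : ℤ) - (j : ℤ) : ℤ) : ℂ) * (a i * conj (a j)) * ch ((i : ℤ) - (j : ℤ)) θ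
    else 0

@[fun_prop] theorem continuous_Dd (a : Fin n → ℂ) : Continuous (Dd a) := by
  unfold Dd
  refine continuous_finsetSum _ fun i _ => continuous_finsetSum _ fun j _ => ?_
  split_ifs <;> fun_prop

theorem hasDerivAt_ch (k : ℤ) (θ : ℝ) : HasDerivAt (ch k) (I * k * ch k θ) θ := by
  unfold ch
  have h1 : HasDerivAt (fun x : ℝ => (k : ℂ) * (x : ℂ) * I) ((k : ℂ) * 1 * I) θ :=
    ((Complex.ofRealCLM.hasDerivAt (x := θ)).const_mul (k : ℂ)).mul_const I
  have h2 := h1.cexp
  convert h2 using 1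
  ring

theorem hasDerivAt_hh (a : Fin n → ℂ) (θ : ℝ) :
    HasDerivAt (hh a) (I * (Dd a θ * hh a θ)) θ := by
  have h1 : hh a = fun θ : ℝ => Complex.exp ((1 / 2) * ∑ i : Fin n, (a i * conj (a i)) +
    ∑ i : Fin n, ∑ j : Fin n,
      if j < i then a i * conj (a j) * ch ((i : ℤ) - (j : ℤ)) θ else 0) := by
    ext θ
    unfold hh Hz
    rw [psi_circle]
  have h2 : HasDerivAt (fun θ : ℝ => ((1 / 2) * ∑ i : Fin n, (a i * conj (a i)) +
    ∑ i : Fin n, ∑ j : Fin n,
      if j < i then a i * conj (a j) * ch ((i : ℤ) - (j : ℤ)) θ else 0))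
      (∑ i : Fin n, ∑ j : Fin n, if j < i then
        a i * conj (a j) * (I * ((i : ℤ) - (j : ℤ) : ℤ) * ch ((i : ℤ) - (j : ℤ)) θ) else 0) θ := by
    apply HasDerivAt.const_add
    apply HasDerivAt.fun_sum
    intro i _
    apply HasDerivAt.fun_sum
    intro j _
    split_ifs
    · exact (hasDerivAt_ch _ θ).const_mul _
    · exact hasDerivAt_const _ _
  have h3 := h2.cexp
  rw [h1]
  convert h3 using 1
  rw [mul_comm (Dd a θ), ← mul_assoc, mul_comm I, mul_assoc]
  congr 1
  unfold Dd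
  rw [Finset.mul_sum]
  apply Finset.sum_congr rfl
  intro i _
  rw [Finset.mul_sum]
  apply Finset.sum_congr rfl
  intro j _
  split_ifs
  · ring
  · ring

theorem hh_periodic (a : Fin n → ℂ) : hh a (2 * π) = hh a 0 := by
  unfold hh
  congr 1
  have h1 := ch_two_pi 1
  unfold ch at h1
  simp only [Int.cast_one, one_mul] at h1
  rw [h1]
  simp

theorem fc_hD (a : Fin n → ℂ) (k : ℤ) : fc (fun θ => Dd a θ * hh a θ) k = k * fc (hh a) k := by
  have h1 : ∀ θ : ℝ, HasDerivAt (fun θ => hh a θ * ch (-k) θ)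
      (I * (Dd a θ * hh a θ) * ch (-k) θ + hh a θ * (I * (-k : ℤ) * ch (-k) θ)) θ := fun θ =>
    (hasDerivAt_hh a θ).mul (hasDerivAt_ch (-k) θ)
  have h2 := intervalIntegral.integral_eq_sub_of_hasDerivAt (a := 0) (b := 2 * π)
    (fun θ _ => h1 θ) (by apply Continuous.intervalIntegrable; fun_prop)
  rw [hh_periodic, ch_two_pi, ch_at_zero, sub_self] at h2
  have h3 : A (fun θ => I * ((Dd a θ * hh a θ) * ch (-k) θ)
      - (I * k) * (hh a θ * ch (-k) θ)) = 0 := by
    unfold A
    rw [mul_eq_zero]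
    right
    rw [← h2]
    congr 1
    ext θ
    push_cast
    ring
  rw [A_sub (by fun_prop) (by fun_prop), A_const_mul, A_const_mul] at h3
  have h4 : I * (fc (fun θ => Dd a θ * hh a θ) k - k * fc (hh a) k) = 0 := by
    unfold fc
    linear_combination h3
  rcases mul_eq_zero.mp h4 with h | h
  · exact absurd h Complex.I_ne_zero
  · linear_combination h

/-- the key quantity -/
noncomputable def Kq (a : Fin n → ℂ) : ℝ := (A (fun θ => (rho a θ : ℂ) * Dd a θ)).re

theorem hasSum_K (a : Fin n → ℂ) :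
    HasSum (fun k : ℤ => (k : ℝ) * ‖fc (hh a) k‖ ^ 2) (Kq a) := by
  have h1 := parseval2 (g₁ := fun θ => Dd a θ * hh a θ) (g₂ := hh a) (by fun_prop) (by fun_prop)
  have h2 := Complex.hasSum_re h1
  convert h2 using 1
  · ext k
    rw [fc_hD, mul_assoc, Complex.mul_conj, Complex.normSq_eq_norm_sq]
    have : (k : ℂ) * ((‖fc (hh a) k‖ ^ 2 : ℝ) : ℂ) = (((k : ℝ) * ‖fc (hh a) k‖ ^ 2 : ℝ) : ℂ) := by
      push_cast
      ring
    rw [this, Complex.ofReal_re]
  · unfold Kq
    congr 2
    ext θ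
    rw [← hh_mul_conj]
    ring

end Pool.Agent.MP_3466b8_an
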