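import Pool.Agent.MP_3466b8_an.Key

/-!
The sharp inequality for polynomials, by maximisation on a sphere.
-/

set_option autoImplicit false

open Complex MeasureTheory intervalIntegral
open scoped Real ComplexConjugate

namespace Pool.Agent.MP_3466b8_an

variable {n : ℕ}

/-- the Dirichlet form -/
noncomputable def Nd (a : Fin n → ℂ) : ℝ := ∑ i : Fin n, ((i : ℝ) + 1) * ‖a i‖ ^ 2

/-- the quadratic form `⟨rho_b |f_c|^2⟩` -/
noncomputable def Qd (b c : Fin n → ℂ) : ℝ :=
  (2 * π)⁻¹ * ∫ θ in (0 : ℝ)..(2 * π), rho b θ * ‖tp c θ‖ ^ 2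

theorem Nd_nonneg (a : Fin n → ℂ) : 0 ≤ Nd a := Finset.sum_nonneg fun i _ => by positivity

theorem Nd_smul (s : ℝ) (a : Fin n → ℂ) : Nd (fun i => (s : ℂ) * a i) = s ^ 2 * Nd a := by
  unfold Nd
  rw [Finset.mul_sum]
  apply Finset.sum_congr rfl
  intro i _
  rw [norm_mul, mul_pow, Complex.norm_real, Real.norm_eq_abs, sq_abs]
  ring

theorem tp_smul (s : ℂ) (a : Fin n → ℂ) (θ : ℝ) : tp (fun i => s * a i) θ = s * tp a θ := by
  unfold tp
  rw [Finset.mul_sum]
  apply Finset.sum_congr rfl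
  intro i _
  ring

theorem Qd_smul (s : ℝ) (b a : Fin n → ℂ) : Qd b (fun i => (s : ℂ) * a i) = s ^ 2 * Qd b a := by
  unfold Qd
  have : (fun θ => rho b θ * ‖tp (fun i => (s : ℂ) * a i) θ‖ ^ 2)
      = fun θ => s ^ 2 * (rho b θ * ‖tp a θ‖ ^ 2) := by
    ext θ
    rw [tp_smul, norm_mul, mul_pow, Complex.norm_real, Real.norm_eq_abs, sq_abs]
    ring
  rw [this, intervalIntegral.integral_const_mul]
  ring

theorem rho_pos (a : Fin n → ℂ) (θ : ℝ) : 0 < rho a θ := Real.exp_pos _

theorem one_le_rho (a : Fin n → ℂ) (θ : ℝ) : 1 ≤ rho a θ := by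
  unfold rho
  apply Real.one_le_exp
  positivity

theorem one_le_avg (a : Fin n → ℂ) : 1 ≤ avg a := by
  unfold avg
  have h1 : ∫ θ in (0 : ℝ)..(2 * π), (1 : ℝ) ≤ ∫ θ in (0 : ℝ)..(2 * π), rho a θ := by
    apply intervalIntegral.integral_mono_on (by positivity)
    · exact intervalIntegrable_const
    · exact (continuous_rho a).intervalIntegrable _ _
    · intro θ _
      exact one_le_rho a θ
  rw [intervalIntegral.integral_const, smul_eq_mul, mul_one, sub_zero] at h1
  have hpi : 0 < 2 * π := by positivity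
  rw [inv_mul_eq_div, le_div_iff₀ hpi, one_mul]
  exact h1

theorem continuous_avg : Continuous (avg : (Fin n → ℂ) → ℝ) := by
  unfold avg
  apply Continuous.mul continuous_const
  apply intervalIntegral.continuous_parametric_intervalIntegral_of_continuous' (by
    unfold Function.uncurry rho tp
    fun_prop)

theorem continuous_Nd : Continuous (Nd : (Fin n → ℂ) → ℝ) := by
  unfold Nd
  fun_prop

theorem eq_zero_of_Nd {a : Fin n → ℂ} (h : Nd a = 0) : a = 0 := by
  unfold Nd at h
  rw [Finset.sum_eq_zero_iff_of_nonneg (fun i _ => by positivity)] at h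
  ext i
  have := h i (Finset.mem_univ i)
  rcases mul_eq_zero.mp this with h1 | h1
  · have : (0 : ℝ) < (i : ℝ) + 1 := by positivity
    linarith
  · simpa using h1

theorem compact_sphere (σ : ℝ) : IsCompact {b : Fin n → ℂ | Nd b = σ} := by
  apply Metric.isCompact_of_isClosed_isBounded
  · exact isClosed_eq continuous_Nd continuous_const
  · rw [isBounded_iff_forall_norm_le]
    refine ⟨Real.sqrt |σ|, fun b hb => ?_⟩
    rw [pi_norm_le_iff_of_nonneg (Real.sqrt_nonneg _)]
    intro i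
    apply Real.le_sqrt_of_sq_le
    have hb' : Nd b = σ := hb
    have h1 : ((i : ℝ) + 1) * ‖b i‖ ^ 2 ≤ Nd b := by
      unfold Nd
      exact Finset.single_le_sum (f := fun i : Fin n => ((i : ℝ) + 1) * ‖b i‖ ^ 2)
        (fun i _ => by positivity) (Finset.mem_univ i)
    have h2 : ‖b i‖ ^ 2 ≤ ((i : ℝ) + 1) * ‖b i‖ ^ 2 := by
      have : 0 ≤ (i : ℝ) * ‖b i‖ ^ 2 := by positivity
      linarith
    have h3 := le_abs_self σ
    rw [hb'] at h1
    linarith

/-- consequence of maximality -/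
theorem Qd_le_of_max {σ : ℝ} {b : Fin n → ℂ}
    (hmax : ∀ c : Fin n → ℂ, Nd c = σ → avg c ≤ avg b) {c : Fin n → ℂ} (hc : Nd c = σ) :
    Qd b c ≤ Mq b := by
  have h1 := hmax c hc
  have h2 : avg b + Qd b c - Mq b ≤ avg c := by
    unfold avg Qd Mq
    rw [← mul_add, ← mul_sub]
    apply mul_le_mul_of_nonneg_left _ (by positivity)
    rw [← intervalIntegral.integral_add (by apply Continuous.intervalIntegrable; fun_prop)
      (by apply Continuous.intervalIntegrable; fun_prop),
      ← intervalIntegral.integral_sub (by apply Continuous.intervalIntegrable; fun_prop)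
      (by apply Continuous.intervalIntegrable; fun_prop)]
    apply intervalIntegral.integral_mono_on (by positivity)
    · apply Continuous.intervalIntegrable
      fun_prop
    · exact (continuous_rho c).intervalIntegrable _ _
    · intro θ _
      have h3 := Real.add_one_le_exp (‖tp c θ‖ ^ 2 - ‖tp b θ‖ ^ 2)
      have h4 : rho c θ = rho b θ * Real.exp (‖tp c θ‖ ^ 2 - ‖tp b θ‖ ^ 2) := by
        unfold rho
        rw [← Real.exp_add]
        congr 1
        ring
      rw [h4]
      have h5 := mul_le_mul_of_nonneg_left h3 (rho_pos b θ).le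
      linarith
  linarith

theorem Qd_le {σ : ℝ} (hσ : 0 < σ) {b : Fin n → ℂ}
    (hmax : ∀ c : Fin n → ℂ, Nd c = σ → avg c ≤ avg b) (c : Fin n → ℂ) :
    Qd b c ≤ Mq b / σ * Nd c := by
  rcases (Nd_nonneg c).eq_or_lt with h0 | hpos
  · have hc := eq_zero_of_Nd h0.symm
    subst hc
    rw [← h0]
    unfold Qd tp
    simp
  · have hs : 0 < σ / Nd c := by positivity
    have h1 : Nd (fun i => ((Real.sqrt (σ / Nd c) : ℝ) : ℂ) * c i) = σ := by
      rw [Nd_smul, Real.sq_sqrt hs.le]
      field_simp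
    have h2 := Qd_le_of_max hmax h1
    rw [Qd_smul, Real.sq_sqrt hs.le] at h2
    rw [div_mul_eq_mul_div, div_le_iff₀ hpos] at h2
    rw [div_mul_eq_mul_div, le_div_iff₀ hσ]
    linarith

/-- the `i`-th unit vector -/
noncomputable def ee (i : Fin n) (t : ℂ) : Fin n → ℂ := fun j => if j = i then t else 0

theorem tp_add_ee (b : Fin n → ℂ) (i : Fin n) (t : ℂ) (θ : ℝ) :
    tp (fun j => b j + ee i t j) θ = tp b θ + t * ch ((i : ℤ) + 1) θ := by
  unfold tp ee
  have : ∀ j : Fin n, (b j + if j = i then t else 0) * ch ((j : ℤ) + 1) θ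
      = b j * ch ((j : ℤ) + 1) θ + if j = i then t * ch ((j : ℤ) + 1) θ else 0 := by
    intro j
    split_ifs <;> ring
  simp only [this]
  rw [Finset.sum_add_distrib, Finset.sum_ite_eq']
  simp

theorem Qd_add_ee (b : Fin n → ℂ) (i : Fin n) (t : ℂ) :
    Qd b (fun j => b j + ee i t j) =
      Mq b + 2 * (conj t * uc b ((i : ℤ) + 1)).re + ‖t‖ ^ 2 * avg b := by
  have h1 : ∀ θ : ℝ, rho b θ * ‖tp (fun j => b j + ee i t j) θ‖ ^ 2
      = rho b θ * ‖tp b θ‖ ^ 2 +
        2 * (conj t * ((rho b θ : ℂ) * tp b θ * ch (-((i : ℤ) + 1)) θ)).re + ‖t‖ ^ 2 * rho b θ := by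
    intro θ
    rw [tp_add_ee]
    have h2 : ‖tp b θ + t * ch ((i : ℤ) + 1) θ‖ ^ 2 = ‖tp b θ‖ ^ 2
        + 2 * (tp b θ * conj (t * ch ((i : ℤ) + 1) θ)).re + ‖t * ch ((i : ℤ) + 1) θ‖ ^ 2 := by
      have := Complex.normSq_add (tp b θ) (t * ch ((i : ℤ) + 1) θ)
      rw [Complex.normSq_eq_norm_sq, Complex.normSq_eq_norm_sq, Complex.normSq_eq_norm_sq] at this
      rw [this]
      ring
    rw [h2, norm_mul, norm_ch, mul_one, map_mul, conj_ch]
    have h3 : conj t * ((rho b θ : ℂ) * tp b θ * ch (-((i : ℤ) + 1)) θ)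
        = ((rho b θ : ℝ) : ℂ) * (tp b θ * (conj t * ch (-((i : ℤ) + 1)) θ)) := by ring
    rw [h3, Complex.re_ofReal_mul]
    ring
  have h4 : (conj t * uc b ((i : ℤ) + 1)).re = (2 * π)⁻¹ * ∫ θ in (0 : ℝ)..(2 * π),
      (conj t * ((rho b θ : ℂ) * tp b θ * ch (-((i : ℤ) + 1)) θ)).re := by
    have h5 : conj t * uc b ((i : ℤ) + 1)
        = A (fun θ => conj t * ((rho b θ : ℂ) * tp b θ * ch (-((i : ℤ) + 1)) θ)) := by
      rw [A_const_mul]
      rfl
    rw [h5]
    unfold A
    have h6 : (2 * π : ℂ)⁻¹ = (((2 * π)⁻¹ : ℝ) : ℂ) := by push_cast; rfl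
    rw [h6, Complex.re_ofReal_mul]
    congr 1
    have h7 := (Complex.reCLM).intervalIntegral_comp_comm (a := 0) (b := 2 * π) (μ := volume)
      (f := fun θ => conj t * ((rho b θ : ℂ) * tp b θ * ch (-((i : ℤ) + 1)) θ))
      (by apply Continuous.intervalIntegrable; fun_prop)
    exact h7.symm
  rw [h4]
  unfold Qd Mq avg
  simp only [h1]
  rw [intervalIntegral.integral_add, intervalIntegral.integral_add,
    intervalIntegral.integral_const_mul, intervalIntegral.integral_const_mul]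
  · ring
  · apply Continuous.intervalIntegrable
    fun_prop
  · apply Continuous.intervalIntegrable
    have : Continuous fun θ => (conj t * ((rho b θ : ℂ) * tp b θ * ch (-((i : ℤ) + 1)) θ)).re :=
      Complex.continuous_re.comp (by fun_prop)
    exact this.const_mul 2
  · apply Continuous.intervalIntegrable
    have : Continuous fun θ => (conj t * ((rho b θ : ℂ) * tp b θ * ch (-((i : ℤ) + 1)) θ)).re :=
      Complex.continuous_re.comp (by fun_prop)
    exact Continuous.add (by fun_prop) (this.const_mul 2)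
  · apply Continuous.intervalIntegrable
    fun_prop

theorem Nd_add_ee (b : Fin n → ℂ) (i : Fin n) (t : ℂ) :
    Nd (fun j => b j + ee i t j) =
      Nd b + ((i : ℝ) + 1) * (2 * (conj t * b i).re + ‖t‖ ^ 2) := by
  unfold Nd ee
  have : ∀ j : Fin n, ((j : ℝ) + 1) * ‖b j + if j = i then t else 0‖ ^ 2
      = ((j : ℝ) + 1) * ‖b j‖ ^ 2 +
        if j = i then ((j : ℝ) + 1) * (2 * (conj t * b j).re + ‖t‖ ^ 2) else 0 := by
    intro j
    split_ifs with h
    · have h2 := Complex.normSq_add (b j) t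
      rw [Complex.normSq_eq_norm_sq, Complex.normSq_eq_norm_sq, Complex.normSq_eq_norm_sq] at h2
      rw [h2, mul_comm (conj t)]
      ring
    · simp
  simp only [this]
  rw [Finset.sum_add_distrib, Finset.sum_ite_eq']
  simp

/-- Euler-Lagrange equation -/
theorem euler_lagrange {σ : ℝ} (hσ : 0 < σ) {b : Fin n → ℂ} (hb : Nd b = σ)
    (hmax : ∀ c : Fin n → ℂ, Nd c = σ → avg c ≤ avg b) (i : Fin n) :
    uc b ((i : ℤ) + 1) = ((Mq b / σ : ℝ) : ℂ) * ((i : ℝ) + 1) * b i := by
  set lam := Mq b / σ with hlam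
  have hMq : Mq b = lam * σ := by
    rw [hlam]
    field_simp
  set w := uc b ((i : ℤ) + 1) - (lam : ℂ) * ((i : ℝ) + 1) * b i with hw
  set C := |lam * ((i : ℝ) + 1) - avg b| + 1 with hC
  have hC0 : 0 < C := by positivity
  have key : ∀ t : ℂ, 2 * (conj t * w).re ≤ ‖t‖ ^ 2 * C := by
    intro t
    have h1 := Qd_le hσ hmax (fun j => b j + ee i t j)
    rw [Qd_add_ee, Nd_add_ee, hb, ← hlam, hMq] at h1
    have h2 : (conj t * w).re = (conj t * uc b ((i : ℤ) + 1)).re
        - lam * ((i : ℝ) + 1) * (conj t * b i).re := by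
      rw [hw, mul_sub, Complex.sub_re]
      congr 1
      have : conj t * ((lam : ℂ) * ((i : ℝ) + 1) * b i)
          = ((lam * ((i : ℝ) + 1) : ℝ) : ℂ) * (conj t * b i) := by
        push_cast
        ring
      rw [this, Complex.re_ofReal_mul]
    have h3 : ‖t‖ ^ 2 * (lam * ((i : ℝ) + 1) - avg b) ≤ ‖t‖ ^ 2 * C := by
      apply mul_le_mul_of_nonneg_left _ (by positivity)
      have := le_abs_self (lam * ((i : ℝ) + 1) - avg b)
      linarith
    rw [h2]
    linarith
  have h1 := key ((C⁻¹ : ℝ) * w)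
  have h2 : (conj (((C⁻¹ : ℝ) : ℂ) * w) * w).re = C⁻¹ * ‖w‖ ^ 2 := by
    have : conj (((C⁻¹ : ℝ) : ℂ) * w) * w = ((C⁻¹ * ‖w‖ ^ 2 : ℝ) : ℂ) := by
      rw [map_mul, Complex.conj_ofReal, mul_assoc, mul_comm (conj w), Complex.mul_conj,
        Complex.normSq_eq_norm_sq]
      push_cast
      rfl
    rw [this, Complex.ofReal_re]
  rw [h2, norm_mul, Complex.norm_real, Real.norm_eq_abs, abs_of_pos (by positivity), mul_pow] at h1
  have h3 : C⁻¹ ^ 2 * ‖w‖ ^ 2 * C = C⁻¹ * ‖w‖ ^ 2 := by
    field_simp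
  rw [h3] at h1
  have h4 : C⁻¹ * ‖w‖ ^ 2 ≤ 0 := by linarith
  have h5 : ‖w‖ ^ 2 ≤ 0 := by
    by_contra hcon
    push Not at hcon
    have : 0 < C⁻¹ * ‖w‖ ^ 2 := by positivity
    linarith
  have h6 : w = 0 := by
    have : ‖w‖ ^ 2 = 0 := le_antisymm h5 (by positivity)
    simpa using this
  rw [hw, sub_eq_zero] at h6
  exact h6

/-- The sharp inequality for polynomials. -/
theorem poly_ineq (a : Fin n → ℂ) (h : Nd a < 1) : avg a ≤ Real.exp (Nd a) := by
  rcases (Nd_nonneg a).eq_or_lt with h0 | hpos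
  · have ha := eq_zero_of_Nd h0.symm
    rw [← h0, Real.exp_zero, ha]
    unfold avg rho tp
    simp
    apply le_of_eq
    have := Real.pi_ne_zero
    field_simp
  -- a maximiser
  obtain ⟨b, hb, hbmax⟩ := (compact_sphere (Nd a)).exists_isMaxOn ⟨a, rfl⟩
    continuous_avg.continuousOn
  have hb' : Nd b = Nd a := hb
  have hmax : ∀ c : Fin n → ℂ, Nd c = Nd a → avg c ≤ avg b := fun c hc => hbmax hc
  have hn : 0 < n := by
    rcases Nat.eq_zero_or_pos n with h1 | h1
    · subst h1
      unfold Nd at hpos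
      simp at hpos
    · exact h1
  have hlam : 0 < Mq b / Nd a := by
    have h1 := Qd_le hpos hmax (ee ⟨0, hn⟩ 1)
    have h2 : Qd b (ee ⟨0, hn⟩ 1) = avg b := by
      unfold Qd avg
      congr 2
      ext θ
      have : tp (ee (⟨0, hn⟩ : Fin n) 1) θ = ch 1 θ := by
        unfold tp ee
        rw [Finset.sum_eq_single (⟨0, hn⟩ : Fin n)]
        · simp
        · intro j _ hj
          simp [hj]
        · intro hh
          exact absurd (Finset.mem_univ _) hh
      rw [this, norm_ch]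
      ring
    have h3 : Nd (ee (⟨0, hn⟩ : Fin n) 1) = 1 := by
      unfold Nd ee
      rw [Finset.sum_eq_single (⟨0, hn⟩ : Fin n)]
      · simp
      · intro j _ hj
        simp [hj]
      · intro hh
        exact absurd (Finset.mem_univ _) hh
    rw [h2, h3, mul_one] at h1
    have := one_le_avg b
    linarith
  have hEL := euler_lagrange hpos hb' hmax
  have hK := Kq_nonpos hlam hEL (σ := Nd b) rfl (by rw [hb']; exact h)
  have h1 := avg_of_K b hK
  calc avg a ≤ avg b := hmax a rfl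
    _ = Real.exp (∑ i : Fin n, ‖b i‖ ^ 2) := h1
    _ ≤ Real.exp (Nd b) := by
        apply Real.exp_le_exp.mpr
        unfold Nd
        apply Finset.sum_le_sum
        intro i _
        have : 0 ≤ (i : ℝ) * ‖b i‖ ^ 2 := by positivity
        linarith
    _ = Real.exp (Nd a) := by rw [hb']

end Pool.Agent.MP_3466b8_an
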