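import Pool.Agent.MP_3466b8_an.Bdry

/-!
Radial limits and the `L²` boundary function.
-/

set_option autoImplicit false

open Complex MeasureTheory intervalIntegral Filter Topology
open scoped Real ComplexConjugate ENNReal

namespace Pool.Agent.MP_3466b8_an

theorem integrable_mul_ch {g : ℝ → ℂ} (hg : Integrable g mu) (k : ℤ) :
    Integrable (fun θ => g θ * ch k θ) mu := by
  have h1 : Integrable (fun θ => ch k θ * g θ) mu := by
    apply hg.bdd_mul (c := 1) (continuous_ch k).aestronglyMeasurable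
    exact Eventually.of_forall fun θ => (norm_ch k θ).le
  refine h1.congr (Eventually.of_forall fun θ => ?_)
  simp only
  ring

theorem fc_subL {g₁ g₂ : ℝ → ℂ} (h₁ : Integrable g₁ mu) (h₂ : Integrable g₂ mu) (k : ℤ) :
    fc (g₁ - g₂) k = fc g₁ k - fc g₂ k := by
  unfold fc A
  rw [← mul_sub, int_mu, int_mu, int_mu,
    ← integral_sub (integrable_mul_ch h₁ _) (integrable_mul_ch h₂ _)]
  congr 2
  ext θ
  simp only [Pi.sub_apply]
  ring

theorem fc_lim {G : ℕ → ℝ → ℂ} {F : ℝ → ℂ} (hG : ∀ n, MemLp (G n) 2 mu) (hF : MemLp F 2 mu)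
    (h : Tendsto (fun n => eLpNorm (G n - F) 2 mu) atTop (𝓝 0)) (k : ℤ) :
    Tendsto (fun n => fc (G n) k) atTop (𝓝 (fc F k)) := by
  rw [tendsto_iff_norm_sub_tendsto_zero]
  have h1 : ∀ n, ‖fc (G n) k - fc F k‖ ≤ (eLpNorm (G n - F) 2 mu).toReal := by
    intro n
    rw [← fc_subL ((hG n).integrable (by norm_num)) (hF.integrable (by norm_num)),
      eLp_eq ((hG n).sub hF), ENNReal.toReal_ofReal (Real.sqrt_nonneg _)]
    apply Real.le_sqrt_of_sq_le
    have h2 := parsevalL ((hG n).sub hF)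
    have h3 := le_hasSum h2 k (fun _ _ => by positivity)
    refine h3.trans ?_
    have h4 : 0 ≤ ∫ θ, ‖(G n - F) θ‖ ^ 2 ∂mu := integral_nonneg fun _ => by positivity
    have h5 : (2 * π)⁻¹ ≤ 1 := by
      apply inv_le_one_of_one_le₀
      have := Real.pi_gt_three
      linarith
    nlinarith
  have h2 : Tendsto (fun n => (eLpNorm (G n - F) 2 mu).toReal) atTop (𝓝 0) := by
    have := (ENNReal.tendsto_toReal ENNReal.zero_ne_top).comp h
    simpa [Function.comp_def] using this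
  exact squeeze_zero (fun n => norm_nonneg _) h1 h2

theorem fc_bdry {c : ℕ → ℂ} {F : ℝ → ℂ} (hF : MemLp F 2 mu)
    (h : Tendsto (fun n => eLpNorm (sn c n - F) 2 mu) atTop (𝓝 0)) (k : ℤ) :
    fc F k = cz c k := by
  have h1 := fc_lim (fun n => memLp_cont (continuous_sn c n) 2) hF h k
  have h2 : Tendsto (fun n => fc (sn c n) k) atTop (𝓝 (cz c k)) := by
    apply tendsto_const_nhds.congr'
    filter_upwards [eventually_ge_atTop k.toNat] with n hn
    rw [fc_sn, if_pos (by omega)]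
  exact tendsto_nhds_unique h1 h2

/-- dilates -/
noncomputable def fr (f : ℂ → ℂ) (r θ : ℝ) : ℂ := f ((r : ℂ) * Complex.exp (θ * I))

theorem summable_fr {f : ℂ → ℂ} (hf : DifferentiableOn ℂ f (Metric.ball 0 1)) (h0 : f 0 = 0)
    {r : ℝ} (hr : 0 ≤ r) (hr1 : r < 1) : Summable (fun i : ℕ => ‖tc f i * (r : ℂ) ^ (i + 1)‖) :=
  (hasSum_f hf h0 (z := (r : ℂ)) (by
    rw [Complex.norm_real, Real.norm_eq_abs, abs_of_nonneg hr]; exact hr1)).summable.norm

theorem hasSum_fr {f : ℂ → ℂ} (hf : DifferentiableOn ℂ f (Metric.ball 0 1)) (h0 : f 0 = 0)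
    {r : ℝ} (hr : 0 ≤ r) (hr1 : r < 1) (θ : ℝ) :
    HasSum (fun i : ℕ => (tc f i * (r : ℂ) ^ (i + 1)) * ch ((i : ℤ) + 1) θ) (fr f r θ) := by
  have h1 := hasSum_f hf h0 (z := (r : ℂ) * Complex.exp (θ * I))
    (by rw [norm_circle hr]; exact hr1)
  refine hs_congr h1 fun i => ?_
  rw [circle_pow]
  push_cast
  ring

theorem inj_succ : Function.Injective (fun i : ℕ => (i : ℤ) + 1) := by
  intro i j h
  simp only at h
  omega

theorem continuous_fr {f : ℂ → ℂ} (hf : DifferentiableOn ℂ f (Metric.ball 0 1)) (h0 : f 0 = 0)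
    {r : ℝ} (hr : 0 ≤ r) (hr1 : r < 1) : Continuous (fr f r) :=
  continuous_of_hasSum (κ := fun i : ℕ => (i : ℤ) + 1) (summable_fr hf h0 hr hr1)
    (fun θ => hasSum_fr hf h0 hr hr1 θ)

theorem fc_fr {f : ℂ → ℂ} (hf : DifferentiableOn ℂ f (Metric.ball 0 1)) (h0 : f 0 = 0)
    {r : ℝ} (hr : 0 ≤ r) (hr1 : r < 1) (k : ℤ) :
    fc (fr f r) k = cz (fun i => tc f i * (r : ℂ) ^ (i + 1)) k := by
  by_cases hk : 1 ≤ k
  · obtain ⟨i, rfl⟩ : ∃ i : ℕ, k = (i : ℤ) + 1 := ⟨(k - 1).toNat, by omega⟩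
    rw [cz_succ]
    exact fc_of_hasSum (κ := fun i : ℕ => (i : ℤ) + 1) inj_succ (summable_fr hf h0 hr hr1)
      (fun θ => hasSum_fr hf h0 hr hr1 θ) i
  · rw [cz_of_nonpos _ (by omega)]
    exact fc_of_hasSum_zero (κ := fun i : ℕ => (i : ℤ) + 1) (summable_fr hf h0 hr hr1)
      (fun θ => hasSum_fr hf h0 hr hr1 θ) (fun i => by omega)

/-- square integrals through coefficients of positive index -/
theorem int_eq_tsum {g : ℝ → ℂ} (hg : MemLp g 2 mu) (hneg : ∀ k : ℤ, k ≤ 0 → fc g k = 0) :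
    ∫ θ, ‖g θ‖ ^ 2 ∂mu = 2 * π * ∑' i : ℕ, ‖fc g ((i : ℤ) + 1)‖ ^ 2 := by
  have h1 := parsevalL hg
  rw [← inj_succ.hasSum_iff] at h1
  · have h2 := h1.tsum_eq
    simp only [Function.comp_def] at h2
    rw [h2]
    have : (2 * π : ℝ) ≠ 0 := by positivity
    field_simp
  · intro k hk
    rw [hneg k]
    · simp
    · by_contra hcon
      exact hk ⟨(k - 1).toNat, by simp only; omega⟩

theorem tendsto_fr {f : ℂ → ℂ} (hf : DifferentiableOn ℂ f (Metric.ball 0 1)) (h0 : f 0 = 0)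
    {F : ℝ → ℂ} (hF : MemLp F 2 mu) (hfc : ∀ k : ℤ, fc F k = cz (tc f) k)
    (hs : Summable fun i => ‖tc f i‖ ^ 2)
    {r : ℕ → ℝ} (hr : ∀ m, 0 ≤ r m) (hr1 : ∀ m, r m < 1) (hlim : Tendsto r atTop (𝓝 1)) :
    Tendsto (fun m => eLpNorm (fr f (r m) - F) 2 mu) atTop (𝓝 0) := by
  have hmem : ∀ m, MemLp (fr f (r m)) 2 mu := fun m =>
    memLp_cont (continuous_fr hf h0 (hr m) (hr1 m)) 2
  have hcoef : ∀ m, ∀ k : ℤ, fc (fr f (r m) - F) k
      = cz (fun i => tc f i * (r m : ℂ) ^ (i + 1)) k - cz (tc f) k := by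
    intro m k
    rw [fc_subL ((hmem m).integrable (by norm_num)) (hF.integrable (by norm_num)),
      fc_fr hf h0 (hr m) (hr1 m), hfc]
  have h1 : ∀ m, eLpNorm (fr f (r m) - F) 2 mu = ENNReal.ofReal (Real.sqrt (2 * π *
      ∑' i : ℕ, ‖tc f i * (r m : ℂ) ^ (i + 1) - tc f i‖ ^ 2)) := by
    intro m
    rw [eLp_eq ((hmem m).sub hF), int_eq_tsum ((hmem m).sub hF)]
    · congr 4
      ext i
      rw [hcoef, cz_succ, cz_succ]
    · intro k hk
      rw [hcoef, cz_of_nonpos _ hk, cz_of_nonpos _ hk, sub_zero]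
  simp only [h1]
  have h2 : Tendsto (fun m => ∑' i : ℕ, ‖tc f i * (r m : ℂ) ^ (i + 1) - tc f i‖ ^ 2) atTop
      (𝓝 (∑' i : ℕ, (0 : ℝ))) := by
    apply tendsto_tsum_of_dominated_convergence (bound := fun i => ‖tc f i‖ ^ 2) hs
    · intro i
      have h3 : Tendsto (fun m => ‖tc f i * (r m : ℂ) ^ (i + 1) - tc f i‖ ^ 2) atTop
          (𝓝 (‖tc f i * ((1 : ℝ) : ℂ) ^ (i + 1) - tc f i‖ ^ 2)) := by
        have hc : Continuous fun x : ℝ => ‖tc f i * (x : ℂ) ^ (i + 1) - tc f i‖ ^ 2 := by fun_prop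
        exact (hc.tendsto 1).comp hlim
      simpa using h3
    · refine Eventually.of_forall fun m i => ?_
      rw [Real.norm_eq_abs, abs_of_nonneg (by positivity)]
      have e1 : tc f i * (r m : ℂ) ^ (i + 1) - tc f i = tc f i * (((r m) ^ (i + 1) - 1 : ℝ) : ℂ) := by
        push_cast
        ring
      rw [e1, norm_mul, Complex.norm_real, mul_pow, Real.norm_eq_abs, sq_abs]
      have h4 : 0 ≤ (r m) ^ (i + 1) := pow_nonneg (hr m) _
      have h5 : (r m) ^ (i + 1) ≤ 1 := pow_le_one₀ (hr m) (hr1 m).le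
      have h6 : ((r m) ^ (i + 1) - 1) ^ 2 ≤ 1 := by nlinarith
      have h7 : 0 ≤ ‖tc f i‖ ^ 2 := by positivity
      nlinarith
  rw [tsum_zero] at h2
  have h3 := (h2.const_mul (2 * π)).sqrt
  have h4 := ENNReal.tendsto_ofReal h3
  simpa using h4

/-- a.e. convergence along a subsequence -/
theorem ae_subseq {G : ℕ → ℝ → ℂ} {F : ℝ → ℂ} (hG : ∀ n, MemLp (G n) 2 mu) (hF : MemLp F 2 mu)
    (h : Tendsto (fun n => eLpNorm (G n - F) 2 mu) atTop (𝓝 0)) :
    ∃ ns : ℕ → ℕ, StrictMono ns ∧ ∀ᵐ θ ∂mu, Tendsto (fun i => G (ns i) θ) atTop (𝓝 (F θ)) :=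
  (tendstoInMeasure_of_tendsto_eLpNorm (by norm_num) (fun n => (hG n).aestronglyMeasurable)
    hF.aestronglyMeasurable h).exists_seq_tendsto_ae

end Pool.Agent.MP_3466b8_an
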