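import Pool.Agent.MP_3466b8_an.Disc

/-!
Rigidity: equality in all the Cauchy-Schwarz inequalities forces the outer function to be constant.
-/

set_option autoImplicit false

open Complex MeasureTheory intervalIntegral Filter Topology
open scoped Real ComplexConjugate

namespace Pool.Agent.MP_3466b8_an

/-- strict convexity of `t exp (-κ / t)` -/
theorem strict_conv {κ T d : ℝ} (hκ : 0 < κ) (hd : 0 < d) (hT : d < T) :
    2 * (T * Real.exp (-κ / T)) <
      (T + d) * Real.exp (-κ / (T + d)) + (T - d) * Real.exp (-κ / (T - d)) := by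
  have hT0 : 0 < T := hd.trans hT
  have h1 : 0 < T + d := by linarith
  have h2 : 0 < T - d := by linarith
  have hne : -κ / (T + d) ≠ -κ / (T - d) := by
    intro h
    rw [div_eq_div_iff h1.ne' h2.ne'] at h
    have : κ * d = 0 := by linarith
    rcases mul_eq_zero.mp this with h | h <;> linarith
  have ha : 0 < (T + d) / (2 * T) := by positivity
  have hb : 0 < (T - d) / (2 * T) := by positivity
  have hab : (T + d) / (2 * T) + (T - d) / (2 * T) = 1 := by
    field_simp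
    ring
  have h3 := strictConvexOn_exp.2 (Set.mem_univ (-κ / (T + d))) (Set.mem_univ (-κ / (T - d))) hne
    ha hb hab
  simp only [smul_eq_mul] at h3
  have h4 : (T + d) / (2 * T) * (-κ / (T + d)) + (T - d) / (2 * T) * (-κ / (T - d)) = -κ / T := by
    field_simp
    ring
  rw [h4] at h3
  have h5 := mul_lt_mul_of_pos_left h3 (show 0 < 2 * T by positivity)
  have h6 : 2 * T * ((T + d) / (2 * T) * Real.exp (-κ / (T + d)) +
      (T - d) / (2 * T) * Real.exp (-κ / (T - d)))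
      = (T + d) * Real.exp (-κ / (T + d)) + (T - d) * Real.exp (-κ / (T - d)) := by
    field_simp
  rw [h6] at h5
  linarith

/-- a continuous periodic function with vanishing Fourier coefficients vanishes -/
theorem eq_zero_of_fc {g : ℝ → ℂ} (hg : Continuous g) (hp : Function.Periodic g (2 * π))
    (h0 : ∀ k : ℤ, fc g k = 0) (θ : ℝ) : g θ = 0 := by
  obtain ⟨y, hy, hyθ⟩ := hp.exists_mem_Ico₀ (by positivity) θ
  rw [hyθ]
  by_contra hne
  have h1 := parseval hg
  have h2 : HasSum (fun k : ℤ => ‖fc g k‖ ^ 2) 0 := by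
    have : (fun k : ℤ => ‖fc g k‖ ^ 2) = fun _ => (0 : ℝ) := by
      ext k
      rw [h0 k]
      simp
    rw [this]
    exact hasSum_zero
  have h3 := h1.unique h2
  have h4 : 0 < ∫ θ in (0 : ℝ)..(2 * π), ‖g θ‖ ^ 2 := by
    apply intervalIntegral.integral_pos (by positivity)
    · fun_prop
    · intro x _
      positivity
    · refine ⟨y, ⟨hy.1, hy.2.le⟩, ?_⟩
      have : 0 < ‖g y‖ := norm_pos_iff.mpr hne
      positivity
  have h5 : 0 < (2 * π)⁻¹ * ∫ θ in (0 : ℝ)..(2 * π), ‖g θ‖ ^ 2 := by positivity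
  linarith

theorem ch_periodic (k : ℤ) : Function.Periodic (ch k) (2 * π) := by
  intro θ
  unfold ch
  have : (k : ℂ) * ((θ + 2 * π : ℝ) : ℂ) * I = k * θ * I + k * (2 * π * I) := by
    push_cast
    ring
  rw [this, Complex.exp_add, Complex.exp_int_mul_two_pi_mul_I, mul_one]

theorem fc_mul_ch (g : ℝ → ℂ) (j k : ℤ) : fc (fun θ => g θ * ch j θ) k = fc g (k - j) := by
  unfold fc
  congr 1
  ext θ
  have : ch (-(k - j)) θ = ch j θ * ch (-k) θ := by
    rw [← ch_add]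
    congr 1
    ring
  rw [this]
  ring

theorem fc_ch (l k : ℤ) : fc (ch l) k = if l = k then 1 else 0 := by
  have e5 : fc (ch l) k = A (ch (l - k)) := by
    unfold fc
    congr 1
    ext θ
    rw [sub_eq_add_neg, ch_add]
  rw [e5, A_ch]
  by_cases h : l = k
  · rw [if_pos h, if_pos (by omega)]
  · rw [if_neg h, if_neg (by omega)]

theorem fc_sub' {g₁ g₂ : ℝ → ℂ} (h₁ : Continuous g₁) (h₂ : Continuous g₂) (k : ℤ) :
    fc (fun θ => g₁ θ - g₂ θ) k = fc g₁ k - fc g₂ k := by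
  unfold fc
  rw [← A_sub (by fun_prop) (by fun_prop)]
  congr 1
  ext θ
  ring

section
variable {h F : ℝ → ℂ} {lam : ℝ}

/-- the Fourier coefficients of `rho F`, `h F` -/
theorem hasSum_cross (hc : Continuous h) (Fc : Continuous F)
    (H1 : ∀ θ, h θ * conj (h θ) = ((Real.exp (‖F θ‖ ^ 2) : ℝ) : ℂ))
    (H3 : ∀ k : ℤ, k ≤ 0 → fc (fun θ => h θ * F θ) k = 0) (j : ℕ) :
    HasSum (fun k : ℕ => fc (fun θ => h θ * F θ) ((k : ℤ) + 1) * conj (fc h ((k : ℤ) + 1 + j)))
      (fc (fun θ => ((Real.exp (‖F θ‖ ^ 2) : ℝ) : ℂ) * F θ) (-(j : ℤ))) := by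
  have h1 := parseval2 (g₁ := fun θ => h θ * F θ) (g₂ := fun θ => h θ * ch (-j) θ)
    (by fun_prop) (by fun_prop)
  have e1 : A (fun θ => h θ * F θ * conj (h θ * ch (-j) θ))
      = fc (fun θ => ((Real.exp (‖F θ‖ ^ 2) : ℝ) : ℂ) * F θ) (-(j : ℤ)) := by
    unfold fc
    congr 1
    ext θ
    beta_reduce
    rw [← H1, map_mul, conj_ch]
    ring
  rw [e1] at h1
  simp only [fc_mul_ch, sub_neg_eq_add] at h1
  have hinj : Function.Injective (fun k : ℕ => (k : ℤ) + 1) := by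
    intro i j hij
    simp only at hij
    omega
  rw [← hinj.hasSum_iff] at h1
  · exact h1
  · intro k hk
    rw [H3 k, zero_mul]
    by_contra hcon
    exact hk ⟨(k - 1).toNat, by simp only; omega⟩

theorem hasSum_hF (hc : Continuous h) (Fc : Continuous F)
    (H1 : ∀ θ, h θ * conj (h θ) = ((Real.exp (‖F θ‖ ^ 2) : ℝ) : ℂ))
    (H3 : ∀ k : ℤ, k ≤ 0 → fc (fun θ => h θ * F θ) k = 0)
    (H4 : (2 * π)⁻¹ * ∫ θ in (0 : ℝ)..(2 * π), Real.exp (‖F θ‖ ^ 2) * ‖F θ‖ ^ 2 = lam) :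
    HasSum (fun k : ℕ => ‖fc (fun θ => h θ * F θ) ((k : ℤ) + 1)‖ ^ 2) lam := by
  have h1 := parseval (g := fun θ => h θ * F θ) (by fun_prop)
  have h5 : (2 * π)⁻¹ * ∫ θ in (0 : ℝ)..(2 * π), ‖h θ * F θ‖ ^ 2 = lam := by
    rw [← H4]
    congr 2
    ext θ
    rw [norm_mul, mul_pow]
    congr 1
    have h4 := H1 θ
    rw [Complex.mul_conj, Complex.normSq_eq_norm_sq] at h4
    exact_mod_cast h4
  rw [h5] at h1
  have hinj : Function.Injective (fun k : ℕ => (k : ℤ) + 1) := by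
    intro i j hij
    simp only at hij
    omega
  rw [← hinj.hasSum_iff] at h1
  · exact h1
  · intro k hk
    rw [H3 k]
    · simp
    · by_contra hcon
      exact hk ⟨(k - 1).toNat, by simp only; omega⟩

/-- the defect identity -/
theorem hasSum_defect (hc : Continuous h) (Fc : Continuous F)
    (H1 : ∀ θ, h θ * conj (h θ) = ((Real.exp (‖F θ‖ ^ 2) : ℝ) : ℂ))
    (H3 : ∀ k : ℤ, k ≤ 0 → fc (fun θ => h θ * F θ) k = 0) (hlam : 0 < lam)
    (H4 : (2 * π)⁻¹ * ∫ θ in (0 : ℝ)..(2 * π), Real.exp (‖F θ‖ ^ 2) * ‖F θ‖ ^ 2 = lam)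
    (j : ℕ) :
    HasSum (fun k : ℕ => ‖fc h ((k : ℤ) + 1 + j) -
        conj (fc (fun θ => ((Real.exp (‖F θ‖ ^ 2) : ℝ) : ℂ) * F θ) (-(j : ℤ))) / lam *
          fc (fun θ => h θ * F θ) ((k : ℤ) + 1)‖ ^ 2)
      ((∑' m : ℕ, if j < m then ‖fc h m‖ ^ 2 else 0) -
        ‖fc (fun θ => ((Real.exp (‖F θ‖ ^ 2) : ℝ) : ℂ) * F θ) (-(j : ℤ))‖ ^ 2 / lam) := by
  set u := fc (fun θ => ((Real.exp (‖F θ‖ ^ 2) : ℝ) : ℂ) * F θ) (-(j : ℤ)) with hu
  have hT : HasSum (fun k : ℕ => ‖fc h ((k : ℤ) + 1 + j)‖ ^ 2)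
      (∑' m : ℕ, if j < m then ‖fc h m‖ ^ 2 else 0) := by
    have hs : Summable (fun m : ℕ => if j < m then ‖fc h m‖ ^ 2 else 0) := by
      have h1 := (parseval hc).summable
      have h2 : Summable (fun m : ℕ => ‖fc h m‖ ^ 2) :=
        h1.comp_injective (i := fun m : ℕ => (m : ℤ)) Nat.cast_injective
      refine Summable.of_nonneg_of_le (fun m => ?_) (fun m => ?_) h2
      · split_ifs
        · positivity
        · exact le_refl _
      · split_ifs
        · exact le_refl _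
        · positivity
    have h1 := hs.hasSum
    have hinj : Function.Injective (fun k : ℕ => k + 1 + j) := by
      intro a b hab
      simp only at hab
      omega
    rw [← hinj.hasSum_iff] at h1
    · have e : ((fun m : ℕ => if j < m then ‖fc h m‖ ^ 2 else 0) ∘ fun k : ℕ => k + 1 + j)
          = fun k : ℕ => ‖fc h ((k : ℤ) + 1 + j)‖ ^ 2 := by
        ext k
        simp only [Function.comp]
        rw [if_pos (by omega)]
        push_cast
        rfl
      rw [e] at h1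
      exact h1
    · intro m hm
      rw [if_neg]
      intro hlt
      exact hm ⟨m - j - 1, by simp only; omega⟩
  have hX := hasSum_hF hc Fc H1 H3 H4
  have hC := hasSum_cross hc Fc H1 H3 j
  rw [← hu] at hC
  -- real part of `u conj x y`
  have hC2 : HasSum (fun k : ℕ => (conj u * (fc (fun θ => h θ * F θ) ((k : ℤ) + 1) *
      conj (fc h ((k : ℤ) + 1 + j)))).re) (‖u‖ ^ 2) := by
    have h1 := Complex.hasSum_re (hC.mul_left (conj u))
    have e : (conj u * u).re = ‖u‖ ^ 2 := by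
      rw [mul_comm, Complex.mul_conj, Complex.normSq_eq_norm_sq, Complex.ofReal_re]
    rw [e] at h1
    exact h1
  have hsum := (hT.sub (hC2.mul_left (2 / lam))).add (hX.mul_left (‖u‖ ^ 2 / lam ^ 2))
  have e1 : (∑' m : ℕ, if j < m then ‖fc h m‖ ^ 2 else 0) - 2 / lam * ‖u‖ ^ 2
      + ‖u‖ ^ 2 / lam ^ 2 * lam
      = (∑' m : ℕ, if j < m then ‖fc h m‖ ^ 2 else 0) - ‖u‖ ^ 2 / lam := by
    field_simp
    ring
  rw [e1] at hsum
  have e2 : (fun k : ℕ => ‖fc h ((k : ℤ) + 1 + j) -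
        conj u / lam * fc (fun θ => h θ * F θ) ((k : ℤ) + 1)‖ ^ 2)
      = fun k : ℕ => ‖fc h ((k : ℤ) + 1 + j)‖ ^ 2 -
        2 / lam * (conj u * (fc (fun θ => h θ * F θ) ((k : ℤ) + 1) *
          conj (fc h ((k : ℤ) + 1 + j)))).re +
        ‖u‖ ^ 2 / lam ^ 2 * ‖fc (fun θ => h θ * F θ) ((k : ℤ) + 1)‖ ^ 2 := by
    ext k
    set y := fc h ((k : ℤ) + 1 + j)
    set x := fc (fun θ => h θ * F θ) ((k : ℤ) + 1)
    have h2 := Complex.normSq_sub y (conj u / lam * x)
    rw [Complex.normSq_eq_norm_sq, Complex.normSq_eq_norm_sq, Complex.normSq_eq_norm_sq] at h2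
    rw [h2]
    have h3 : ‖conj u / lam * x‖ ^ 2 = ‖u‖ ^ 2 / lam ^ 2 * ‖x‖ ^ 2 := by
      rw [norm_mul, norm_div, RCLike.norm_conj, Complex.norm_real, Real.norm_eq_abs,
        abs_of_pos hlam]
      ring
    have h4 : (y * conj (conj u / lam * x)).re = 1 / lam * (conj u * (x * conj y)).re := by
      have h5 : conj (y * conj (conj u / lam * x)) = ((1 / lam : ℝ) : ℂ) * (conj u * (x * conj y)) := by
        rw [map_mul, Complex.conj_conj]
        push_cast
        field_simp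
      rw [← Complex.conj_re, h5, Complex.re_ofReal_mul]
    rw [h3, h4]
    ring
  rw [e2]
  exact hsum

theorem proportional (hc : Continuous h) (Fc : Continuous F)
    (H1 : ∀ θ, h θ * conj (h θ) = ((Real.exp (‖F θ‖ ^ 2) : ℝ) : ℂ))
    (H3 : ∀ k : ℤ, k ≤ 0 → fc (fun θ => h θ * F θ) k = 0) (hlam : 0 < lam)
    (H4 : (2 * π)⁻¹ * ∫ θ in (0 : ℝ)..(2 * π), Real.exp (‖F θ‖ ^ 2) * ‖F θ‖ ^ 2 = lam)
    (H5 : ∀ N : ℕ, lam * ∑ m ∈ Finset.range N, (m : ℝ) * ‖fc h m‖ ^ 2 ≤
      ∑' j : ℕ, ‖fc (fun θ => ((Real.exp (‖F θ‖ ^ 2) : ℝ) : ℂ) * F θ) (-(j : ℤ))‖ ^ 2)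
    (j k : ℕ) :
    fc h ((k : ℤ) + 1 + j) =
      conj (fc (fun θ => ((Real.exp (‖F θ‖ ^ 2) : ℝ) : ℂ) * F θ) (-(j : ℤ))) / lam *
          fc (fun θ => h θ * F θ) ((k : ℤ) + 1) := by
  set u : ℕ → ℂ := fun j => fc (fun θ => ((Real.exp (‖F θ‖ ^ 2) : ℝ) : ℂ) * F θ) (-(j : ℤ))
    with hu
  set T : ℕ → ℝ := fun j => ∑' m : ℕ, if j < m then ‖fc h m‖ ^ 2 else 0 with hT
  have hD : ∀ j : ℕ, HasSum (fun k : ℕ => ‖fc h ((k : ℤ) + 1 + j) - conj (u j) / lam *
          fc (fun θ => h θ * F θ) ((k : ℤ) + 1)‖ ^ 2) (T j - ‖u j‖ ^ 2 / lam) := fun j =>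
    hasSum_defect hc Fc H1 H3 hlam H4 j
  have hD0 : ∀ j : ℕ, 0 ≤ T j - ‖u j‖ ^ 2 / lam := fun j => (hD j).nonneg fun _ => by positivity
  have hsu : Summable (fun j : ℕ => ‖u j‖ ^ 2) := by
    have hinj : Function.Injective (fun j : ℕ => -(j : ℤ)) := by
      intro i j h
      simpa using h
    exact (parseval (g := fun θ => ((Real.exp (‖F θ‖ ^ 2) : ℝ) : ℂ) * F θ)
      (by fun_prop)).summable.comp_injective hinj
  have hsK : Summable (fun m : ℕ => (m : ℝ) * ‖fc h m‖ ^ 2) := by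
    refine summable_of_sum_range_le (c := (∑' j : ℕ, ‖u j‖ ^ 2) / lam)
      (fun _ => by positivity) (fun N => ?_)
    rw [le_div_iff₀ hlam, mul_comm]
    exact H5 N
  have hK : ∑' m : ℕ, (m : ℝ) * ‖fc h m‖ ^ 2 ≤ (∑' j : ℕ, ‖u j‖ ^ 2) / lam := by
    apply Real.tsum_le_of_sum_range_le (fun _ => by positivity)
    intro N
    rw [le_div_iff₀ hlam, mul_comm]
    exact H5 N
  have hTs : ∀ j : ℕ, HasSum (fun m : ℕ => if j < m then ‖fc h m‖ ^ 2 else 0) (T j) := by
    intro j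
    apply Summable.hasSum
    have h1 := (parseval hc).summable
    have h2 : Summable (fun m : ℕ => ‖fc h m‖ ^ 2) :=
      h1.comp_injective (i := fun m : ℕ => (m : ℤ)) Nat.cast_injective
    refine Summable.of_nonneg_of_le (fun m => ?_) (fun m => ?_) h2
    · split_ifs
      · positivity
      · exact le_refl _
    · split_ifs
      · exact le_refl _
      · positivity
  have hTK : ∀ J : ℕ, ∑ j ∈ Finset.range J, T j ≤ ∑' m : ℕ, (m : ℝ) * ‖fc h m‖ ^ 2 := by
    intro J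
    have h1 : HasSum (fun m : ℕ => ∑ j ∈ Finset.range J, if j < m then ‖fc h m‖ ^ 2 else 0)
        (∑ j ∈ Finset.range J, T j) := hasSum_sum fun j _ => hTs j
    refine hasSum_le (fun m => ?_) h1 hsK.hasSum
    rw [← Finset.sum_filter, Finset.sum_const, nsmul_eq_mul]
    apply mul_le_mul_of_nonneg_right _ (by positivity)
    have : (Finset.filter (fun j => j < m) (Finset.range J)).card ≤ m := by
      calc _ ≤ (Finset.range m).card := by
            apply Finset.card_le_card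
            intro j hj
            simp at hj ⊢
            exact hj.2
        _ = m := Finset.card_range m
    exact_mod_cast this
  have hDle : T j - ‖u j‖ ^ 2 / lam ≤ 0 := by
    have h1 : ∀ J, j < J → T j - ‖u j‖ ^ 2 / lam ≤
        (∑' j : ℕ, ‖u j‖ ^ 2) / lam - (∑ i ∈ Finset.range J, ‖u i‖ ^ 2) / lam := by
      intro J hJ
      have h2 := Finset.single_le_sum (f := fun i => T i - ‖u i‖ ^ 2 / lam)
        (s := Finset.range J) (fun i _ => hD0 i) (Finset.mem_range.mpr hJ)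
      rw [Finset.sum_sub_distrib, ← Finset.sum_div] at h2
      have h3 := hTK J
      linarith
    have h2 : Tendsto (fun J => (∑' j : ℕ, ‖u j‖ ^ 2) / lam -
        (∑ i ∈ Finset.range J, ‖u i‖ ^ 2) / lam) atTop
        (𝓝 ((∑' j : ℕ, ‖u j‖ ^ 2) / lam - (∑' j : ℕ, ‖u j‖ ^ 2) / lam)) :=
      ((hsu.hasSum.tendsto_sum_nat).div_const lam).const_sub _
    rw [sub_self] at h2
    exact ge_of_tendsto h2 (by
      filter_upwards [eventually_gt_atTop j] with J hJ
      exact h1 J hJ)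
  have h1 := hD j
  rw [le_antisymm hDle (hD0 j)] at h1
  have h2 := (hasSum_zero_iff_of_nonneg (fun _ => by positivity)).mp h1
  have h3 := congrFun h2 k
  simp only [Pi.zero_apply] at h3
  have h4 : fc h ((k : ℤ) + 1 + j) - conj (u j) / lam *
      fc (fun θ => h θ * F θ) ((k : ℤ) + 1) = 0 := by
    rw [← norm_eq_zero]
    exact pow_eq_zero_iff (two_ne_zero) |>.mp h3
  exact sub_eq_zero.mp h4

theorem ch_add_pi (θ : ℝ) : ch 1 (θ + π) = - ch 1 θ := by
  unfold ch
  have : ((1 : ℤ) : ℂ) * ((θ + π : ℝ) : ℂ) * I = ((1 : ℤ) : ℂ) * θ * I + π * I := by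
    push_cast
    ring
  rw [this, Complex.exp_add, Complex.exp_pi_mul_I]
  ring

theorem ch_add_pi_div (θ : ℝ) : ch 1 (θ + π / 2) = I * ch 1 θ := by
  unfold ch
  have : ((1 : ℤ) : ℂ) * ((θ + π / 2 : ℝ) : ℂ) * I = ((1 : ℤ) : ℂ) * θ * I + π / 2 * I := by
    push_cast
    ring
  rw [this, Complex.exp_add, Complex.exp_pi_div_two_mul_I]
  ring

theorem exists_rot (q : ℂ) : ∃ θ : ℝ, q * ch 1 θ = (‖q‖ : ℂ) := by
  refine ⟨-Complex.arg q, ?_⟩
  have h1 := Complex.norm_mul_exp_arg_mul_I q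
  nth_rewrite 1 [← h1]
  unfold ch
  have : ((1 : ℤ) : ℂ) * ((-Complex.arg q : ℝ) : ℂ) * I = -((Complex.arg q : ℂ) * I) := by
    push_cast
    ring
  rw [this, mul_assoc, ← Complex.exp_add]
  simp

/-- Rigidity. -/
theorem rigid (hc : Continuous h) (Fc : Continuous F)
    (hp : Function.Periodic h (2 * π)) (Fp : Function.Periodic F (2 * π))
    (H0 : fc h 0 ≠ 0) (H2 : ∀ k : ℤ, k < 0 → fc h k = 0)
    (H1 : ∀ θ, h θ * conj (h θ) = ((Real.exp (‖F θ‖ ^ 2) : ℝ) : ℂ))
    (H3 : ∀ k : ℤ, k ≤ 0 → fc (fun θ => h θ * F θ) k = 0) (hlam : 0 < lam)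
    (H4 : (2 * π)⁻¹ * ∫ θ in (0 : ℝ)..(2 * π), Real.exp (‖F θ‖ ^ 2) * ‖F θ‖ ^ 2 = lam)
    (H5 : ∀ N : ℕ, lam * ∑ m ∈ Finset.range N, (m : ℝ) * ‖fc h m‖ ^ 2 ≤
      ∑' j : ℕ, ‖fc (fun θ => ((Real.exp (‖F θ‖ ^ 2) : ℝ) : ℂ) * F θ) (-(j : ℤ))‖ ^ 2)
    (m : ℕ) : fc h ((m : ℤ) + 1) = 0 := by
  by_contra hm
  have hprop := proportional hc Fc H1 H3 hlam H4 H5
  set x : ℕ → ℂ := fun k => fc (fun θ => h θ * F θ) ((k : ℤ) + 1) with hx
  set c₀ := conj (fc (fun θ => ((Real.exp (‖F θ‖ ^ 2) : ℝ) : ℂ) * F θ) (-((0 : ℕ) : ℤ))) / lam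
    with hc₀
  set c₁ := conj (fc (fun θ => ((Real.exp (‖F θ‖ ^ 2) : ℝ) : ℂ) * F θ) (-((1 : ℕ) : ℤ))) / lam
    with hc₁
  have e0 : ∀ k : ℕ, fc h ((k : ℤ) + 1) = c₀ * x k := by
    intro k
    have h1 : fc h ((k : ℤ) + 1 + ((0 : ℕ) : ℤ)) = c₀ * x k := hprop 0 k
    rwa [show (k : ℤ) + 1 + ((0 : ℕ) : ℤ) = (k : ℤ) + 1 by simp] at h1
  have e1 : ∀ k : ℕ, fc h ((k : ℤ) + 1 + 1) = c₁ * x k := by
    intro k
    exact hprop 1 k
  have hc₀ne : c₀ ≠ 0 := by
    intro h0
    apply hm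
    rw [e0, h0, zero_mul]
  set β := c₁ / c₀ with hβ
  have hrec : ∀ k : ℕ, fc h ((k : ℤ) + 1 + 1) = β * fc h ((k : ℤ) + 1) := by
    intro k
    rw [e1, e0, hβ]
    field_simp
  have hxrec : ∀ k : ℕ, x (k + 1) = β * x k := by
    intro k
    have h1 := hrec k
    have h2 := e0 (k + 1)
    push_cast at h2
    rw [h2, e0 k] at h1
    have h3 : c₀ * (x (k + 1) - β * x k) = 0 := by linear_combination h1
    rcases mul_eq_zero.mp h3 with h4 | h4
    · exact absurd h4 hc₀ne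
    · exact sub_eq_zero.mp h4
  have hx0 : x 0 ≠ 0 := by
    intro h0
    apply hm
    have h1 : ∀ k : ℕ, x k = 0 := by
      intro k
      induction k with
      | zero => exact h0
      | succ k ih => rw [hxrec, ih, mul_zero]
    rw [e0, h1, mul_zero]
  set h₀ := fc h 0 with hh₀
  set δ := fc h 1 - β * h₀ with hδ
  have hP : ∀ θ, h θ - β * (h θ * ch 1 θ) - (h₀ + δ * ch 1 θ) = 0 := by
    apply eq_zero_of_fc
    · fun_prop
    · intro θ
      simp only [hp θ, ch_periodic 1 θ]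
    · intro k
      have s1 : fc (fun θ => h θ - β * (h θ * ch 1 θ) - (h₀ + δ * ch 1 θ)) k
          = fc h k - β * fc h (k - 1) - ((if 0 = k then h₀ else 0) + (if 1 = k then δ else 0)) := by
        have e2 : (fun θ => h θ - β * (h θ * ch 1 θ) - (h₀ + δ * ch 1 θ))
            = fun θ => (fun θ => h θ - β * (h θ * ch 1 θ)) θ - (fun θ => h₀ + δ * ch 1 θ) θ := rfl
        rw [e2, fc_sub' (by fun_prop) (by fun_prop), fc_sub' hc (by fun_prop), fc_const_mul,
          fc_mul_ch]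
        congr 1
        have e3 : (fun θ => h₀ + δ * ch 1 θ) = fun θ => (fun θ => h₀ * ch 0 θ) θ +
            (fun θ => δ * ch 1 θ) θ := by
          ext θ
          simp
        rw [e3, fc_add (by fun_prop) (by fun_prop), fc_const_mul, fc_const_mul]
        have e4 : ∀ l : ℤ, fc (ch l) k = if l = k then 1 else 0 := by
          intro l
          exact fc_ch l k
        rw [e4, e4]
        split_ifs <;> simp
      rw [s1]
      rcases lt_trichotomy k 0 with hk | hk | hk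
      · rw [H2 k hk, H2 (k - 1) (by omega), if_neg (by omega), if_neg (by omega)]
        ring
      · subst hk
        rw [H2 (0 - 1) (by omega), if_pos rfl, if_neg (by omega)]
        ring
      · rcases (show k = 1 ∨ 2 ≤ k by omega) with hk1 | hk1
        · subst hk1
          rw [if_neg (by omega), if_pos rfl, hδ]
          simp only [sub_self]
          ring
        · rw [if_neg (by omega), if_neg (by omega)]
          have h1 := hrec (k - 2).toNat
          have e5 : (((k - 2).toNat : ℕ) : ℤ) + 1 + 1 = k := by omega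
          have e6 : (((k - 2).toNat : ℕ) : ℤ) + 1 = k - 1 := by omega
          rw [e5, e6] at h1
          rw [h1]
          ring
  have hQ : ∀ θ, h θ * F θ - β * (h θ * F θ * ch 1 θ) - x 0 * ch 1 θ = 0 := by
    apply eq_zero_of_fc
    · fun_prop
    · intro θ
      simp only [hp θ, Fp θ, ch_periodic 1 θ]
    · intro k
      have s1 : fc (fun θ => h θ * F θ - β * (h θ * F θ * ch 1 θ) - x 0 * ch 1 θ) k
          = fc (fun θ => h θ * F θ) k - β * fc (fun θ => h θ * F θ) (k - 1)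
            - (if 1 = k then x 0 else 0) := by
        have e2 : (fun θ => h θ * F θ - β * (h θ * F θ * ch 1 θ) - x 0 * ch 1 θ)
            = fun θ => (fun θ => h θ * F θ - β * ((fun θ => h θ * F θ) θ * ch 1 θ)) θ
              - (fun θ => x 0 * ch 1 θ) θ := rfl
        rw [e2, fc_sub' (by fun_prop) (by fun_prop), fc_sub' (by fun_prop) (by fun_prop),
          fc_const_mul, fc_mul_ch, fc_const_mul, fc_ch]
        split_ifs <;> simp
      rw [s1]
      rcases (show k ≤ 0 ∨ k = 1 ∨ 2 ≤ k by omega) with hk | hk | hk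
      · rw [H3 k hk, H3 (k - 1) (by omega), if_neg (by omega)]
        ring
      · subst hk
        rw [if_pos rfl, H3 (1 - 1) (by norm_num)]
        have : x 0 = fc (fun θ => h θ * F θ) 1 := by
          simp only [hx]
          congr 1
        rw [this]
        ring
      · rw [if_neg (by omega)]
        have h1 := hxrec (k - 2).toNat
        simp only [hx] at h1
        have e5 : (((k - 2).toNat + 1 : ℕ) : ℤ) + 1 = k := by omega
        have e6 : (((k - 2).toNat : ℕ) : ℤ) + 1 = k - 1 := by omega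
        rw [e5, e6] at h1
        rw [h1]
        ring
  -- pointwise norms
  set s : ℝ → ℝ := fun θ => ‖1 - β * ch 1 θ‖ ^ 2 with hs
  set t : ℝ → ℝ := fun θ => ‖h₀ + δ * ch 1 θ‖ ^ 2 with ht
  set κ : ℝ := ‖x 0‖ ^ 2 with hκ
  have hκ0 : 0 < κ := by
    have := norm_pos_iff.mpr hx0
    positivity
  have hn : ∀ θ, ‖h θ‖ ^ 2 = Real.exp (‖F θ‖ ^ 2) := by
    intro θ
    have h4 := H1 θ
    rw [Complex.mul_conj, Complex.normSq_eq_norm_sq] at h4
    exact_mod_cast h4
  have ht1 : ∀ θ, t θ = s θ * Real.exp (‖F θ‖ ^ 2) := by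
    intro θ
    have h1 : h₀ + δ * ch 1 θ = (1 - β * ch 1 θ) * h θ := by linear_combination -(hP θ)
    simp only [ht, hs]
    rw [h1, norm_mul, mul_pow, hn]
  have hκ1 : ∀ θ, t θ * ‖F θ‖ ^ 2 = κ := by
    intro θ
    have h1 : x 0 * ch 1 θ = (1 - β * ch 1 θ) * h θ * F θ := by linear_combination -(hQ θ)
    have h2 : κ = ‖x 0 * ch 1 θ‖ ^ 2 := by
      rw [norm_mul, norm_ch, mul_one]
    rw [h2, h1, ht1]
    simp only [hs]
    rw [norm_mul, norm_mul, mul_pow, mul_pow, hn]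
  have htpos : ∀ θ, 0 < t θ := by
    intro θ
    have h1 : 0 ≤ t θ := by simp only [ht]; positivity
    rcases h1.eq_or_lt with h2 | h2
    · have := hκ1 θ
      rw [← h2, zero_mul] at this
      linarith
    · exact h2
  have hst : ∀ θ, s θ = t θ * Real.exp (-κ / t θ) := by
    intro θ
    have h1 : -κ / t θ = -‖F θ‖ ^ 2 := by
      rw [← hκ1 θ]
      have := (htpos θ).ne'
      field_simp
    rw [h1, ht1, mul_assoc, ← Real.exp_add]
    simp
  set q : ℂ := conj h₀ * δ with hq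
  set D : ℝ := ‖h₀‖ ^ 2 + ‖δ‖ ^ 2 with hD
  have htq : ∀ θ, t θ = D + 2 * (q * ch 1 θ).re := by
    intro θ
    simp only [ht]
    have h2 := Complex.normSq_add h₀ (δ * ch 1 θ)
    rw [Complex.normSq_eq_norm_sq, Complex.normSq_eq_norm_sq, Complex.normSq_eq_norm_sq] at h2
    rw [h2, norm_mul, norm_ch, mul_one]
    have h3 : (h₀ * conj (δ * ch 1 θ)).re = (q * ch 1 θ).re := by
      rw [← Complex.conj_re, hq]
      congr 1
      rw [map_mul, Complex.conj_conj]
      ring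
    rw [h3]
  have hsb : ∀ θ, s θ = 1 + ‖β‖ ^ 2 - 2 * (β * ch 1 θ).re := by
    intro θ
    simp only [hs]
    have h2 := Complex.normSq_sub 1 (β * ch 1 θ)
    rw [Complex.normSq_eq_norm_sq, Complex.normSq_eq_norm_sq, Complex.normSq_eq_norm_sq] at h2
    rw [h2, norm_mul, norm_ch, mul_one, norm_one, one_mul, Complex.conj_re]
    ring
  have hss : ∀ θ, s θ + s (θ + π) = 2 * (1 + ‖β‖ ^ 2) := by
    intro θ
    rw [hsb, hsb, ch_add_pi, mul_neg, Complex.neg_re]
    ring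
  have hq0 : q = 0 := by
    by_contra hqne
    have hqpos : 0 < ‖q‖ := norm_pos_iff.mpr hqne
    obtain ⟨θ₁, hθ₁⟩ := exists_rot q
    have t1 : t θ₁ = D + 2 * ‖q‖ := by rw [htq, hθ₁, Complex.ofReal_re]
    have t2 : t (θ₁ + π) = D - 2 * ‖q‖ := by
      rw [htq, ch_add_pi, mul_neg, hθ₁, Complex.neg_re, Complex.ofReal_re]
      ring
    have t3 : t (θ₁ + π / 2) = D := by
      rw [htq, ch_add_pi_div, show q * (I * ch 1 θ₁) = I * (q * ch 1 θ₁) by ring, hθ₁]
      simp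
    have t4 : t (θ₁ + π / 2 + π) = D := by
      rw [htq, ch_add_pi, ch_add_pi_div, show q * -(I * ch 1 θ₁) = -(I * (q * ch 1 θ₁)) by ring,
        hθ₁]
      simp
    have h1 := hss θ₁
    have h2 := hss (θ₁ + π / 2)
    rw [hst, hst, t1, t2] at h1
    rw [hst, hst, t3, t4] at h2
    have h3 := htpos (θ₁ + π)
    rw [t2] at h3
    have h4 := strict_conv (κ := κ) (T := D) (d := 2 * ‖q‖) hκ0 (by positivity) (by linarith)
    linarith
  have hδ0 : δ = 0 := by
    rcases mul_eq_zero.mp hq0 with h1 | h1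
    · exact absurd ((map_eq_zero _).mp h1) H0
    · exact h1
  have hβ0 : β = 0 := by
    obtain ⟨θ₁, hθ₁⟩ := exists_rot β
    have s1 := hst θ₁
    have s2 := hst (θ₁ + π)
    rw [htq, hq0, zero_mul, Complex.zero_re, mul_zero, add_zero, hsb, hθ₁, Complex.ofReal_re] at s1
    rw [htq, hq0, zero_mul, Complex.zero_re, mul_zero, add_zero, hsb, ch_add_pi, mul_neg, hθ₁,
      Complex.neg_re, Complex.ofReal_re] at s2
    have : ‖β‖ = 0 := by linarith
    exact norm_eq_zero.mp this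
  have h1 : fc h 1 = 0 := by
    have := hδ0
    rw [hδ, hβ0, zero_mul, sub_zero] at this
    exact this
  have h2 := e0 0
  simp only [Nat.cast_zero, zero_add] at h2
  rw [h1] at h2
  rcases mul_eq_zero.mp h2.symm with h3 | h3
  · exact hc₀ne h3
  · exact hx0 h3

end

end Pool.Agent.MP_3466b8_an
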